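import Mathlib

section

namespace Pool.Agent.MP_9c0351_nt

open Polynomial Finset

variable {K : Type*} [NormedField K] [IsUltrametricDist K]

theorem norm_sum_lt {ι : Type*} (s : Finset ι) (f : ι → K) {C : ℝ} (hC : 0 < C)
    (h : ∀ i ∈ s, ‖f i‖ < C) : ‖∑ i ∈ s, f i‖ < C := by
  classical
  induction s using Finset.induction_on with
  | empty => simpa using hC
  | insert i s hi ih =>
    rw [sum_insert hi]
    refine (IsUltrametricDist.norm_add_le_max _ _).trans_lt (max_lt (h i (mem_insert_self _ _)) ?_)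
    exact ih fun j hj => h j (mem_insert_of_mem hj)

theorem norm_sum_le' {ι : Type*} (s : Finset ι) (f : ι → K) {C : ℝ} (hC : 0 ≤ C)
    (h : ∀ i ∈ s, ‖f i‖ ≤ C) : ‖∑ i ∈ s, f i‖ ≤ C :=
  IsUltrametricDist.norm_sum_le_of_forall_le_of_nonneg hC h

theorem norm_add_eq_left {x y : K} (h : ‖y‖ < ‖x‖) : ‖x + y‖ = ‖x‖ := by
  rw [IsUltrametricDist.norm_add_eq_max_of_norm_ne_norm h.ne', max_eq_left h.le]

theorem norm_sub_eq_left {x y : K} (h : ‖y‖ < ‖x‖) : ‖x - y‖ = ‖x‖ := by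
  rw [sub_eq_add_neg, norm_add_eq_left (by rwa [norm_neg])]

theorem norm_sub_eq_right {x y : K} (h : ‖x‖ < ‖y‖) : ‖x - y‖ = ‖y‖ := by
  rw [norm_sub_rev, norm_sub_eq_left h]

theorem norm_sub_le_max' (x y : K) : ‖x - y‖ ≤ max ‖x‖ ‖y‖ := by
  rw [sub_eq_add_neg]
  simpa using IsUltrametricDist.norm_add_le_max x (-y)

theorem norm_add_le_of {x y : K} {C : ℝ} (hx : ‖x‖ ≤ C) (hy : ‖y‖ ≤ C) : ‖x + y‖ ≤ C :=
  (IsUltrametricDist.norm_add_le_max _ _).trans (max_le hx hy)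

theorem norm_sub_le_of {x y : K} {C : ℝ} (hx : ‖x‖ ≤ C) (hy : ‖y‖ ≤ C) : ‖x - y‖ ≤ C :=
  (norm_sub_le_max' _ _).trans (max_le hx hy)

theorem norm_add_lt_of {x y : K} {C : ℝ} (hx : ‖x‖ < C) (hy : ‖y‖ < C) : ‖x + y‖ < C :=
  (IsUltrametricDist.norm_add_le_max _ _).trans_lt (max_lt hx hy)

theorem norm_sub_lt_of {x y : K} {C : ℝ} (hx : ‖x‖ < C) (hy : ‖y‖ < C) : ‖x - y‖ < C :=
  (norm_sub_le_max' _ _).trans_lt (max_lt hx hy)

/-- All terms of `P` at radius `ρ` are at most `μ`. -/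
def Bd (ρ : ℝ) (P : K[X]) (μ : ℝ) : Prop := ∀ j, ‖P.coeff j‖ * ρ ^ j ≤ μ

/-- At radius `ρ` the term of index `r` of `P` has size `μ` and strictly dominates. -/
def Dom (ρ : ℝ) (P : K[X]) (r : ℕ) (μ : ℝ) : Prop :=
  ‖P.coeff r‖ * ρ ^ r = μ ∧ ∀ j, j ≠ r → ‖P.coeff j‖ * ρ ^ j < μ

variable {ρ : ℝ}

omit [IsUltrametricDist K] in
theorem Bd.nonneg {P : K[X]} {μ : ℝ} (h : Bd ρ P μ) : 0 ≤ μ :=
  le_trans (by simp) (h 0)

omit [IsUltrametricDist K] in
theorem Bd.mono {P : K[X]} {μ ν : ℝ} (h : Bd ρ P μ) (hμ : μ ≤ ν) : Bd ρ P ν :=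
  fun j => (h j).trans hμ

omit [IsUltrametricDist K] in
theorem Dom.bd {P : K[X]} {r : ℕ} {μ : ℝ} (h : Dom ρ P r μ) : Bd ρ P μ := by
  intro j
  by_cases hj : j = r
  · rw [hj, h.1]
  · exact (h.2 j hj).le

omit [IsUltrametricDist K] in
theorem Dom.pos (hρ : 0 < ρ) {P : K[X]} {r : ℕ} {μ : ℝ} (h : Dom ρ P r μ) : 0 < μ :=
  lt_of_le_of_lt (by positivity) (h.2 (r + 1) (Nat.succ_ne_self r))

omit [IsUltrametricDist K] in
theorem Dom.unique {P : K[X]} {r r' : ℕ} {μ μ' : ℝ} (h : Dom ρ P r μ) (h' : Dom ρ P r' μ') :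
    r = r' ∧ μ = μ' := by
  have : r = r' := by
    by_contra hne
    have h1 := h.2 r' (Ne.symm hne)
    have h2 := h'.2 r hne
    rw [h'.1] at h1
    rw [h.1] at h2
    linarith
  subst this
  exact ⟨rfl, h.1.symm.trans h'.1⟩

theorem Bd.add (hρ : 0 < ρ) {P Q : K[X]} {μ : ℝ} (h : Bd ρ P μ) (h' : Bd ρ Q μ) :
    Bd ρ (P + Q) μ := by
  intro j
  have hj : 0 < ρ ^ j := by positivity
  rw [← le_div_iff₀ hj, coeff_add]
  exact norm_add_le_of ((le_div_iff₀ hj).2 (h j)) ((le_div_iff₀ hj).2 (h' j))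

omit [IsUltrametricDist K] in
theorem Bd.neg {P : K[X]} {μ : ℝ} (h : Bd ρ P μ) : Bd ρ (-P) μ := by
  intro j
  rw [coeff_neg, norm_neg]
  exact h j

theorem Bd.sub (hρ : 0 < ρ) {P Q : K[X]} {μ : ℝ} (h : Bd ρ P μ) (h' : Bd ρ Q μ) :
    Bd ρ (P - Q) μ := by
  rw [sub_eq_add_neg]
  exact h.add hρ h'.neg

omit [IsUltrametricDist K] in
theorem Dom.neg {P : K[X]} {r : ℕ} {μ : ℝ} (h : Dom ρ P r μ) : Dom ρ (-P) r μ := by
  refine ⟨by rw [coeff_neg, norm_neg]; exact h.1, fun j hj => ?_⟩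
  rw [coeff_neg, norm_neg]
  exact h.2 j hj

theorem Dom.add_bd (hρ : 0 < ρ) {P Q : K[X]} {r : ℕ} {μ ν : ℝ} (h : Dom ρ P r μ) (h' : Bd ρ Q ν)
    (hν : ν < μ) : Dom ρ (P + Q) r μ := by
  refine ⟨?_, fun j hj => ?_⟩
  · have hr : 0 < ρ ^ r := by positivity
    rw [coeff_add, norm_add_eq_left, h.1]
    have := (h' r).trans_lt hν
    rw [← h.1] at this
    exact lt_of_mul_lt_mul_right this hr.le
  · have hj' : 0 < ρ ^ j := by positivity
    rw [← lt_div_iff₀ hj', coeff_add]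
    exact norm_add_lt_of ((lt_div_iff₀ hj').2 (h.2 j hj)) ((lt_div_iff₀ hj').2 ((h' j).trans_lt hν))

theorem Bd.mul (hρ : 0 < ρ) {P Q : K[X]} {μ ν : ℝ} (h : Bd ρ P μ) (h' : Bd ρ Q ν) :
    Bd ρ (P * Q) (μ * ν) := by
  intro j
  have hj : 0 < ρ ^ j := by positivity
  rw [← le_div_iff₀ hj, coeff_mul]
  refine norm_sum_le' _ _ (div_nonneg (mul_nonneg h.nonneg h'.nonneg) hj.le) fun x hx => ?_
  rw [le_div_iff₀ hj, norm_mul, ← mem_antidiagonal.1 hx, pow_add, mul_mul_mul_comm]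
  exact mul_le_mul (h _) (h' _) (by positivity) h.nonneg

theorem Dom.mul (hρ : 0 < ρ) {P Q : K[X]} {r s : ℕ} {μ ν : ℝ} (h : Dom ρ P r μ)
    (h' : Dom ρ Q s ν) : Dom ρ (P * Q) (r + s) (μ * ν) := by
  have hμ := h.pos hρ
  have hν := h'.pos hρ
  have key : ∀ x : ℕ × ℕ, x ≠ (r, s) →
      ‖P.coeff x.1 * Q.coeff x.2‖ < μ * ν / ρ ^ (x.1 + x.2) := by
    rintro ⟨i, j⟩ hx
    rw [lt_div_iff₀ (by positivity), norm_mul, pow_add, mul_mul_mul_comm]
    by_cases hi : i = r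
    · have hj : j ≠ s := fun hj => hx (by rw [hi, hj])
      rw [hi, h.1]
      exact mul_lt_mul_of_pos_left (h'.2 j hj) hμ
    · exact mul_lt_mul_of_lt_of_le_of_nonneg_of_pos (h.2 i hi) (h'.bd j) (by positivity) hν
  refine ⟨?_, fun j hj => ?_⟩
  · have hmem : (r, s) ∈ antidiagonal (r + s) := mem_antidiagonal.2 rfl
    have h1 : ‖P.coeff r * Q.coeff s‖ = μ * ν / ρ ^ (r + s) := by
      rw [eq_div_iff (by positivity), norm_mul, pow_add, mul_mul_mul_comm, h.1, h'.1]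
    rw [coeff_mul, ← add_sum_erase _ _ hmem, norm_add_eq_left, h1]
    · field_simp
    · rw [h1]
      refine norm_sum_lt _ _ (by positivity) fun x hx => ?_
      have h2 := key x (ne_of_mem_erase hx)
      rwa [mem_antidiagonal.1 (mem_of_mem_erase hx)] at h2
  · rw [← lt_div_iff₀ (by positivity), coeff_mul]
    refine norm_sum_lt _ _ (by positivity) fun x hx => ?_
    have h3 := mem_antidiagonal.1 hx
    have h2 := key x (by rintro rfl; exact hj h3.symm)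
    rwa [h3] at h2

omit [IsUltrametricDist K] in
theorem bd_C (c : K) : Bd ρ (C c) ‖c‖ := by
  intro j
  rw [coeff_C]
  split_ifs with h
  · simp [h]
  · simp

omit [IsUltrametricDist K] in
theorem dom_C {c : K} (hc : c ≠ 0) : Dom ρ (C c) 0 ‖c‖ := by
  refine ⟨by simp, fun j hj => ?_⟩
  rw [coeff_C, if_neg hj]
  simpa using hc

omit [IsUltrametricDist K] in
theorem dom_one : Dom ρ (1 : K[X]) 0 1 := by
  simpa using dom_C (ρ := ρ) (one_ne_zero (α := K))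

omit [IsUltrametricDist K] in
theorem dom_X (hρ : 0 < ρ) : Dom ρ (X : K[X]) 1 ρ := by
  refine ⟨by simp, fun j hj => ?_⟩
  rw [coeff_X, if_neg (Ne.symm hj)]
  simpa using hρ

theorem Dom.pow (hρ : 0 < ρ) {P : K[X]} {r : ℕ} {μ : ℝ} (h : Dom ρ P r μ) (n : ℕ) :
    Dom ρ (P ^ n) (n * r) (μ ^ n) := by
  induction n with
  | zero => simpa using dom_one
  | succ n ih =>
    rw [pow_succ, pow_succ, add_mul, one_mul]
    exact ih.mul hρ h

theorem Bd.pow (hρ : 0 < ρ) {P : K[X]} {μ : ℝ} (h : Bd ρ P μ) (n : ℕ) :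
    Bd ρ (P ^ n) (μ ^ n) := by
  induction n with
  | zero => simpa using (dom_one (K := K) (ρ := ρ)).bd
  | succ n ih =>
    rw [pow_succ, pow_succ]
    exact ih.mul hρ h

theorem dom_X_sub_C (hρ : 0 < ρ) {y : K} (hy : ‖y‖ ≠ ρ) :
    Dom ρ (X - C y) (if ‖y‖ < ρ then 1 else 0) (max ρ ‖y‖) := by
  split_ifs with h
  · rw [max_eq_left h.le, sub_eq_add_neg]
    exact (dom_X hρ).add_bd hρ (bd_C y).neg h
  · have h1 : ρ < ‖y‖ := lt_of_le_of_ne (not_lt.1 h) hy.symm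
    have h2 : y ≠ 0 := by rintro rfl; simp at h1; linarith
    rw [max_eq_right h1.le, sub_eq_neg_add]
    exact (dom_C h2).neg.add_bd hρ (dom_X hρ).bd h1

theorem bd_X_sub_C (hρ : 0 < ρ) (y : K) : Bd ρ (X - C y) (max ρ ‖y‖) :=
  ((dom_X hρ).bd.mono (le_max_left _ _)).sub hρ ((bd_C y).mono (le_max_right _ _))

theorem bd_prod (hρ : 0 < ρ) {ι : Type*} (s : Finset ι) (y : ι → K) :
    Bd ρ (∏ i ∈ s, (X - C (y i))) (∏ i ∈ s, max ρ ‖y i‖) := by
  classical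
  induction s using Finset.induction_on with
  | empty => simpa using (dom_one (K := K) (ρ := ρ)).bd
  | insert i s hi ih =>
    rw [prod_insert hi, prod_insert hi]
    exact (bd_X_sub_C hρ _).mul hρ ih

/-- The Newton polygon lemma. -/
theorem dom_prod (hρ : 0 < ρ) {ι : Type*} (s : Finset ι) (y : ι → K) (hy : ∀ i ∈ s, ‖y i‖ ≠ ρ) :
    Dom ρ (∏ i ∈ s, (X - C (y i))) #{i ∈ s | ‖y i‖ < ρ}
      ((∏ i ∈ s with ¬ ‖y i‖ < ρ, ‖y i‖) * ρ ^ #{i ∈ s | ‖y i‖ < ρ}) := by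
  classical
  induction s using Finset.induction_on with
  | empty => simpa using dom_one
  | insert i s hi ih =>
    rw [prod_insert hi, filter_insert, filter_insert]
    have h1 := (dom_X_sub_C hρ (hy i (mem_insert_self _ _))).mul hρ
      (ih fun j hj => hy j (mem_insert_of_mem hj))
    by_cases h : ‖y i‖ < ρ
    · rw [if_pos h, max_eq_left h.le] at h1
      rw [if_pos h, if_neg (not_not.2 h), card_insert_of_notMem (by simp [hi])]
      convert h1 using 1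
      · ring
      · ring
    · rw [if_neg h, max_eq_right (not_lt.1 h)] at h1
      rw [if_neg h, if_pos h, prod_insert (by simp [hi])]
      convert h1 using 1
      · ring
      · ring

theorem Bd.norm_eval_le {P : K[X]} {μ : ℝ} (h : Bd ρ P μ) {y : K} (hy : ‖y‖ ≤ ρ) :
    ‖P.eval y‖ ≤ μ := by
  rw [eval_eq_sum_range]
  refine norm_sum_le' _ _ h.nonneg fun j _ => le_trans ?_ (h j)
  rw [norm_mul, norm_pow]
  gcongr

theorem Dom.norm_eval (hρ : 0 < ρ) {P : K[X]} {r : ℕ} {μ : ℝ} (h : Dom ρ P r μ) {y : K}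
    (hy : ‖y‖ = ρ) : ‖P.eval y‖ = μ := by
  have hμ := h.pos hρ
  have hmem : r ∈ range (P.natDegree + r + 1) := mem_range.2 (by omega)
  have h1 : ‖P.coeff r * y ^ r‖ = μ := by rw [norm_mul, norm_pow, hy, h.1]
  rw [eval_eq_sum_range' (n := P.natDegree + r + 1) (by omega), ← add_sum_erase _ _ hmem,
    norm_add_eq_left, h1]
  rw [h1]
  refine norm_sum_lt _ _ hμ fun j hj => ?_
  rw [norm_mul, norm_pow, hy]
  exact h.2 j (ne_of_mem_erase hj)

theorem bd_aeval (hρ : 0 < ρ) {W : K[X]} (hW : Bd ρ W 1) (V : ℤ[X]) : Bd ρ (aeval W V) 1 := by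
  induction V using Polynomial.induction_on' with
  | add p q hp hq => rw [map_add]; exact hp.add hρ hq
  | monomial n a =>
    rw [aeval_monomial]
    have h1 : Bd ρ (algebraMap ℤ K[X] a) 1 := by
      have : algebraMap ℤ K[X] a = C (a : K) := by simp
      rw [this]
      exact (bd_C _).mono (IsUltrametricDist.norm_intCast_le_one K a)
    simpa using h1.mul hρ (hW.pow hρ n)

end Pool.Agent.MP_9c0351_nt

end

section

namespace Pool.Agent.MP_9c0351_nt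

open Polynomial Finset

theorem exists_binom (m : ℕ) : ∃ V : ℤ[X], ∀ (R : Type) [CommRing R] (W : R),
    (W + 1) ^ m - 1 = m * W + W ^ 2 * aeval W V := by
  induction m with
  | zero => exact ⟨0, fun R _ W => by simp⟩
  | succ m ih =>
    obtain ⟨V, hV⟩ := ih
    refine ⟨(m : ℤ[X]) + V * (X + 1), fun R _ W => ?_⟩
    have h := hV R W
    simp only [map_add, map_mul, aeval_X, map_one, map_natCast]
    push_cast
    linear_combination (W + 1) * h

theorem exists_binom_prime {p : ℕ} (hp : p.Prime) : ∃ V : ℤ[X], ∀ (R : Type) [CommRing R] (W : R),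
    (W + 1) ^ p - 1 = W ^ p + p * W + p * W ^ 2 * aeval W V := by
  obtain ⟨r, hr⟩ := exists_add_pow_prime_eq hp (X : ℤ[X]) 1
  have h1 : r.coeff 0 = 1 := by
    have h2 := congrArg (fun q : ℤ[X] => q.coeff 1) hr
    have h3 : ((p : ℤ[X]) * X * 1 * r).coeff 1 = p * r.coeff 0 := by
      rw [mul_one, mul_assoc, ← C_eq_natCast, coeff_C_mul, coeff_X_mul]
    simp only [coeff_X_add_one_pow, Nat.choose_one_right, one_pow, coeff_add, h3, coeff_X_pow,
      coeff_one, if_neg hp.one_lt.ne, one_ne_zero, if_false, zero_add] at h2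
    have h4 : (p : ℤ) ≠ 0 := by exact_mod_cast hp.ne_zero
    exact mul_left_cancel₀ h4 (by rw [← h2, mul_one])
  refine ⟨r.divX, fun R _ W => ?_⟩
  have h2 := congrArg (aeval W) hr
  have h3 := congrArg (aeval W) (X_mul_divX_add r)
  simp only [map_add, map_mul, map_pow, aeval_X, map_one, map_natCast, h1] at h2 h3
  linear_combination h2 - (p * W) * h3

variable {K : Type} [NormedField K] [IsUltrametricDist K] {p : ℕ}

theorem norm_aeval_le_one {x : K} (hx : ‖x‖ ≤ 1) (V : ℤ[X]) : ‖aeval x V‖ ≤ 1 := by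
  rw [aeval_eq_sum_range]
  refine norm_sum_le' _ _ zero_le_one fun j _ => ?_
  rw [zsmul_eq_mul, norm_mul, norm_pow]
  exact mul_le_one₀ (IsUltrametricDist.norm_intCast_le_one K _) (by positivity)
    (pow_le_one₀ (norm_nonneg _) hx)

theorem norm_intCast_eq_one (hp : p.Prime) (hπ : ‖(p : K)‖ < 1) {z : ℤ} (hz : ¬ (p : ℤ) ∣ z) :
    ‖(z : K)‖ = 1 := by
  refine le_antisymm (IsUltrametricDist.norm_intCast_le_one K z) (not_lt.1 fun h => ?_)
  obtain ⟨u, v, huv⟩ := (Nat.prime_iff_prime_int.1 hp).irreducible.coprime_iff_not_dvd.2 hz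
  have h1 : ((u * p + v * z : ℤ) : K) = 1 := by rw [huv]; simp
  push_cast at h1
  have h2 : ‖(u : K) * p + v * z‖ < 1 := by
    refine norm_add_lt_of ?_ ?_
    · rw [norm_mul]
      exact mul_lt_one_of_nonneg_of_lt_one_right (IsUltrametricDist.norm_intCast_le_one K u)
        (norm_nonneg _) hπ
    · rw [norm_mul]
      exact mul_lt_one_of_nonneg_of_lt_one_right (IsUltrametricDist.norm_intCast_le_one K v)
        (norm_nonneg _) h
  rw [h1, norm_one] at h2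
  exact lt_irrefl _ h2

theorem norm_natCast_eq_one (hp : p.Prime) (hπ : ‖(p : K)‖ < 1) {m : ℕ} (hm : ¬ p ∣ m) :
    ‖(m : K)‖ = 1 := by
  have := norm_intCast_eq_one (K := K) hp hπ (z := m) (by exact_mod_cast hm)
  simpa using this

theorem norm_intCast_le_of_dvd {z : ℤ} {j : ℕ} (h : (p : ℤ) ^ j ∣ z) :
    ‖(z : K)‖ ≤ ‖(p : K)‖ ^ j := by
  obtain ⟨w, rfl⟩ := h
  push_cast
  rw [norm_mul, norm_pow]
  exact mul_le_of_le_one_right (by positivity) (IsUltrametricDist.norm_intCast_le_one K w)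

theorem eq_one_of_pow_eq_one (hp : p.Prime) (hπ : ‖(p : K)‖ < 1) {m : ℕ} (hm : ¬ p ∣ m) {η : K}
    (h1 : η ^ m = 1) (h2 : ‖η - 1‖ < 1) : η = 1 := by
  obtain ⟨V, hV⟩ := exists_binom m
  have h3 := hV K (η - 1)
  rw [sub_add_cancel, h1, sub_self] at h3
  have h4 : (η - 1) * ((m : K) + (η - 1) * aeval (η - 1) V) = 0 := by linear_combination -h3
  rcases mul_eq_zero.1 h4 with h5 | h5
  · exact sub_eq_zero.1 h5
  · have h6 : ‖(η - 1) * aeval (η - 1) V‖ < ‖(m : K)‖ := by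
      rw [norm_natCast_eq_one hp hπ hm, norm_mul]
      exact mul_lt_one_of_nonneg_of_lt_one_left (norm_nonneg _) h2 (norm_aeval_le_one h2.le V)
    have h7 := norm_add_eq_left h6
    rw [h5, norm_zero, norm_natCast_eq_one hp hπ hm] at h7
    exact absurd h7 zero_ne_one

omit [IsUltrametricDist K] in
theorem norm_eq_one_of_pow_eq_one {m : ℕ} (hm : m ≠ 0) {η : K} (h1 : η ^ m = 1) : ‖η‖ = 1 := by
  have h := congrArg norm h1
  rw [norm_pow, norm_one] at h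
  exact (pow_eq_one_iff_of_nonneg (norm_nonneg _) hm).1 h

theorem eq_of_pow_eq_one (hp : p.Prime) (hπ : ‖(p : K)‖ < 1) {m : ℕ} (hm : ¬ p ∣ m) {η ζ : K}
    (h1 : η ^ m = 1) (h1' : ζ ^ m = 1) (h2 : ‖η - ζ‖ < 1) : η = ζ := by
  have hm0 : m ≠ 0 := by rintro rfl; exact hm (dvd_zero p)
  have hζ := norm_eq_one_of_pow_eq_one hm0 h1'
  have hζ0 : ζ ≠ 0 := by rintro rfl; simp at hζ
  have h3 : η / ζ = 1 := by
    refine eq_one_of_pow_eq_one hp hπ hm (by rw [div_pow, h1, h1', div_one]) ?_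
    rw [div_sub_one hζ0, norm_div, hζ, div_one]
    exact h2
  exact (div_eq_one_iff_eq hζ0).1 h3

theorem norm_sub_one_lt_of_pow (hp : p.Prime) (hπ : ‖(p : K)‖ < 1) (k : ℕ) {x : K} (hx : ‖x‖ ≤ 1)
    (h : ‖x ^ p ^ k - 1‖ < 1) : ‖x - 1‖ < 1 := by
  obtain ⟨V, hV⟩ := exists_binom_prime hp
  induction k generalizing x with
  | zero => simpa using h
  | succ k ih =>
    have h1 : ‖x ^ p - 1‖ < 1 := by
      refine ih (by rw [norm_pow]; exact pow_le_one₀ (norm_nonneg _) hx) ?_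
      rwa [← pow_mul, ← pow_succ']
    have h2 := hV K (x - 1)
    rw [sub_add_cancel] at h2
    have h3 : ‖x - 1‖ ≤ 1 := norm_sub_le_of hx (by simp)
    have h4 : (x - 1) ^ p = (x ^ p - 1) - p * ((x - 1) + (x - 1) ^ 2 * aeval (x - 1) V) := by
      linear_combination -h2
    have h5 : ‖(x - 1) ^ p‖ < 1 := by
      rw [h4]
      refine norm_sub_lt_of h1 ?_
      rw [norm_mul]
      refine mul_lt_one_of_nonneg_of_lt_one_left (norm_nonneg _) hπ (norm_add_le_of h3 ?_)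
      rw [norm_mul, norm_pow]
      exact mul_le_one₀ (pow_le_one₀ (norm_nonneg _) h3) (norm_nonneg _) (norm_aeval_le_one h3 V)
    rw [norm_pow] at h5
    exact (pow_lt_one_iff_of_nonneg (norm_nonneg _) hp.ne_zero).1 h5

theorem norm_le_one_of_mem_closure {ζ : K} (hζ : ‖ζ‖ ≤ 1) {z : K}
    (hz : z ∈ Subring.closure {ζ}) : ‖z‖ ≤ 1 := by
  induction hz using Subring.closure_induction with
  | mem x hx => rw [Set.mem_singleton_iff.1 hx]; exact hζ
  | zero => simp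
  | one => simp
  | add x y _ _ hx hy => exact norm_add_le_of hx hy
  | neg x _ hx => rwa [norm_neg]
  | mul x y _ _ hx hy => rw [norm_mul]; exact mul_le_one₀ hx (norm_nonneg _) hy

omit [IsUltrametricDist K] in
theorem exists_frob (hp : p.Prime) {m : ℕ} (hm : ¬ p ∣ m) {ζ : K} (hζ : ζ ^ m = 1) :
    ∃ q : ℕ, 2 ≤ q ∧ ∀ z ∈ Subring.closure {ζ}, ∃ w ∈ Subring.closure {ζ}, z ^ q - z = p * w := by
  have hm0 : 0 < m := Nat.pos_of_ne_zero (by rintro rfl; exact hm (dvd_zero p))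
  have hcop : Nat.Coprime p m := (Nat.Prime.coprime_iff_not_dvd hp).2 hm
  have hmod := Nat.ModEq.pow_totient hcop
  have hf : 0 < m.totient := Nat.totient_pos.2 hm0
  have hq : 2 ≤ p ^ m.totient := hp.two_le.trans (Nat.le_self_pow hf.ne' p)
  have hζq : ζ ^ p ^ m.totient = ζ := by
    obtain ⟨c, hc⟩ := (Nat.modEq_iff_dvd' (by omega)).1 hmod.symm
    have : p ^ m.totient = m * c + 1 := by omega
    rw [this, pow_succ, pow_mul, hζ, one_pow, one_mul]
  refine ⟨p ^ m.totient, hq, fun z hz => ?_⟩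
  have hadd : ∀ x ∈ Subring.closure {ζ}, ∀ y ∈ Subring.closure {ζ}, ∃ w ∈ Subring.closure {ζ},
      (x + y) ^ p ^ m.totient = x ^ p ^ m.totient + y ^ p ^ m.totient + p * w := by
    intro x hx y hy
    obtain ⟨r, hr⟩ := exists_add_pow_prime_pow_eq hp (⟨x, hx⟩ : Subring.closure {ζ}) ⟨y, hy⟩
      m.totient
    refine ⟨x * y * r, Subring.mul_mem _ (Subring.mul_mem _ hx hy) r.2, ?_⟩
    have := congrArg Subtype.val hr
    push_cast at this
    rw [this]; ring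
  induction hz using Subring.closure_induction with
  | mem x hx =>
    rw [Set.mem_singleton_iff.1 hx, hζq]
    exact ⟨0, Subring.zero_mem _, by simp⟩
  | zero => exact ⟨0, Subring.zero_mem _, by rw [zero_pow (by omega)]; simp⟩
  | one => exact ⟨0, Subring.zero_mem _, by simp⟩
  | add x y hx hy ihx ihy =>
    obtain ⟨u, hu, h1⟩ := ihx
    obtain ⟨v, hv, h2⟩ := ihy
    obtain ⟨w, hw, h3⟩ := hadd x hx y hy
    exact ⟨u + v + w, Subring.add_mem _ (Subring.add_mem _ hu hv) hw,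
      by linear_combination h1 + h2 + h3⟩
  | neg x hx ihx =>
    obtain ⟨u, hu, h1⟩ := ihx
    obtain ⟨w, hw, h3⟩ := hadd x hx (-x) (Subring.neg_mem _ hx)
    rw [add_neg_cancel, zero_pow (by omega)] at h3
    exact ⟨-u - w, Subring.sub_mem _ (Subring.neg_mem _ hu) hw, by linear_combination -h1 - h3⟩
  | mul x y hx hy ihx ihy =>
    obtain ⟨u, hu, h1⟩ := ihx
    obtain ⟨v, hv, h2⟩ := ihy
    refine ⟨u * y ^ p ^ m.totient + x * v, Subring.add_mem _
      (Subring.mul_mem _ hu (Subring.pow_mem _ hy _)) (Subring.mul_mem _ hx hv), ?_⟩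
    rw [mul_pow]
    linear_combination (y ^ p ^ m.totient) * h1 + x * h2

/-- Nonzero elements of the ring generated by a root of unity of order prime to `p` have norm a
power of the norm of `p`. -/
theorem exists_norm_eq_pow (hp : p.Prime) (hπ : ‖(p : K)‖ < 1) {m : ℕ} (hm : ¬ p ∣ m) {ζ : K}
    (hζ : ζ ^ m = 1) {z : K} (hz : z ∈ Subring.closure {ζ}) (hz0 : z ≠ 0) :
    ∃ j : ℕ, ‖z‖ = ‖(p : K)‖ ^ j := by
  have hm0 : m ≠ 0 := by rintro rfl; exact hm (dvd_zero p)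
  have hζ1 := (norm_eq_one_of_pow_eq_one hm0 hζ).le
  obtain ⟨q, hq, hfrob⟩ := exists_frob hp hm hζ
  obtain ⟨J, hJ⟩ := exists_pow_lt_of_lt_one (norm_pos_iff.2 hz0) hπ
  induction J generalizing z with
  | zero =>
    rw [pow_zero] at hJ
    exact absurd (norm_le_one_of_mem_closure hζ1 hz) (not_le.2 hJ)
  | succ J ih =>
    rcases (norm_le_one_of_mem_closure hζ1 hz).eq_or_lt with h | h
    · exact ⟨0, by rw [h, pow_zero]⟩
    · obtain ⟨w, hw, h1⟩ := hfrob z hz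
      have h2 : ‖z ^ q‖ < ‖z‖ := by
        rw [norm_pow]
        exact pow_lt_self_of_lt_one₀ (norm_pos_iff.2 hz0) h (by omega)
      have h3 : ‖z‖ = ‖(p : K)‖ * ‖w‖ := by rw [← norm_mul, ← h1, norm_sub_eq_right h2]
      have hw0 : w ≠ 0 := by
        rintro rfl
        rw [norm_zero, mul_zero] at h3
        exact hz0 (norm_eq_zero.1 h3)
      obtain ⟨j, hj⟩ := ih hw hw0 (by
        rw [h3, pow_succ'] at hJ
        exact lt_of_mul_lt_mul_left hJ (norm_nonneg _))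
      exact ⟨j + 1, by rw [h3, hj, pow_succ']⟩

theorem norm_le_of_lt_one (hp : p.Prime) (hπ : ‖(p : K)‖ < 1) {m : ℕ} (hm : ¬ p ∣ m) {ζ : K}
    (hζ : ζ ^ m = 1) {z : K} (hz : z ∈ Subring.closure {ζ}) (h : ‖z‖ < 1) :
    ‖z‖ ≤ ‖(p : K)‖ := by
  by_cases hz0 : z = 0
  · simp [hz0]
  obtain ⟨j, hj⟩ := exists_norm_eq_pow hp hπ hm hζ hz hz0
  rcases j with _ | j
  · rw [hj, pow_zero] at h; exact absurd h (lt_irrefl _)
  · rw [hj, pow_succ']
    exact mul_le_of_le_one_right (norm_nonneg _) (pow_le_one₀ (norm_nonneg _) hπ.le)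

variable [CharZero K] {ρ : ℝ}

theorem dom_pow_prime_pow (hp : p.Prime) (hρ : 0 < ρ) (hρ1 : ρ < 1) (hπ : ‖(p : K)‖ < 1)
    {i k : ℕ} (hik : i ≤ k)
    (h1 : ∀ j < i, ‖(p : K)‖ < ρ ^ (p ^ j * (p - 1)))
    (h2 : i < k → ρ ^ (p ^ i * (p - 1)) < ‖(p : K)‖) :
    Dom ρ ((X + 1 : K[X]) ^ p ^ k - 1) (p ^ i) (ρ ^ p ^ i * ‖(p : K)‖ ^ (k - i)) := by
  obtain ⟨V, hV⟩ := exists_binom_prime hp
  have hp0 : (p : K) ≠ 0 := by exact_mod_cast hp.ne_zero
  have hπ0 : 0 < ‖(p : K)‖ := norm_pos_iff.2 hp0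
  have hrec : ∀ j : ℕ, (X + 1 : K[X]) ^ p ^ (j + 1) - 1 = ((X + 1) ^ p ^ j - 1) ^ p +
      C (p : K) * ((X + 1) ^ p ^ j - 1) + C (p : K) * ((X + 1) ^ p ^ j - 1) ^ 2 *
        aeval ((X + 1 : K[X]) ^ p ^ j - 1) V := by
    intro j
    have := hV K[X] ((X + 1) ^ p ^ j - 1)
    rw [sub_add_cancel, ← pow_mul, ← pow_succ] at this
    rw [this, C_eq_natCast]
    rfl
  have hp1 : p - 1 + 1 = p := Nat.sub_add_cancel hp.one_le
  have hthird : ∀ {W : K[X]} {r : ℕ} {μ : ℝ}, Dom ρ W r μ → μ < 1 →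
      Bd ρ (C (p : K) * W ^ 2 * aeval W V) (‖(p : K)‖ * μ ^ 2) := by
    intro W r μ hW hμ
    simpa using ((bd_C (p : K)).mul hρ (hW.bd.pow hρ 2)).mul hρ
      (bd_aeval hρ (hW.bd.mono hμ.le) V)
  have hup : ∀ j ≤ i, Dom ρ ((X + 1 : K[X]) ^ p ^ j - 1) (p ^ j) (ρ ^ p ^ j) := by
    intro j
    induction j with
    | zero => intro _; simpa using dom_X hρ
    | succ j ih =>
      intro hj
      have hW := ih (by omega)
      have hμ : ρ ^ p ^ j < 1 := pow_lt_one₀ hρ.le hρ1 (pow_ne_zero _ hp.ne_zero)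
      have hμ0 : 0 < ρ ^ p ^ j := by positivity
      have h3 : ‖(p : K)‖ * ρ ^ p ^ j < (ρ ^ p ^ j) ^ p := by
        have := h1 j (by omega)
        rw [pow_mul] at this
        calc _ < (ρ ^ p ^ j) ^ (p - 1) * ρ ^ p ^ j := mul_lt_mul_of_pos_right this hμ0
          _ = _ := by rw [← pow_succ, hp1]
      have h4 : ‖(p : K)‖ * (ρ ^ p ^ j) ^ 2 < (ρ ^ p ^ j) ^ p := by
        refine lt_of_le_of_lt ?_ h3
        exact mul_le_mul_of_nonneg_left (by nlinarith) hπ0.le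
      have h5 := ((hW.pow hρ p).add_bd hρ ((bd_C (p : K)).mul hρ hW.bd) h3).add_bd hρ
        (hthird hW hμ) h4
      rw [hrec, pow_succ' p j]
      convert h5 using 1
      rw [← pow_mul, mul_comm]
  obtain ⟨t, rfl⟩ := Nat.exists_eq_add_of_le hik
  rw [Nat.add_sub_cancel_left]
  induction t with
  | zero => simpa using hup i le_rfl
  | succ t ih =>
    have h2' := h2 (by omega)
    have hW := ih (by omega) (fun _ => h2')
    have hμ1 : ρ ^ p ^ i < 1 := pow_lt_one₀ hρ.le hρ1 (pow_ne_zero _ hp.ne_zero)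
    have hπt : ‖(p : K)‖ ^ t ≤ 1 := pow_le_one₀ hπ0.le hπ.le
    set μ := ρ ^ p ^ i * ‖(p : K)‖ ^ t with hμdef
    have hμ0 : 0 < μ := by positivity
    have hμle : μ ≤ ρ ^ p ^ i := mul_le_of_le_one_right (by positivity) hπt
    have hμ : μ < 1 := hμle.trans_lt hμ1
    have h3 : μ ^ p < ‖(p : K)‖ * μ := by
      rw [pow_mul] at h2'
      calc μ ^ p = μ ^ (p - 1) * μ := by rw [← pow_succ, hp1]
        _ ≤ (ρ ^ p ^ i) ^ (p - 1) * μ := by gcongr
        _ < _ := mul_lt_mul_of_pos_right h2' hμ0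
    have h4 : ‖(p : K)‖ * μ ^ 2 < ‖(p : K)‖ * μ :=
      mul_lt_mul_of_pos_left (by nlinarith) hπ0
    have h5 := (((dom_C hp0).mul hρ hW).add_bd hρ (hW.bd.pow hρ p) h3).add_bd hρ
      (hthird hW hμ) h4
    rw [← add_assoc, hrec, add_comm (_ ^ p)]
    convert h5 using 1
    · simp
    · rw [hμdef]; ring

theorem dom_pow_sub_one (hp : p.Prime) (hρ : 0 < ρ) (hρ1 : ρ < 1) (hπ : ‖(p : K)‖ < 1)
    {i k m : ℕ} (hm : ¬ p ∣ m) (hik : i ≤ k)
    (h1 : ∀ j < i, ‖(p : K)‖ < ρ ^ (p ^ j * (p - 1)))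
    (h2 : i < k → ρ ^ (p ^ i * (p - 1)) < ‖(p : K)‖) :
    Dom ρ ((X + 1 : K[X]) ^ (p ^ k * m) - 1) (p ^ i) (ρ ^ p ^ i * ‖(p : K)‖ ^ (k - i)) := by
  have hW := dom_pow_prime_pow (K := K) hp hρ hρ1 hπ hik h1 h2
  obtain ⟨V, hV⟩ := exists_binom m
  have h3 := hV K[X] ((X + 1) ^ p ^ k - 1)
  rw [sub_add_cancel, ← pow_mul] at h3
  have hμ0 := hW.pos hρ
  have hμ : ρ ^ p ^ i * ‖(p : K)‖ ^ (k - i) < 1 :=
    mul_lt_one_of_nonneg_of_lt_one_left (by positivity)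
      (pow_lt_one₀ hρ.le hρ1 (pow_ne_zero _ hp.ne_zero)) (pow_le_one₀ (norm_nonneg _) hπ.le)
  have hm0 : (m : K) ≠ 0 := by
    have : m ≠ 0 := by rintro rfl; exact hm (dvd_zero p)
    exact_mod_cast this
  have h4 := (dom_C hm0).mul hρ hW
  rw [norm_natCast_eq_one hp hπ hm, zero_add, one_mul] at h4
  have h5 := (hW.bd.pow hρ 2).mul hρ (bd_aeval hρ (hW.bd.mono hμ.le) V)
  rw [h3, ← C_eq_natCast]
  exact h4.add_bd hρ h5 (by nlinarith)

end Pool.Agent.MP_9c0351_nt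

end
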