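import Mathlib
import Pool.Agent.Mg.F9c0351p.G255f45

namespace Pool.Agent.MP_9c0351_nt

open Polynomial Finset

variable {K : Type} [NormedField K] [IsUltrametricDist K]

theorem fam_dom {ι : Type} [Fintype ι] (x : ι → K) {c : K} (hc : c ≠ 0) {ρ lo up : ℝ}
    (hρ : 0 < ρ) (hlo : lo < ρ) (hup : ρ < up) (hno : ∀ i, ‖x i‖ ≤ lo ∨ up ≤ ‖x i‖) :
    Dom ρ (C c * ∏ i, (X - C (x i))) #{i | ‖x i‖ < up}
      ((‖c‖ * ∏ i with ¬ ‖x i‖ < up, ‖x i‖) * ρ ^ #{i | ‖x i‖ < up}) := by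
  have h1 : ∀ i, ‖x i‖ < ρ ↔ ‖x i‖ < up := fun i =>
    ⟨fun h => h.trans hup, fun h => by
      rcases hno i with h2 | h2
      · exact h2.trans_lt hlo
      · exact absurd h (not_lt.2 h2)⟩
  have h2 := (dom_C hc).mul hρ (dom_prod hρ univ x fun i _ h => by
    rcases hno i with h2 | h2 <;> linarith)
  simp only [h1, zero_add] at h2
  rwa [mul_assoc]

theorem Bd.norm_eval_derivative_le {ρ μ : ℝ} (hρ : 0 < ρ) {P : K[X]} (h : Bd ρ P μ) {z : K}
    (hz : ‖z‖ ≤ ρ) : ‖P.derivative.eval z‖ ≤ μ / ρ := by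
  refine Bd.norm_eval_le (ρ := ρ) (fun j => ?_) hz
  rw [le_div_iff₀ hρ, coeff_derivative, norm_mul, mul_assoc, mul_assoc, ← pow_succ]
  refine le_trans ?_ (h (j + 1))
  refine mul_le_mul_of_nonneg_left (mul_le_of_le_one_left (by positivity) ?_) (norm_nonneg _)
  exact_mod_cast IsUltrametricDist.norm_natCast_le_one K (j + 1)

/-- Good radii for the interval of index `i`. -/
def GoodR (p : ℕ) (π : ℝ) (k δ i : ℕ) (ρ : ℝ) : Prop :=
  i ≤ k ∧ π < ρ ∧ ρ < 1 ∧ (∀ j < i, π < ρ ^ (p ^ j * (p - 1))) ∧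
    (i < k → ρ ^ (p ^ i * (p - 1)) < π) ∧ π ^ i < ρ ^ (p ^ i + 1) * π ^ δ

theorem exists_radii {p : ℕ} (hp : 2 ≤ p) {π : ℝ} (hπ0 : 0 < π) (hπ1 : π < 1) {k δ w : ℕ}
    (hw : 1 ≤ w) (hk : w + δ ≤ k) (hw2 : w + δ < k → 2 ≤ w * (p - 1)) :
    ∃ (r : ℕ → ℝ) (σ : ℝ), (∀ t, 0 < r t ∧ r t < 1 ∧ r t ^ (p ^ t * (p - 1)) = π) ∧ 0 < σ ∧
      ∀ i, w + δ ≤ i → i ≤ k →
        (if i = w + δ then σ else r (i - 1)) < (if i < k then r i else 1) ∧
        ∀ ρ, (if i = w + δ then σ else r (i - 1)) < ρ → ρ < (if i < k then r i else 1) →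
          GoodR p π k δ i ρ := by
  have hS : ∀ t, p ^ t * (p - 1) ≠ 0 := fun t =>
    mul_ne_zero (pow_ne_zero _ (by omega)) (by omega)
  have hroot : ∀ (a : ℝ) (n : ℕ), 0 < a → a < 1 → n ≠ 0 → ∃ s : ℝ, 0 < s ∧ s < 1 ∧ s ^ n = a :=
    fun a n ha ha1 hn => ⟨a ^ ((n : ℝ)⁻¹), by positivity,
      Real.rpow_lt_one ha.le ha1 (by positivity), Real.rpow_inv_natCast_pow ha.le hn⟩
  choose r hr0 hr1 hr2 using fun t => hroot π _ hπ0 hπ1 (hS t)
  obtain ⟨σ', hσ0, hσ1, hσ2⟩ := hroot (π ^ w) (p ^ (w + δ) + 1) (by positivity)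
    (pow_lt_one₀ hπ0.le hπ1 (by omega)) (by omega)
  have hSmono : ∀ {s t : ℕ}, s < t → p ^ s * (p - 1) < p ^ t * (p - 1) := fun hst =>
    mul_lt_mul_of_pos_right (Nat.pow_lt_pow_right (by omega) hst) (by omega)
  have hrmono : ∀ {s t : ℕ}, s < t → r s < r t := by
    intro s t hst
    refine lt_of_pow_lt_pow_left₀ (p ^ t * (p - 1)) (hr0 t).le ?_
    rw [hr2 t, ← hr2 s]
    exact pow_lt_pow_right_of_lt_one₀ (hr0 s) (hr1 s) (hSmono hst)
  have hπr : ∀ t, π ≤ r t := by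
    intro t
    rw [← hr2 t]
    exact pow_le_of_le_one (hr0 t).le (hr1 t).le (hS t)
  refine ⟨r, max (r (w + δ - 1)) σ', fun t => ⟨hr0 t, hr1 t, hr2 t⟩,
    lt_max_of_lt_right hσ0, fun i hi hik => ⟨?_, fun ρ h1 h2 => ?_⟩⟩
  · by_cases h1 : i = w + δ
    · rw [if_pos h1]
      by_cases h2 : i < k
      · rw [if_pos h2]
        refine max_lt (hrmono (by omega)) ?_
        refine lt_of_pow_lt_pow_left₀ (p ^ (w + δ) + 1) (hr0 i).le ?_
        rw [hσ2, ← hr2 i, ← pow_mul, h1]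
        refine pow_lt_pow_right_of_lt_one₀ (hr0 _) (hr1 _) ?_
        have h3 := hw2 (h1 ▸ h2)
        have h4 : 2 ≤ p ^ (w + δ) := hp.trans (Nat.le_self_pow (by omega) p)
        calc p ^ (w + δ) + 1 < p ^ (w + δ) * 2 := by omega
          _ ≤ p ^ (w + δ) * (w * (p - 1)) := Nat.mul_le_mul_left _ h3
          _ = _ := by ring
      · rw [if_neg h2]
        exact max_lt (hr1 _) hσ1
    · rw [if_neg h1]
      split_ifs
      · exact hrmono (by omega)
      · exact hr1 _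
  · have h3 : r (i - 1) < ρ := by
      split_ifs at h1 with h
      · rw [h]; exact (le_max_left _ _).trans_lt h1
      · exact h1
    have h4 : ρ < 1 := by
      split_ifs at h2
      · exact h2.trans (hr1 _)
      · exact h2
    have hρ : 0 < ρ := (hr0 _).trans h3
    refine ⟨hik, (hπr _).trans_lt h3, h4, fun j hj => ?_, fun h => ?_, ?_⟩
    · have h5 : r j < ρ := by
        rcases (show j ≤ i - 1 by omega).eq_or_lt with h | h
        · rw [h]; exact h3
        · exact (hrmono h).trans h3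
      rw [← hr2 j]
      exact pow_lt_pow_left₀ h5 (hr0 j).le (hS j)
    · rw [if_pos h] at h2
      rw [← hr2 i]
      exact pow_lt_pow_left₀ h2 hρ.le (hS i)
    · by_cases h : i = w + δ
      · rw [if_pos h] at h1
        rw [h, pow_add π, ← hσ2]
        exact mul_lt_mul_of_pos_right
          (pow_lt_pow_left₀ ((le_max_right _ _).trans_lt h1) hσ0.le (by omega)) (by positivity)
      · obtain ⟨s, rfl⟩ : ∃ s, i = s + 1 := ⟨i - 1, by omega⟩
        obtain ⟨v, hv⟩ : ∃ v, s + 1 = v + δ := ⟨s + 1 - δ, by omega⟩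
        rw [Nat.add_sub_cancel] at h3
        have h5 := hw2 (by omega)
        have h6 : p ^ (s + 1) + 1 ≤ p ^ s * (p - 1) * v := by
          have h7 : 1 ≤ p ^ s := Nat.one_le_pow _ _ (by omega)
          have h8 : p + 1 ≤ (p - 1) * v := by
            have : (p - 1) * (w + 1) ≤ (p - 1) * v := Nat.mul_le_mul_left _ (by omega)
            have h9 : (p - 1) * (w + 1) = w * (p - 1) + (p - 1) := by ring
            omega
          calc p ^ (s + 1) + 1 ≤ p ^ s * (p + 1) := by rw [pow_succ, mul_add]; omega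
            _ ≤ p ^ s * ((p - 1) * v) := Nat.mul_le_mul_left _ h8
            _ = _ := by ring
        conv_lhs => rw [hv, pow_add]
        refine mul_lt_mul_of_pos_right ?_ (by positivity)
        calc π ^ v = r s ^ (p ^ s * (p - 1) * v) := by rw [pow_mul, hr2 s]
          _ ≤ r s ^ (p ^ (s + 1) + 1) := pow_le_pow_of_le_one (hr0 s).le (hr1 s).le h6
          _ < _ := pow_lt_pow_left₀ h3 (hr0 s).le (by omega)

theorem pow_eq_pow_dvd {π r : ℝ} (hπ0 : 0 < π) (hπ1 : π < 1) {S a b c : ℕ} (hr : r ^ S = π)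
    (h : π ^ a = π ^ b * r ^ c) : S ∣ c := by
  have h1 : π ^ (a * S) = π ^ (b * S + c) := by
    rw [pow_mul, h, mul_pow, ← pow_mul, ← pow_mul, mul_comm c S, pow_mul r, hr, pow_add]
  have h2 := pow_right_injective₀ hπ0 hπ1.ne h1
  have h3 : S ∣ b * S + c := h2 ▸ Dvd.intro_left a rfl
  exact (Nat.dvd_add_right (Dvd.intro_left b rfl)).1 h3

theorem cluster_bound {p : ℕ} (hp : 2 ≤ p) {π : ℝ} (hπ0 : 0 < π) (hπ1 : π < 1) {k δ w w' : ℕ}
    (hw : 1 ≤ w) (hk : w + δ ≤ k) (hw2 : w + δ < k → 2 ≤ w * (p - 1))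
    {ι κ : Type} [Fintype ι] [Fintype κ] (x : ι → K) (y : κ → K) (hne : ∀ i j, x i ≠ y j)
    {cG cH : K} (hcG : cG ≠ 0) (hcH : cH ≠ 0) (G H τ : K[X])
    (hG : G = C cG * ∏ i, (X - C (x i))) (hH : H = C cH * ∏ j, (X - C (y j)))
    (hGint : ∀ r, G.coeff r ≠ 0 → ∃ j : ℕ, ‖G.coeff r‖ = π ^ j)
    (hHint : ∀ r, H.coeff r ≠ 0 → ∃ j : ℕ, ‖H.coeff r‖ = π ^ j)
    {u rτ : ℕ} (hτ : ∀ ρ, π < ρ → ρ < 1 → Dom ρ τ rτ (ρ ^ rτ))
    (hT : ∀ i ρ, GoodR p π k δ i ρ →
      Dom ρ (τ * G * H) (u + p ^ i) (ρ ^ (u + p ^ i) * π ^ (k - i)))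
    (hlow : ∀ t, 1 ≤ t → u + p ^ t - rτ ≤ p ^ t * (p - 1))
    (hB : π ^ (k - (w + δ) + 1) ≤ ‖G.coeff 0 * H.coeff 0‖ ∨
      ∀ i, ‖x i‖ < 1 → π ^ (k - (w + δ) + w') ≤ ‖G.derivative.eval (x i) * H.eval (x i)‖) :
    ∑ i, ∑ j, (if ‖x i‖ < 1 ∧ ‖y j‖ < 1 then -Real.log ‖x i - y j‖ else 0) ≤
      -Real.log π * ((w' * min #{i | ‖x i‖ < 1} (u + p ^ (w + δ) - rτ) +
        ∑ t ∈ Ico (w + δ) k, min #{i | ‖x i‖ < 1} (u + p ^ t - rτ) : ℕ) : ℝ) := by
  classical
  obtain ⟨r, σ, hr, hσ, hrad⟩ := exists_radii hp hπ0 hπ1 hw hk hw2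
  set i0 := w + δ with hi0
  let lo : ℕ → ℝ := fun i => if i = i0 then σ else r (i - 1)
  let up : ℕ → ℝ := fun i => if i < k then r i else 1
  have hlo0 : ∀ i, 0 < lo i := fun i => by
    simp only [lo]; split_ifs; exacts [hσ, (hr _).1]
  have hup1 : ∀ i, up i ≤ 1 := fun i => by
    simp only [up]; split_ifs; exacts [(hr _).2.1.le, le_rfl]
  have hP : 0 < -Real.log π := neg_pos.2 (Real.log_neg hπ0 hπ1)
  -- no roots at good radii
  have hno : ∀ z : K, (τ * G * H).eval z = 0 → ∀ i, i0 ≤ i → i ≤ k →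
      ‖z‖ ≤ lo i ∨ up i ≤ ‖z‖ := by
    intro z hz i h1 h2
    by_contra hcon
    push Not at hcon
    have h3 := hT i _ ((hrad i h1 h2).2 ‖z‖ hcon.1 hcon.2)
    have h4 := (hlo0 i).trans hcon.1
    have h5 := h3.norm_eval h4 rfl
    rw [hz, norm_zero] at h5
    exact (h3.pos h4).ne h5
  have hxroot : ∀ i, (τ * G * H).eval (x i) = 0 := fun i => by
    have : G.eval (x i) = 0 := by
      rw [hG, eval_mul, eval_prod, prod_eq_zero (mem_univ i) (by simp), mul_zero]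
    simp [this]
  have hyroot : ∀ j, (τ * G * H).eval (y j) = 0 := fun j => by
    have : H.eval (y j) = 0 := by
      rw [hH, eval_mul, eval_prod, prod_eq_zero (mem_univ j) (by simp), mul_zero]
    simp [this]
  have hclass : ∀ z : K, (τ * G * H).eval z = 0 → ‖z‖ < 1 →
      ‖z‖ < up i0 ∨ ∃ t ∈ Ico i0 k, ‖z‖ = r t := by
    intro z hz hz1
    have hex : ∃ i, i0 ≤ i ∧ ‖z‖ < up i := ⟨k, hk, by simpa [up] using hz1⟩
    have h1 := Nat.find_spec hex
    have h2 : Nat.find hex ≤ k := Nat.find_min' hex ⟨hk, by simpa [up] using hz1⟩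
    rcases h1.1.eq_or_lt with h3 | h3
    · exact Or.inl (h3 ▸ h1.2)
    · right
      have h4 := Nat.find_min hex (m := Nat.find hex - 1) (by omega)
      have h5 : up (Nat.find hex - 1) ≤ ‖z‖ := not_lt.1 fun h => h4 ⟨by omega, h⟩
      refine ⟨Nat.find hex - 1, mem_Ico.2 ⟨by omega, by omega⟩, le_antisymm ?_ ?_⟩
      · rcases hno z hz _ h1.1 h2 with h | h
        · simpa only [lo, if_neg h3.ne'] using h
        · exact absurd h1.2 (not_lt.2 h)
      · simpa only [up, if_pos (show Nat.find hex - 1 < k by omega)] using h5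
  let ρ : ℕ → ℝ := fun i => (lo i + up i) / 2
  have hρ1 : ∀ i, i0 ≤ i → i ≤ k → lo i < ρ i ∧ ρ i < up i := fun i h1 h2 => by
    have : lo i < up i := (hrad i h1 h2).1
    constructor <;> simp only [ρ] <;> linarith
  let nG : ℕ → ℕ := fun i => #{a | ‖x a‖ < up i}
  let nH : ℕ → ℕ := fun i => #{a | ‖y a‖ < up i}
  let νG : ℕ → ℝ := fun i => ‖cG‖ * ∏ a with ¬ ‖x a‖ < up i, ‖x a‖
  let νH : ℕ → ℝ := fun i => ‖cH‖ * ∏ a with ¬ ‖y a‖ < up i, ‖y a‖
  have hρ0 : ∀ i, i0 ≤ i → i ≤ k → 0 < ρ i := fun i h1 h2 => (hlo0 i).trans (hρ1 i h1 h2).1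
  have hDG : ∀ i, i0 ≤ i → i ≤ k → Dom (ρ i) G (nG i) (νG i * ρ i ^ nG i) := fun i h1 h2 =>
    hG ▸ fam_dom x hcG (hρ0 i h1 h2) (hρ1 i h1 h2).1 (hρ1 i h1 h2).2
      fun a => hno _ (hxroot a) i h1 h2
  have hDH : ∀ i, i0 ≤ i → i ≤ k → Dom (ρ i) H (nH i) (νH i * ρ i ^ nH i) := fun i h1 h2 =>
    hH ▸ fam_dom y hcH (hρ0 i h1 h2) (hρ1 i h1 h2).1 (hρ1 i h1 h2).2
      fun a => hno _ (hyroot a) i h1 h2
  have hint : ∀ {Q : K[X]} {ρ' ν : ℝ} {n : ℕ}, 0 < ρ' →
      (∀ r, Q.coeff r ≠ 0 → ∃ j : ℕ, ‖Q.coeff r‖ = π ^ j) → Dom ρ' Q n (ν * ρ' ^ n) →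
      ∃ j : ℕ, ν = π ^ j := by
    intro Q ρ' ν n h0 hQ hD
    have h1 : ‖Q.coeff n‖ = ν := mul_right_cancel₀ (by positivity) hD.1
    have h2 : 0 < ν := (mul_pos_iff_of_pos_right (by positivity)).1 (hD.pos h0)
    rw [← h1]
    exact hQ n (norm_pos_iff.1 (h1 ▸ h2))
  have hcount : ∀ i, i0 ≤ i → i ≤ k →
      rτ + nG i + nH i = u + p ^ i ∧ νG i * νH i = π ^ (k - i) := by
    intro i h1 h2
    have hg := (hrad i h1 h2).2 _ (hρ1 i h1 h2).1 (hρ1 i h1 h2).2
    have h0 := hρ0 i h1 h2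
    have h3 := (((hτ _ hg.2.1 hg.2.2.1).mul h0 (hDG i h1 h2)).mul h0 (hDH i h1 h2)).unique
      (hT i _ hg)
    refine ⟨h3.1, ?_⟩
    have h4 := h3.2
    rw [← h3.1, pow_add, pow_add] at h4
    refine mul_left_cancel₀ (a := ρ i ^ rτ * ρ i ^ nG i * ρ i ^ nH i) (by positivity) ?_
    rw [← h4]; ring
  let mG : ℕ → ℕ := fun t => #{a | ‖x a‖ = r t}
  let mH : ℕ → ℕ := fun t => #{a | ‖y a‖ = r t}
  have hstep : ∀ {ι' : Type} [Fintype ι'] (z : ι' → K), (∀ a, (τ * G * H).eval (z a) = 0) →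
      ∀ t ∈ Ico i0 k, #{a | ‖z a‖ < up (t + 1)} = #{a | ‖z a‖ < up t} + #{a | ‖z a‖ = r t} ∧
        ∏ a with ¬ ‖z a‖ < up t, ‖z a‖ =
          (∏ a with ¬ ‖z a‖ < up (t + 1), ‖z a‖) * r t ^ #{a | ‖z a‖ = r t} := by
    intro ι' _ z hz t ht
    rw [mem_Ico] at ht
    have e1 : up t = r t := if_pos ht.2
    have e2 : lo (t + 1) = r t := by simp only [lo]; rw [if_neg (by omega), Nat.add_sub_cancel]
    have e3 : r t < up (t + 1) := e2 ▸ (hrad (t + 1) (by omega) (by omega)).1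
    have e4 : ∀ a, ‖z a‖ < up (t + 1) ↔ ‖z a‖ ≤ r t := fun a =>
      ⟨fun h => by
        rcases hno _ (hz a) (t + 1) (by omega) (by omega) with h1 | h1
        · exact e2 ▸ h1
        · exact absurd h (not_lt.2 h1), fun h => h.trans_lt e3⟩
    simp only [e1, e4]
    constructor
    · rw [← card_union_of_disjoint (disjoint_filter.2 fun a _ h => h.ne), ← filter_or]
      simp only [le_iff_lt_or_eq]
    · rw [← prod_const, ← prod_congr rfl (s₁ := filter (fun a => ‖z a‖ = r t) univ)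
        (f := fun a => ‖z a‖) (fun a ha => (mem_filter.1 ha).2),
        ← prod_union (disjoint_filter.2 fun a _ h h' => h h'.le), ← filter_or]
      refine prod_congr (filter_congr fun a _ => ?_) fun _ _ => rfl
      rw [not_lt, not_le, le_iff_lt_or_eq, eq_comm]
  have hlevel : ∀ t ∈ Ico i0 k, (mG t = 0 ∧ mH t = p ^ t * (p - 1)) ∨
      (mG t = p ^ t * (p - 1) ∧ mH t = 0) := by
    intro t ht
    obtain ⟨g1, g2⟩ := hstep x hxroot t ht
    obtain ⟨g3, g4⟩ := hstep y hyroot t ht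
    rw [mem_Ico] at ht
    have c1 := (hcount t ht.1 ht.2.le).1
    have c2 := (hcount (t + 1) (by omega) (by omega)).1
    have hsum : mG t + mH t = p ^ t * (p - 1) := by
      have : p ^ (t + 1) = p ^ t * (p - 1) + p ^ t := by
        rw [pow_succ, ← Nat.mul_succ, Nat.succ_eq_add_one, Nat.sub_add_cancel (by omega)]
      simp only [nG, nH, mG, mH] at *
      omega
    obtain ⟨j1, e1⟩ := hint (hρ0 t ht.1 ht.2.le) hGint (hDG t ht.1 ht.2.le)
    obtain ⟨j2, e2⟩ := hint (hρ0 (t + 1) (by omega) (by omega)) hGint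
      (hDG (t + 1) (by omega) (by omega))
    have hdvd : p ^ t * (p - 1) ∣ mG t := by
      refine pow_eq_pow_dvd hπ0 hπ1 (hr t).2.2 (a := j1) (b := j2) ?_
      rw [← e1, ← e2]
      simp only [νG]
      rw [g2, mul_assoc]
    rcases Nat.eq_zero_or_pos (mG t) with h | h
    · left; omega
    · have := Nat.le_of_dvd h hdvd
      right; omega
  have hL : ∀ t, 0 ≤ -Real.log (r t) := fun t =>
    (neg_pos.2 (Real.log_neg (hr t).1 (hr t).2.1)).le
  have hℓ : ∀ i j, ‖x i‖ < 1 → ‖y j‖ < 1 → 0 ≤ -Real.log ‖x i - y j‖ := fun i j h1 h2 =>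
    neg_nonneg.2 (Real.log_nonpos (norm_nonneg _) (norm_sub_lt_of h1 h2).le)
  have hpair : ∀ i j, (if ‖x i‖ < 1 ∧ ‖y j‖ < 1 then -Real.log ‖x i - y j‖ else 0) ≤
      (if ‖x i‖ < up i0 ∧ ‖y j‖ < up i0 then -Real.log ‖x i - y j‖ else 0) +
      ∑ t ∈ Ico i0 k, ((if ‖x i‖ = r t then 1 else 0) * (if ‖y j‖ < r t then 1 else 0) +
        (if ‖x i‖ < r t then 1 else 0) * (if ‖y j‖ = r t then 1 else 0)) * -Real.log (r t) := by
    intro i j
    have hnn : ∀ t ∈ Ico i0 k, 0 ≤ ((if ‖x i‖ = r t then 1 else 0) * (if ‖y j‖ < r t then 1 else 0) +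
        (if ‖x i‖ < r t then 1 else 0) * (if ‖y j‖ = r t then 1 else 0)) * -Real.log (r t) :=
      fun t _ => mul_nonneg (by positivity) (hL t)
    have hnn2 : 0 ≤ (if ‖x i‖ < up i0 ∧ ‖y j‖ < up i0 then -Real.log ‖x i - y j‖ else 0) := by
      split_ifs with h
      · exact hℓ i j (h.1.trans_le (hup1 _)) (h.2.trans_le (hup1 _))
      · exact le_rfl
    by_cases h1 : ‖x i‖ < 1 ∧ ‖y j‖ < 1
    swap
    · rw [if_neg h1]; exact add_nonneg hnn2 (sum_nonneg hnn)
    rw [if_pos h1]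
    by_cases h2 : ‖x i‖ < up i0 ∧ ‖y j‖ < up i0
    · rw [if_pos h2]; exact le_add_of_nonneg_right (sum_nonneg hnn)
    rw [if_neg h2, zero_add]
    rcases lt_trichotomy ‖x i‖ ‖y j‖ with h | h | h
    · rcases hclass _ (hyroot j) h1.2 with h3 | ⟨t, ht, h3⟩
      · exact absurd ⟨h.trans h3, h3⟩ h2
      · refine le_trans (le_of_eq ?_) (single_le_sum hnn ht)
        have h4 : ‖x i‖ < r t := h.trans_eq h3
        rw [norm_sub_eq_right h, h3, if_neg h4.ne, if_pos h4, if_pos rfl]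
        ring
    · exfalso
      rcases hclass _ (hyroot j) h1.2 with h3 | ⟨t, ht, h3⟩
      · exact h2 ⟨h ▸ h3, h3⟩
      · have e1 : mG t ≠ 0 := card_ne_zero.2 ⟨i, mem_filter.2 ⟨mem_univ _, h.trans h3⟩⟩
        have e2 : mH t ≠ 0 := card_ne_zero.2 ⟨j, mem_filter.2 ⟨mem_univ _, h3⟩⟩
        rcases hlevel t ht with h4 | h4
        · exact e1 h4.1
        · exact e2 h4.2
    · rcases hclass _ (hxroot i) h1.1 with h3 | ⟨t, ht, h3⟩
      · exact absurd ⟨h3, h.trans h3⟩ h2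
      · refine le_trans (le_of_eq ?_) (single_le_sum hnn ht)
        have h4 : ‖y j‖ < r t := h.trans_eq h3
        rw [norm_sub_eq_left h, h3, if_pos rfl, if_pos h4, if_neg (lt_irrefl _)]
        ring
  refine (sum_le_sum fun i _ => sum_le_sum fun j _ => hpair i j).trans ?_
  rw [sum_congr rfl fun i _ => sum_add_distrib, sum_add_distrib]
  push_cast
  rw [mul_add]
  have hG1 : ∀ i, nG i ≤ #{a | ‖x a‖ < 1} := fun i =>
    card_le_card (monotone_filter_right _ fun a _ h => h.trans_le (hup1 i))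
  refine add_le_add ?_ ?_
  · have c0 := hcount i0 le_rfl hk
    have h0 := hρ0 i0 le_rfl hk
    have h01 : ρ i0 < 1 := (hρ1 i0 le_rfl hk).2.trans_le (hup1 _)
    obtain ⟨j1, e1⟩ := hint h0 hGint (hDG i0 le_rfl hk)
    obtain ⟨j2, e2⟩ := hint h0 hHint (hDH i0 le_rfl hk)
    rcases hB with hB | hB
    · have hsmall : ∀ {Q : K[X]} {n j : ℕ}, (∀ r, Q.coeff r ≠ 0 → ∃ j : ℕ, ‖Q.coeff r‖ = π ^ j) →
          Dom (ρ i0) Q n (π ^ j * ρ i0 ^ n) → n ≠ 0 → ‖Q.coeff 0‖ ≤ π ^ (j + 1) := by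
        intro Q n j hQ hD hn
        by_cases h : Q.coeff 0 = 0
        · rw [h, norm_zero]; positivity
        obtain ⟨j', hj'⟩ := hQ 0 h
        have h1 := hD.2 0 hn.symm
        rw [pow_zero, mul_one, hj'] at h1
        have h2 : π ^ j' < π ^ j :=
          h1.trans_le (mul_le_of_le_one_right (by positivity) (pow_le_one₀ h0.le h01.le))
        rw [hj']
        exact pow_le_pow_of_le_one hπ0.le hπ1.le
          ((pow_lt_pow_iff_right_of_lt_one₀ hπ0 hπ1).1 h2)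
      have hzero : nG i0 = 0 ∨ nH i0 = 0 := by
        by_contra hcon
        push Not at hcon
        have h1 := hsmall hGint (e1 ▸ hDG i0 le_rfl hk) hcon.1
        have h2 := hsmall hHint (e2 ▸ hDH i0 le_rfl hk) hcon.2
        have h3 : ‖G.coeff 0 * H.coeff 0‖ ≤ π ^ (k - i0 + 1) * π := by
          rw [norm_mul]
          refine (mul_le_mul h1 h2 (norm_nonneg _) (by positivity)).trans (le_of_eq ?_)
          rw [pow_succ π (k - i0), ← c0.2, e1, e2]; ring
        have h4 : π ^ (k - i0 + 1) * π < π ^ (k - i0 + 1) :=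
          mul_lt_of_lt_one_right (by positivity) hπ1
        linarith
      refine le_trans (le_of_eq (sum_eq_zero fun i _ => sum_eq_zero fun j _ => if_neg ?_))
        (by positivity)
      rintro ⟨h1, h2⟩
      rcases hzero with h | h
      · exact card_ne_zero.2 ⟨i, mem_filter.2 ⟨mem_univ _, h1⟩⟩ h
      · exact card_ne_zero.2 ⟨j, mem_filter.2 ⟨mem_univ _, h2⟩⟩ h
    · have h1 : ∀ i, ∑ j, (if ‖x i‖ < up i0 ∧ ‖y j‖ < up i0 then -Real.log ‖x i - y j‖ else 0) ≤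
          if ‖x i‖ < up i0 then -Real.log π * w' else 0 := by
        intro i
        by_cases hi : ‖x i‖ < up i0
        swap
        · simp [hi]
        simp only [hi, true_and, if_true]
        have hn : nG i0 ≠ 0 := card_ne_zero.2 ⟨i, mem_filter.2 ⟨mem_univ _, hi⟩⟩
        have hxi : ‖x i‖ ≤ ρ i0 := by
          rcases hno _ (hxroot i) i0 le_rfl hk with h | h
          · exact h.trans (hρ1 i0 le_rfl hk).1.le
          · exact absurd hi (not_lt.2 h)
        have h2 : ‖G.derivative.eval (x i)‖ ≤ νG i0 := by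
          refine ((hDG i0 le_rfl hk).bd.norm_eval_derivative_le h0 hxi).trans ?_
          rw [div_le_iff₀ h0, e1]
          exact mul_le_mul_of_nonneg_left (pow_le_of_le_one h0.le h01.le hn) (by positivity)
        have h3 : ‖H.eval (x i)‖ = νH i0 * ∏ j with ‖y j‖ < up i0, ‖x i - y j‖ := by
          rw [hH, eval_mul, eval_C, eval_prod, norm_mul, norm_prod,
            ← prod_filter_mul_prod_filter_not univ (fun j => ‖y j‖ < up i0), mul_comm (∏ _ with _, _),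
            ← mul_assoc]
          simp only [eval_sub, eval_X, eval_C, νH]
          congr 2
          refine prod_congr rfl fun j hj => norm_sub_eq_right ?_
          exact hi.trans_le (not_lt.1 (mem_filter.1 hj).2)
        have h4 := hB i (hi.trans_le (hup1 _))
        have hpos : 0 < ∏ j with ‖y j‖ < up i0, ‖x i - y j‖ :=
          prod_pos fun j _ => norm_pos_iff.2 (sub_ne_zero.2 (hne i j))
        have h5 : π ^ w' ≤ ∏ j with ‖y j‖ < up i0, ‖x i - y j‖ := by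
          rw [norm_mul, h3, pow_add] at h4
          have h6 := h4.trans (mul_le_mul_of_nonneg_right h2 (by rw [e2]; positivity))
          rw [← mul_assoc, c0.2] at h6
          exact le_of_mul_le_mul_left h6 (by positivity)
        have h6 := Real.log_le_log (by positivity) h5
        rw [Real.log_pow, Real.log_prod fun j _ => (norm_pos_iff.2 (sub_ne_zero.2 (hne i j))).ne']
          at h6
        rw [← sum_filter, sum_neg_distrib]
        linarith
      refine (sum_le_sum fun i _ => h1 i).trans ?_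
      rw [← sum_filter, sum_const, nsmul_eq_mul, mul_comm, mul_assoc]
      refine mul_le_mul_of_nonneg_left (mul_le_mul_of_nonneg_left ?_ (by positivity)) hP.le
      have h7 : nG i0 ≤ min #{a | ‖x a‖ < 1} (u + p ^ i0 - rτ) := le_min (hG1 _) (by omega)
      exact_mod_cast h7
  · rw [sum_congr rfl fun i _ => sum_comm, sum_comm, mul_sum]
    refine sum_le_sum fun t ht => ?_
    have hlev := hlevel t ht
    rw [mem_Ico] at ht
    have e1 : up t = r t := if_pos ht.2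
    have c1 := (hcount t ht.1 ht.2.le).1
    have hsum : ∑ i, ∑ j, ((if ‖x i‖ = r t then 1 else 0) * (if ‖y j‖ < r t then 1 else 0) +
        (if ‖x i‖ < r t then 1 else 0) * (if ‖y j‖ = r t then (1 : ℝ) else 0)) * -Real.log (r t) =
        ((mG t * nH t + nG t * mH t : ℕ) : ℝ) * -Real.log (r t) := by
      simp only [← sum_mul, sum_add_distrib, ← mul_sum, sum_boole, mG, mH, nG, nH, e1]
      push_cast
      ring
    rw [hsum]
    have hS : -Real.log π = ((p ^ t * (p - 1) : ℕ) : ℝ) * -Real.log (r t) := by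
      rw [← (hr t).2.2, Real.log_pow]; ring
    rw [hS, mul_right_comm]
    refine mul_le_mul_of_nonneg_right ?_ (hL t)
    have h1 := hG1 t
    have h2 := hlow t (by omega)
    have h3 : mG t ≤ #{a | ‖x a‖ < 1} :=
      card_le_card (monotone_filter_right _ fun a _ h => h ▸ (hr t).2.1)
    have h4 : mG t * nH t + nG t * mH t ≤
        p ^ t * (p - 1) * min #{a | ‖x a‖ < 1} (u + p ^ t - rτ) := by
      rcases hlev with h | h
      · rw [h.1, h.2, zero_mul, zero_add, mul_comm]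
        exact Nat.mul_le_mul_left _ (le_min h1 (by omega))
      · rw [h.1, h.2, mul_zero, add_zero]
        exact Nat.mul_le_mul_left _ (le_min (by omega) (by omega))
    exact_mod_cast h4

end Pool.Agent.MP_9c0351_nt
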