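import Mathlib
import Pool.Agent.Mg.F9c0351p.G255f45
import Pool.Agent.Mg.F9c0351p.G6bf434

section

namespace Pool.Agent.MP_9c0351_nt

open Polynomial Finset

theorem exists_family {K : Type} [Field K] [IsAlgClosed K] (P : K[X]) :
    ∃ (ι : Type) (_ : Fintype ι) (α : ι → K), Fintype.card ι = P.natDegree ∧
      P = C P.leadingCoeff * ∏ i, (X - C (α i)) := by
  classical
  refine ⟨P.roots, inferInstance, fun i => i, ?_, ?_⟩
  · rw [Multiset.card_coe, (IsAlgClosed.splits P).natDegree_eq_card_roots]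
  · rw [Finset.prod_eq_multiset_prod, Multiset.map_univ P.roots (fun a => X - C a)]
    exact (IsAlgClosed.splits P).eq_prod_roots

theorem resultant_eq_family {K : Type} [Field K] [IsAlgClosed K] [CharZero K] (g h : ℤ[X])
    (hg0 : g ≠ 0) {ι : Type} [Fintype ι] (α : ι → K)
    (hg : g.map (Int.castRingHom K) = C (g.leadingCoeff : K) * ∏ i, (X - C (α i))) :
    ((resultant g h : ℤ) : K) = (g.leadingCoeff : K) ^ h.natDegree * ∏ i, aeval (α i) h := by
  have hinj : Function.Injective (Int.castRingHom K) := Int.cast_injective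
  have h1 := resultant_eq_prod_eval (g.map (Int.castRingHom K)) (h.map (Int.castRingHom K))
    h.natDegree natDegree_map_le (IsAlgClosed.splits _)
  rw [resultant_map_map, natDegree_map_eq_of_injective hinj, leadingCoeff_map_of_injective hinj]
    at h1
  have hA : (g.leadingCoeff : K) ≠ 0 := by exact_mod_cast leadingCoeff_ne_zero.2 hg0
  have h2 : (g.map (Int.castRingHom K)).roots = univ.val.map α := by
    rw [hg, roots_C_mul _ hA, Finset.prod_eq_multiset_prod,
      ← roots_multiset_prod_X_sub_C (univ.val.map α), Multiset.map_map]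
    rfl
  rw [h2, Multiset.map_map] at h1
  refine h1.trans ?_
  simp only [eq_intCast, Function.comp_def, eval_map, Finset.prod_eq_multiset_prod]
  rfl

theorem exists_int_family {K : Type} [Field K] [IsAlgClosed K] [CharZero K] (g : ℤ[X]) :
    ∃ (ι : Type) (_ : Fintype ι) (α : ι → K), Fintype.card ι = g.natDegree ∧
      g.map (Int.castRingHom K) = C (g.leadingCoeff : K) * ∏ i, (X - C (α i)) := by
  have hinj : Function.Injective (Int.castRingHom K) := Int.cast_injective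
  obtain ⟨ι, hι, α, h1, h2⟩ := exists_family (g.map (Int.castRingHom K))
  rw [natDegree_map_eq_of_injective hinj] at h1
  rw [leadingCoeff_map_of_injective hinj] at h2
  exact ⟨ι, hι, α, h1, h2⟩

theorem aeval_eq_family {K : Type} [Field K] {g : ℤ[X]} {c : K} {ι : Type} [Fintype ι] {α : ι → K}
    (hg : g.map (Int.castRingHom K) = C c * ∏ i, (X - C (α i))) (z : K) :
    aeval z g = c * ∏ i, (z - α i) := by
  have h := congrArg (eval z) hg
  rw [eval_map] at h
  simp only [eval_mul, eval_C, eval_prod, eval_sub, eval_X] at h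
  exact h

theorem aeval_family_root {K : Type} [Field K] {g : ℤ[X]} {c : K} {ι : Type} [Fintype ι]
    {α : ι → K} (hg : g.map (Int.castRingHom K) = C c * ∏ i, (X - C (α i))) (i : ι) :
    aeval (α i) g = 0 := by
  rw [aeval_eq_family hg, prod_eq_zero (mem_univ i) (sub_self _), mul_zero]

variable {K : Type} [NormedField K] [IsUltrametricDist K] {p : ℕ}

theorem bd_map_int (g : ℤ[X]) : Bd 1 (g.map (Int.castRingHom K)) 1 := by
  intro j
  rw [coeff_map, one_pow, mul_one]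
  exact IsUltrametricDist.norm_intCast_le_one K _

theorem dvd_coeff_zero_of_small_root (hp : p.Prime) (hπ : ‖(p : K)‖ < 1) {g : ℤ[X]} {α : K}
    (h0 : aeval α g = 0) (hα : ‖α‖ < 1) : (p : ℤ) ∣ g.coeff 0 := by
  by_contra hcon
  have h1 := norm_intCast_eq_one hp hπ hcon
  have h2 := congrArg (aeval α) (X_mul_divX_add g)
  rw [h0, map_add, map_mul, aeval_X, aeval_C] at h2
  have h3 : ‖α * aeval α g.divX‖ < ‖(g.coeff 0 : K)‖ := by
    rw [h1, norm_mul]
    exact mul_lt_one_of_nonneg_of_lt_one_left (norm_nonneg _) hα (norm_aeval_le_one hα.le _)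
  have h4 := norm_add_eq_left h3
  rw [add_comm, h1] at h4
  have h5 : α * aeval α g.divX + (g.coeff 0 : K) = 0 := by simpa using h2
  rw [h5, norm_zero] at h4
  exact zero_ne_one h4

theorem dvd_leadingCoeff_of_big_root (hp : p.Prime) (hπ : ‖(p : K)‖ < 1) {g : ℤ[X]} {α : K}
    (h0 : aeval α g = 0) (hα : 1 < ‖α‖) : (p : ℤ) ∣ g.leadingCoeff := by
  by_contra hcon
  have h1 := norm_intCast_eq_one hp hπ hcon
  rw [aeval_eq_sum_range, sum_range_succ, add_comm] at h0
  have h2 : ‖g.coeff g.natDegree • α ^ g.natDegree‖ = ‖α‖ ^ g.natDegree := by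
    rw [zsmul_eq_mul, norm_mul, coeff_natDegree, h1, one_mul, norm_pow]
  have h3 : ‖∑ i ∈ range g.natDegree, g.coeff i • α ^ i‖ <
      ‖g.coeff g.natDegree • α ^ g.natDegree‖ := by
    rw [h2]
    refine norm_sum_lt _ _ (by positivity) fun i hi => ?_
    rw [zsmul_eq_mul, norm_mul, norm_pow]
    exact (mul_le_of_le_one_left (by positivity)
      (IsUltrametricDist.norm_intCast_le_one K _)).trans_lt
      (pow_lt_pow_right₀ hα (mem_range.1 hi))
  have h4 := norm_add_eq_left h3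
  rw [h0, h2, norm_zero] at h4
  have : 0 < ‖α‖ ^ g.natDegree := by positivity
  linarith

theorem gauss_family (hp : p.Prime) (hπ : ‖(p : K)‖ < 1) {g : ℤ[X]} {c : K} {ι : Type} [Fintype ι]
    {α : ι → K} (hg : g.map (Int.castRingHom K) = C c * ∏ i, (X - C (α i)))
    (hprim : ∃ j, ¬ (p : ℤ) ∣ g.coeff j) : 1 ≤ ‖c‖ * ∏ i, max 1 ‖α i‖ := by
  obtain ⟨j, hj⟩ := hprim
  have h1 := (bd_C (ρ := 1) c).mul one_pos (bd_prod one_pos univ α) j
  rw [← hg, coeff_map, one_pow, mul_one] at h1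
  exact (norm_intCast_eq_one hp hπ hj).symm.le.trans h1

theorem exists_cluster [IsAlgClosed K] (hp : p.Prime) (hπ : ‖(p : K)‖ < 1) {k m : ℕ} (hm : m ≠ 0)
    {α : K} (hα : ‖α‖ ≤ 1) (h : ‖α ^ (p ^ k * m) - 1‖ < 1) :
    ∃ ζ : K, ζ ^ m = 1 ∧ ‖α - ζ‖ < 1 := by
  have h1 : ‖α ^ m - 1‖ < 1 := by
    refine norm_sub_one_lt_of_pow hp hπ k
      (by rw [norm_pow]; exact pow_le_one₀ (norm_nonneg _) hα) ?_
    rwa [← pow_mul, mul_comm]
  obtain ⟨ι, _, ζ, -, h2⟩ := exists_family (X ^ m - C 1 : K[X])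
  rw [(monic_X_pow_sub_C (1 : K) hm).leadingCoeff, C_1, one_mul] at h2
  have h3 : ∀ z : K, z ^ m - 1 = ∏ i, (z - ζ i) := fun z => by
    simpa [eval_prod] using congrArg (eval z) h2
  by_contra hcon
  push Not at hcon
  have h4 : 1 ≤ ∏ i, ‖α - ζ i‖ := by
    refine Finset.one_le_prod fun i _ => hcon _ ?_
    have := h3 (ζ i)
    rw [prod_eq_zero (mem_univ i) (sub_self _)] at this
    exact sub_eq_zero.1 this
  rw [← norm_prod, ← h3] at h4
  linarith

/-- The substitution `X ↦ ζ (X + 1)` on integer polynomials. -/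
noncomputable def shift (ζ : K) : ℤ[X] →+* K[X] :=
  (compRingHom (C ζ * (X + 1))).comp (mapRingHom (Int.castRingHom K))

omit [IsUltrametricDist K] in
theorem shift_apply (ζ : K) (g : ℤ[X]) :
    shift ζ g = (g.map (Int.castRingHom K)).comp (C ζ * (X + 1)) := rfl

omit [IsUltrametricDist K] in
theorem shift_X (ζ : K) : shift ζ X = C ζ * (X + 1) := by simp [shift_apply]

omit [IsUltrametricDist K] in
theorem shift_C (ζ : K) (c : ℤ) : shift ζ (C c) = C (c : K) := by simp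

omit [IsUltrametricDist K] in
theorem eval_shift (ζ z : K) (g : ℤ[X]) : (shift ζ g).eval z = aeval (ζ * (z + 1)) g := by
  rw [shift_apply, eval_comp, eval_map]
  simp only [eval_mul, eval_C, eval_add, eval_X, eval_one]
  rfl

omit [IsUltrametricDist K] in
theorem eval_derivative_shift (ζ z : K) (g : ℤ[X]) :
    (shift ζ g).derivative.eval z = ζ * aeval (ζ * (z + 1)) g.derivative := by
  rw [shift_apply, derivative_comp, derivative_map, eval_mul, ← shift_apply, eval_shift]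
  simp

omit [IsUltrametricDist K] in
theorem coeff_shift_mem (ζ : K) (g : ℤ[X]) (r : ℕ) :
    (shift ζ g).coeff r ∈ Subring.closure {ζ} := by
  let O := Subring.closure {ζ}
  let ζ' : O := ⟨ζ, Subring.subset_closure rfl⟩
  have h : shift ζ g = ((g.map (Int.castRingHom O)).comp (C ζ' * (X + 1))).map O.subtype := by
    rw [shift_apply, map_comp, Polynomial.map_map, RingHom.ext_int (O.subtype.comp _)
      (Int.castRingHom K)]
    simp [ζ']
  rw [h, coeff_map]
  exact Subtype.property _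

omit [IsUltrametricDist K] in
theorem shift_family {ζ : K} (hζ : ζ ≠ 0) {g : ℤ[X]} {c : K} {ι : Type} [Fintype ι] {α : ι → K}
    (hg : g.map (Int.castRingHom K) = C c * ∏ i, (X - C (α i))) :
    shift ζ g = C (c * ζ ^ Fintype.card ι) * ∏ i, (X - C (α i / ζ - 1)) := by
  rw [shift_apply, hg, mul_comp, C_comp, Polynomial.prod_comp, C_mul, mul_assoc, C_pow, ← card_univ,
    ← prod_const, ← prod_mul_distrib]
  congr 1
  refine prod_congr rfl fun i _ => ?_
  have : C (α i) = C ζ * C (α i / ζ) := by rw [← C_mul, mul_div_cancel₀ _ hζ]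
  rw [sub_comp, X_comp, C_comp, C_sub, C_1, this]
  ring

theorem bd_shift {ζ : K} (hζ : ‖ζ‖ = 1) {ρ : ℝ} (hρ : 0 < ρ) (hρ1 : ρ ≤ 1) (W : ℤ[X]) :
    Bd ρ (shift ζ W) 1 := by
  have h1 : Bd ρ (C ζ * (X + 1) : K[X]) 1 := by
    have := (bd_C (ρ := ρ) ζ).mul hρ (((dom_X hρ).bd.mono hρ1).add hρ dom_one.bd)
    rwa [hζ, one_mul] at this
  have h2 := bd_aeval hρ h1 W
  rw [shift_apply, comp_eq_aeval]
  convert h2 using 1
  exact aeval_map_algebraMap K _ W

theorem dom_lin (hp : p.Prime) (hπ : ‖(p : K)‖ < 1) {m : ℕ} (hm : ¬ p ∣ m) {ζ : K}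
    (hζ : ζ ^ m = 1) {c : K} (hc : c ∈ Subring.closure {ζ}) {ρ : ℝ} (h1 : ‖(p : K)‖ < ρ)
    (h2 : ρ < 1) :
    Dom ρ (C ζ * X + C c) (if ‖c‖ < 1 then 1 else 0) (ρ ^ (if ‖c‖ < 1 then 1 else 0)) := by
  have hm0 : m ≠ 0 := by rintro rfl; exact hm (dvd_zero p)
  have hζ1 := norm_eq_one_of_pow_eq_one hm0 hζ
  have hζ0 : ζ ≠ 0 := by rintro rfl; simp at hζ1
  have hρ : 0 < ρ := (norm_nonneg _).trans_lt h1
  have h3 := (dom_C hζ0).mul hρ (dom_X hρ)
  rw [hζ1, one_mul] at h3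
  split_ifs with h
  · rw [pow_one]
    exact h3.add_bd hρ (bd_C c) ((norm_le_of_lt_one hp hπ hm hζ hc h).trans_lt h1)
  · have h4 : ‖c‖ = 1 := le_antisymm (norm_le_one_of_mem_closure hζ1.le hc) (not_lt.1 h)
    have h5 : c ≠ 0 := by rintro rfl; simp at h4
    rw [pow_zero, add_comm, ← h4]
    exact (dom_C h5).add_bd hρ h3.bd (h4 ▸ h2)

theorem local_bound [IsAlgClosed K] [CharZero K] (hp : p.Prime) (hπ : ‖(p : K)‖ < 1)
    {g h W : ℤ[X]} (hg0 : g ≠ 0) (hh0 : h ≠ 0)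
    (H1 : ∃ j, ¬ (p : ℤ) ∣ g.coeff j) (H1' : ∃ j, ¬ (p : ℤ) ∣ h.coeff j)
    (H2 : ¬ ((p : ℤ) ∣ g.leadingCoeff ∧ (p : ℤ) ∣ h.leadingCoeff))
    (H3 : ¬ ((p : ℤ) ∣ g.coeff 0 ∧ (p : ℤ) ∣ h.coeff 0))
    {c0 u0 N' : ℤ} {ε s η k m δ w w' : ℕ} (hm : ¬ p ∣ m) (hc0 : ¬ (p : ℤ) ∣ c0)
    (hu0 : ¬ (p : ℤ) ∣ u0) (hη : η ≤ 1) (hN' : (p : ℤ) ^ (k - δ) ∣ N')
    (hw : 1 ≤ w) (hk : w + δ ≤ k) (hw2 : w + δ < k → 2 ≤ w * (p - 1))
    (H4 : C c0 * ((X - 1) ^ 3 * (X + 1) ^ ε * g * h) =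
      C u0 * X ^ s * (X + 1) ^ η * (X ^ (p ^ k * m) - 1) + C N' * W)
    (H5 : ∀ α : K, ‖α‖ = 1 → aeval α g = 0 → ‖α ^ (p ^ k * m) - 1‖ < 1)
    (H6 : ∀ α : K, aeval α g = 0 → aeval α h ≠ 0)
    (H7 : (∀ ζ : K, ζ ^ m = 1 → ‖(p : K)‖ ^ (k - (w + δ) + 1) ≤ ‖aeval ζ g * aeval ζ h‖) ∨
      ∀ α : K, ‖α‖ = 1 → aeval α g = 0 →
        ‖(p : K)‖ ^ (k - (w + δ) + w') ≤ ‖aeval α g.derivative * aeval α h‖) :
    ‖(p : K)‖ ^ (w' * min g.natDegree (m * p ^ (w + δ)) +
      ∑ t ∈ Ico (w + δ) k, min g.natDegree (m * p ^ t)) ≤ ‖((resultant g h : ℤ) : K)‖ := by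
  classical
  set π := ‖(p : K)‖ with hπdef
  have hπ0 : 0 < π := norm_pos_iff.2 (by exact_mod_cast hp.ne_zero)
  have hm0 : m ≠ 0 := by rintro rfl; exact hm (dvd_zero p)
  obtain ⟨ι, _, α, hι, hα⟩ := exists_int_family (K := K) g
  obtain ⟨κ, _, β, hκ, hβ⟩ := exists_int_family (K := K) h
  have hA : (g.leadingCoeff : K) ≠ 0 := by exact_mod_cast leadingCoeff_ne_zero.2 hg0
  have hB : (h.leadingCoeff : K) ≠ 0 := by exact_mod_cast leadingCoeff_ne_zero.2 hh0
  have hne : ∀ i j, α i ≠ β j := fun i j hij =>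
    H6 _ (aeval_family_root hα i) (hij ▸ aeval_family_root hβ j)
  have hne' : ∀ i j, ‖α i - β j‖ ≠ 0 := fun i j => norm_ne_zero_iff.2 (sub_ne_zero.2 (hne i j))
  let μ := nthRootsFinset m (1 : K)
  have hμ : ∀ ζ, ζ ∈ μ ↔ ζ ^ m = 1 := fun ζ => mem_nthRootsFinset (Nat.pos_of_ne_zero hm0) 1
  have hμcard : #μ ≤ m := (Multiset.toFinset_card_le _).trans (card_nthRoots m 1)
  have hζ1 : ∀ ζ ∈ μ, ‖ζ‖ = 1 := fun ζ hζ => norm_eq_one_of_pow_eq_one hm0 ((hμ ζ).1 hζ)
  have hζ0 : ∀ ζ ∈ μ, ζ ≠ 0 := fun ζ hζ h0 => by simpa [h0] using hζ1 ζ hζ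
  have hsh : ∀ ζ ∈ μ, ∀ z : K, ‖z / ζ - 1‖ = ‖z - ζ‖ := fun ζ hζ z => by
    rw [div_sub_one (hζ0 ζ hζ), norm_div, hζ1 ζ hζ, div_one]
  have hsh2 : ∀ ζ ∈ μ, ∀ z z' : K, ‖z / ζ - 1 - (z' / ζ - 1)‖ = ‖z - z'‖ := fun ζ hζ z z' => by
    rw [sub_sub_sub_cancel_right, ← sub_div, norm_div, hζ1 ζ hζ, div_one]
  let u : K → ℕ := fun ζ => η * if ‖ζ + 1‖ < 1 then 1 else 0
  let rτ : K → ℕ := fun ζ => 3 * (if ‖ζ - 1‖ < 1 then 1 else 0) + ε * if ‖ζ + 1‖ < 1 then 1 else 0
  have hu1 : ∀ ζ, u ζ ≤ if ‖ζ + 1‖ < 1 then 1 else 0 := fun ζ => by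
    simp only [u]; split_ifs <;> omega
  have hcl : ∀ ζ ∈ μ, ∑ i, ∑ j, (if ‖α i / ζ - 1‖ < 1 ∧ ‖β j / ζ - 1‖ < 1 then
      -Real.log ‖α i / ζ - 1 - (β j / ζ - 1)‖ else 0) ≤
      -Real.log π * ((w' * min #{i | ‖α i / ζ - 1‖ < 1} (u ζ + p ^ (w + δ) - rτ ζ) +
        ∑ t ∈ Ico (w + δ) k, min #{i | ‖α i / ζ - 1‖ < 1} (u ζ + p ^ t - rτ ζ) : ℕ) : ℝ) := by
    intro ζ hζ
    have hζm := (hμ ζ).1 hζ
    have hζO : ζ ∈ Subring.closure {ζ} := Subring.subset_closure rfl
    have e1 : shift ζ (X - 1) = C ζ * X + C (ζ - 1) := by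
      rw [map_sub, shift_X, map_one, C_sub, C_1]; ring
    have e2 : shift ζ (X + 1) = C ζ * X + C (ζ + 1) := by
      rw [map_add, shift_X, map_one, C_add, C_1]; ring
    have e3 : shift ζ X = C ζ * X + C ζ := by rw [shift_X]; ring
    refine cluster_bound hp.two_le hπ0 hπ hw hk hw2 (fun i => α i / ζ - 1) (fun j => β j / ζ - 1)
      (fun i j hij => hne' i j ?_) (mul_ne_zero hA (pow_ne_zero _ (hζ0 ζ hζ)))
      (mul_ne_zero hB (pow_ne_zero _ (hζ0 ζ hζ))) (shift ζ g) (shift ζ h)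
      (shift ζ ((X - 1) ^ 3 * (X + 1) ^ ε)) (shift_family (hζ0 ζ hζ) hα)
      (shift_family (hζ0 ζ hζ) hβ)
      (fun r hr => exists_norm_eq_pow hp hπ hm hζm (coeff_shift_mem ζ g r) hr)
      (fun r hr => exists_norm_eq_pow hp hπ hm hζm (coeff_shift_mem ζ h r) hr)
      (fun ρ h1 h2 => ?_) (fun i ρ hgood => ?_) (fun t ht => ?_) ?_
    · rw [← hsh2 ζ hζ, sub_eq_zero.2 hij, norm_zero]
    · have hρ : 0 < ρ := hπ0.trans h1
      have h3 := ((dom_lin hp hπ hm hζm (Subring.sub_mem _ hζO (Subring.one_mem _)) h1 h2).pow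
        hρ 3).mul hρ ((dom_lin hp hπ hm hζm (Subring.add_mem _ hζO (Subring.one_mem _)) h1 h2).pow
        hρ ε)
      rw [map_mul, map_pow, map_pow, e1, e2]
      convert h3 using 1
      simp only [rτ]
      ring
    · obtain ⟨g1, g2, g3, g4, g5, g6⟩ := hgood
      have hρ : 0 < ρ := hπ0.trans g2
      have h1 := congrArg (shift ζ) H4
      simp only [map_mul, map_add (shift ζ) (_ * _), shift_C, map_pow,
        map_sub (shift ζ) (X ^ _)] at h1
      have e6 : shift ζ X ^ (p ^ k * m) = (X + 1) ^ (p ^ k * m) := by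
        rw [shift_X, mul_pow, ← C_pow, mul_comm (p ^ k) m, pow_mul ζ, hζm, one_pow, C_1, one_mul]
      rw [map_one, e2, e6, e3] at h1
      have hu : (u0 : K) ≠ 0 := fun h0 => by
        have := norm_intCast_eq_one hp hπ hu0
        simp [h0] at this
      have hc : (c0 : K) ≠ 0 := fun h0 => by
        have := norm_intCast_eq_one hp hπ hc0
        simp [h0] at this
      have h2 := dom_lin hp hπ hm hζm hζO g2 g3
      rw [hζ1 ζ hζ, if_neg (lt_irrefl _)] at h2
      have h3 := (((dom_C hu).mul hρ (h2.pow hρ s)).mul hρ ((dom_lin hp hπ hm hζm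
        (Subring.add_mem _ hζO (Subring.one_mem _)) g2 g3).pow hρ η)).mul hρ
        (dom_pow_sub_one hp hρ g3 hπ hm g1 g4 g5)
      have h4 := (bd_C (ρ := ρ) (N' : K)).mul hρ (bd_shift (hζ1 ζ hζ) hρ g3.le W)
      have h5 : ‖(u0 : K)‖ * (ρ ^ 0) ^ s * (ρ ^ if ‖ζ + 1‖ < 1 then 1 else 0) ^ η *
          (ρ ^ p ^ i * π ^ (k - i)) = ρ ^ (u ζ + p ^ i) * π ^ (k - i) := by
        rw [norm_intCast_eq_one hp hπ hu0]
        simp only [u]
        ring
      rw [h5] at h3
      have h6 : ‖(N' : K)‖ * 1 < ρ ^ (u ζ + p ^ i) * π ^ (k - i) := by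
        rw [mul_one]
        refine (norm_intCast_le_of_dvd hN').trans_lt ?_
        have h7 : ρ ^ (p ^ i + 1) ≤ ρ ^ (u ζ + p ^ i) := by
          refine pow_le_pow_of_le_one hρ.le g3.le ?_
          have := hu1 ζ
          split_ifs at this <;> omega
        refine lt_of_mul_lt_mul_right (a := π ^ δ * π ^ i) ?_ (by positivity)
        have e4 : π ^ (k - δ) * π ^ δ = π ^ k := by rw [← pow_add, Nat.sub_add_cancel (by omega)]
        have e5 : π ^ (k - i) * π ^ i = π ^ k := by rw [← pow_add, Nat.sub_add_cancel g1]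
        calc π ^ (k - δ) * (π ^ δ * π ^ i) = π ^ i * π ^ k := by rw [← e4]; ring
          _ < ρ ^ (p ^ i + 1) * π ^ δ * π ^ k := mul_lt_mul_of_pos_right g6 (by positivity)
          _ ≤ ρ ^ (u ζ + p ^ i) * π ^ δ * π ^ k := by gcongr
          _ = _ := by rw [← e5]; ring
      have h8 := (dom_C (inv_ne_zero hc)).mul hρ (h3.add_bd hρ h4 h6)
      rw [← h1, ← mul_assoc, ← C_mul, inv_mul_cancel₀ hc, C_1, one_mul, norm_inv,
        norm_intCast_eq_one hp hπ hc0, inv_one, one_mul] at h8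
      rw [map_mul, map_pow, map_pow, e2]
      convert h8 using 1
      simp only [u]
      ring
    · have h1 := hu1 ζ
      have h2 : 1 ≤ p ^ t := Nat.one_le_pow _ _ hp.pos
      rcases hp.eq_two_or_odd' with h3 | h3
      · subst h3
        split_ifs at h1 with h4
        · have h5 : ‖ζ - 1‖ < 1 := by
            have : ζ - 1 = ζ + 1 - ((2 : ℕ) : K) := by push_cast; ring
            rw [this]
            exact norm_sub_lt_of h4 hπ
          simp only [rτ, h5, if_true]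
          omega
        · omega
      · have h4 : 3 ≤ p := by
          have := hp.two_le
          obtain ⟨c, rfl⟩ := h3
          omega
        have h5 : p ^ t * 2 ≤ p ^ t * (p - 1) := Nat.mul_le_mul_left _ (by omega)
        split_ifs at h1 <;> omega
    · rcases H7 with H7 | H7
      · left
        rw [coeff_zero_eq_eval_zero, coeff_zero_eq_eval_zero, eval_shift, eval_shift, zero_add,
          mul_one]
        exact H7 ζ hζm
      · right
        intro i hi
        have h1 : ζ * (α i / ζ - 1 + 1) = α i := by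
          rw [sub_add_cancel, mul_div_cancel₀ _ (hζ0 ζ hζ)]
        rw [eval_derivative_shift, eval_shift, h1, mul_assoc, norm_mul, hζ1 ζ hζ, one_mul]
        refine H7 _ ?_ (aeval_family_root hα i)
        rw [hsh ζ hζ, ← hζ1 ζ hζ] at hi
        rw [← hζ1 ζ hζ, ← norm_add_eq_left hi, add_sub_cancel]
  have hD : ∀ i j, -Real.log ‖α i - β j‖ + Real.log (max 1 ‖α i‖) + Real.log (max 1 ‖β j‖) ≤
      ∑ ζ ∈ μ, (if ‖α i / ζ - 1‖ < 1 ∧ ‖β j / ζ - 1‖ < 1 then
        -Real.log ‖α i / ζ - 1 - (β j / ζ - 1)‖ else 0) := by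
    intro i j
    have hnn : ∀ ζ ∈ μ, 0 ≤ (if ‖α i / ζ - 1‖ < 1 ∧ ‖β j / ζ - 1‖ < 1 then
        -Real.log ‖α i / ζ - 1 - (β j / ζ - 1)‖ else 0) := fun ζ _ => by
      split_ifs with h
      · exact neg_nonneg.2 (Real.log_nonpos (norm_nonneg _) (norm_sub_lt_of h.1 h.2).le)
      · exact le_rfl
    have ha := aeval_family_root hα i
    have hb := aeval_family_root hβ j
    by_cases h1 : 1 < ‖α i‖
    · have h2 : ‖β j‖ ≤ 1 := not_lt.1 fun h2 => H2
        ⟨dvd_leadingCoeff_of_big_root hp hπ ha h1, dvd_leadingCoeff_of_big_root hp hπ hb h2⟩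
      rw [norm_sub_eq_left (h2.trans_lt h1), max_eq_right h1.le, max_eq_left h2, Real.log_one]
      simpa using sum_nonneg hnn
    by_cases h2 : 1 < ‖β j‖
    · rw [norm_sub_eq_right ((not_lt.1 h1).trans_lt h2), max_eq_right h2.le,
        max_eq_left (not_lt.1 h1), Real.log_one]
      simpa using sum_nonneg hnn
    rw [max_eq_left (not_lt.1 h1), max_eq_left (not_lt.1 h2), Real.log_one, add_zero, add_zero]
    rcases (norm_sub_le_of (not_lt.1 h1) (not_lt.1 h2)).eq_or_lt with h3 | h3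
    · rw [h3, Real.log_one, neg_zero]
      exact sum_nonneg hnn
    have h4 : ‖α i‖ = 1 := by
      refine le_antisymm (not_lt.1 h1) (not_lt.1 fun h4 => H3
        ⟨dvd_coeff_zero_of_small_root hp hπ ha h4, dvd_coeff_zero_of_small_root hp hπ hb ?_⟩)
      have := norm_sub_lt_of h4 h3
      rwa [sub_sub_cancel] at this
    obtain ⟨ζ, hζ, h5⟩ := exists_cluster hp hπ hm0 h4.le (H5 _ h4 ha)
    have hζ' := (hμ ζ).2 hζ
    refine le_trans (le_of_eq ?_) (single_le_sum hnn hζ')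
    have h6 : ‖β j - ζ‖ < 1 := by
      have := norm_sub_lt_of h5 h3
      rwa [sub_sub_sub_cancel_left] at this
    rw [hsh ζ hζ', hsh ζ hζ', if_pos ⟨h5, h6⟩, hsh2 ζ hζ']
  have hcard : ∑ ζ ∈ μ, #{i | ‖α i / ζ - 1‖ < 1} ≤ g.natDegree := by
    rw [← card_biUnion, ← hι]
    · exact card_le_univ _
    · intro ζ hζ ζ' hζ' hzz
      refine disjoint_filter.2 fun i _ h1 h2 => hzz ?_
      rw [hsh ζ hζ] at h1
      rw [hsh ζ' hζ'] at h2
      refine eq_of_pow_eq_one hp hπ hm ((hμ ζ).1 hζ) ((hμ ζ').1 hζ') ?_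
      have := norm_sub_lt_of h2 h1
      rwa [sub_sub_sub_cancel_left] at this
  have hlow : ∀ t, ∑ ζ ∈ μ, (u ζ + p ^ t - rτ ζ) ≤ m * p ^ t := by
    intro t
    have h1 : ∑ ζ ∈ μ, (u ζ + p ^ t - rτ ζ) < ∑ ζ ∈ μ, (u ζ + p ^ t) := by
      refine sum_lt_sum (fun _ _ => Nat.sub_le _ _) ⟨1, (hμ 1).2 (one_pow m), ?_⟩
      have h2 : 1 ≤ p ^ t := Nat.one_le_pow _ _ hp.pos
      have h3 : 3 ≤ rτ 1 := by simp [rτ]
      omega
    have h2 : ∑ ζ ∈ μ, u ζ ≤ 1 := by
      refine (sum_le_sum fun ζ _ => hu1 ζ).trans ?_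
      rw [← card_filter]
      refine card_le_one.2 fun ζ hζ ζ' hζ' => ?_
      rw [mem_filter] at hζ hζ'
      refine eq_of_pow_eq_one hp hπ hm ((hμ ζ).1 hζ.1) ((hμ ζ').1 hζ'.1) ?_
      have := norm_sub_lt_of hζ.2 hζ'.2
      rwa [add_sub_add_right_eq_sub] at this
    rw [sum_add_distrib, sum_const, smul_eq_mul] at h1
    have h3 : #μ * p ^ t ≤ m * p ^ t := Nat.mul_le_mul_right _ hμcard
    omega
  have hmin : ∀ t, ∑ ζ ∈ μ, min #{i | ‖α i / ζ - 1‖ < 1} (u ζ + p ^ t - rτ ζ) ≤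
      min g.natDegree (m * p ^ t) := fun t =>
    le_min ((sum_le_sum fun _ _ => min_le_left _ _).trans hcard)
      ((sum_le_sum fun _ _ => min_le_right _ _).trans (hlow t))
  have hP : 0 < -Real.log π := neg_pos.2 (Real.log_neg hπ0 hπ)
  have htot : ∑ i, ∑ j, (-Real.log ‖α i - β j‖ + Real.log (max 1 ‖α i‖) +
      Real.log (max 1 ‖β j‖)) ≤ -Real.log π * ((w' * min g.natDegree (m * p ^ (w + δ)) +
      ∑ t ∈ Ico (w + δ) k, min g.natDegree (m * p ^ t) : ℕ) : ℝ) := by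
    refine (sum_le_sum fun i _ => sum_le_sum fun j _ => hD i j).trans ?_
    rw [sum_congr rfl fun i _ => sum_comm, sum_comm]
    refine (sum_le_sum hcl).trans ?_
    rw [← mul_sum, ← Nat.cast_sum]
    refine mul_le_mul_of_nonneg_left (Nat.cast_le.2 ?_) hP.le
    rw [sum_add_distrib, ← mul_sum, sum_comm]
    exact add_le_add (Nat.mul_le_mul_left _ (hmin _)) (sum_le_sum fun t _ => hmin t)
  have hGa := Real.log_nonneg (gauss_family hp hπ hα H1)
  have hGb := Real.log_nonneg (gauss_family hp hπ hβ H1')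
  have hmax : ∀ z : K, max 1 ‖z‖ ≠ 0 := fun z => (lt_max_of_lt_left one_pos).ne'
  rw [Real.log_mul (norm_ne_zero_iff.2 hA) (prod_ne_zero_iff.2 fun i _ => hmax _),
    Real.log_prod fun i _ => hmax _] at hGa
  rw [Real.log_mul (norm_ne_zero_iff.2 hB) (prod_ne_zero_iff.2 fun i _ => hmax _),
    Real.log_prod fun i _ => hmax _] at hGb
  have hR : ‖((resultant g h : ℤ) : K)‖ = ‖(g.leadingCoeff : K)‖ ^ h.natDegree *
      ∏ i, (‖(h.leadingCoeff : K)‖ * ∏ j, ‖α i - β j‖) := by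
    rw [resultant_eq_family g h hg0 α hα, norm_mul, norm_pow, norm_prod]
    simp only [aeval_eq_family hβ, norm_mul, norm_prod]
  have hpos : ∀ i, 0 < ‖(h.leadingCoeff : K)‖ * ∏ j, ‖α i - β j‖ := fun i =>
    mul_pos (norm_pos_iff.2 hB) (prod_pos fun j _ => (norm_nonneg _).lt_of_ne' (hne' i j))
  have hRpos : 0 < ‖((resultant g h : ℤ) : K)‖ := by
    rw [hR]
    exact mul_pos (pow_pos (norm_pos_iff.2 hA) _) (prod_pos fun i _ => hpos i)
  refine (Real.log_le_log_iff (by positivity) hRpos).1 ?_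
  rw [hR, Real.log_mul (pow_ne_zero _ (norm_ne_zero_iff.2 hA))
    (prod_ne_zero_iff.2 fun i _ => (hpos i).ne'), Real.log_prod fun i _ => (hpos i).ne',
    Real.log_pow, Real.log_pow]
  have hlog : ∀ i, Real.log (‖(h.leadingCoeff : K)‖ * ∏ j, ‖α i - β j‖) =
      Real.log ‖(h.leadingCoeff : K)‖ + ∑ j, Real.log ‖α i - β j‖ := fun i => by
    rw [Real.log_mul (norm_ne_zero_iff.2 hB) (prod_ne_zero_iff.2 fun j _ => hne' i j),
      Real.log_prod fun j _ => hne' i j]
  simp only [hlog, sum_add_distrib, sum_neg_distrib, sum_const, card_univ, hι, hκ, nsmul_eq_mul,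
    ← mul_sum] at htot ⊢
  have e1 := mul_nonneg (Nat.cast_nonneg (α := ℝ) h.natDegree) hGa
  have e2 := mul_nonneg (Nat.cast_nonneg (α := ℝ) g.natDegree) hGb
  linarith

end Pool.Agent.MP_9c0351_nt

end

section

namespace Pool.Agent.MP_9c0351_nt

open Polynomial Finset

/-- The primitive part of the polynomial `S n`. -/
noncomputable def TT (n a b : ℕ) : ℤ[X] :=
  C (a : ℤ) * X ^ (n + 1) - C (b : ℤ) * X ^ n + C (b : ℤ) * X - C (a : ℤ)

/-- The numerical data attached to `n`. -/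
structure Num (n a b ε : ℕ) : Prop where
  hn : 4 ≤ n
  hε : ε ≤ 1
  ha : (ε + 1) * a + 1 = n
  hb : (ε + 1) * b = n + 1
  hev : ε = 0 → Even n

/-- A nontrivial factorisation of the reduced polynomial. -/
structure Fac (n a b ε : ℕ) (g h : ℤ[X]) : Prop extends Num n a b ε where
  fac : (X - 1) ^ 3 * (X + 1) ^ ε * g * h = TT n a b
  hd : 0 < g.natDegree
  he : 0 < h.natDegree

variable {n a b ε : ℕ} {g h : ℤ[X]}

theorem Fac.symm (F : Fac n a b ε g h) : Fac n a b ε h g :=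
  { F.toNum with fac := by rw [← F.fac]; ring, hd := F.he, he := F.hd }

theorem Num.cases (F : Num n a b ε) :
    (ε = 0 ∧ a + 1 = n ∧ b = n + 1 ∧ n % 2 = 0) ∨ (ε = 1 ∧ 2 * a + 1 = n ∧ 2 * b = n + 1) := by
  have h1 := F.ha
  have h2 := F.hb
  rcases Nat.le_one_iff_eq_zero_or_eq_one.1 F.hε with rfl | rfl
  · have := Nat.even_iff.1 (F.hev rfl)
    left; omega
  · right; omega

theorem Num.a_pos (F : Num n a b ε) : 0 < a := by
  have := F.hn
  rcases F.cases with h | h <;> omega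

theorem Num.a_lt_b (F : Num n a b ε) : a < b := by
  rcases F.cases with h | h <;> omega

theorem Num.M_pos (F : Num n a b ε) : 0 < n * a * b := by
  have := F.hn
  have := F.a_pos
  have := F.a_lt_b
  exact Nat.mul_pos (Nat.mul_pos (by omega) (by omega)) (by omega)

theorem Num.not_dvd_ab (F : Num n a b ε) {p : ℕ} (hp : p.Prime) (h1 : p ∣ a) (h2 : p ∣ b) :
    False := by
  have h3 : p ∣ b - a := Nat.dvd_sub h2 h1
  rcases F.cases with ⟨-, e1, e2, e3⟩ | ⟨-, e1, e2⟩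
  · rw [show b - a = 2 by omega] at h3
    have := (Nat.prime_dvd_prime_iff_eq hp Nat.prime_two).1 h3
    subst this
    omega
  · rw [show b - a = 1 by omega] at h3
    exact hp.one_lt.ne' (Nat.dvd_one.1 h3)

theorem Num.not_dvd_na (F : Num n a b ε) {p : ℕ} (hp : p.Prime) (h1 : p ∣ n) (h2 : p ∣ a) :
    False := by
  rw [← F.ha] at h1
  exact hp.one_lt.ne' (Nat.dvd_one.1 ((Nat.dvd_add_right (Dvd.dvd.mul_left h2 _)).1 h1))

theorem Num.not_dvd_nb (F : Num n a b ε) {p : ℕ} (hp : p.Prime) (h1 : p ∣ n) (h2 : p ∣ b) :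
    False := by
  have h3 : p ∣ n + 1 := F.hb ▸ Dvd.dvd.mul_left h2 _
  exact hp.one_lt.ne' (Nat.dvd_one.1 ((Nat.dvd_add_right h1).1 h3))

theorem aeval_TT {R : Type*} [CommRing R] (x : R) :
    aeval x (TT n a b) = a * x ^ (n + 1) - b * x ^ n + b * x - a := by
  simp [TT]

theorem mul_aeval_derivative_TT {R : Type*} [CommRing R] (x : R) :
    x * aeval x (derivative (TT n a b)) = a * (n + 1) * x ^ (n + 1) - b * n * x ^ n + b * x := by
  rcases n with _ | n
  · simp [TT]; ring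
  · simp [TT]; ring

theorem Num.root_id (F : Num n a b ε) {R : Type*} [CommRing R] {x : R}
    (hx : aeval x (TT n a b) = 0) :
    x * (a * x - b) * aeval x (derivative (TT n a b)) = -(n * a * b) * (x - 1) ^ 2 := by
  have h1 := mul_aeval_derivative_TT (n := n) (a := a) (b := b) x
  rw [aeval_TT] at hx
  have h2 : ((ε + 1 : ℕ) : R) * a + 1 = n := by exact_mod_cast congrArg (Nat.cast : ℕ → R) F.ha
  have h3 : ((ε + 1 : ℕ) : R) * b = n + 1 := by exact_mod_cast congrArg (Nat.cast : ℕ → R) F.hb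
  linear_combination (a * x - b) * h1 + (a * (n + 1) * x - b * n) * hx +
    x * (a * b - b ^ 2) * h2 + x * (a * b - a ^ 2) * h3

theorem coeff_TT (hn : 4 ≤ n) : (TT n a b).coeff (n + 1) = a ∧ (TT n a b).coeff n = -b ∧
    (TT n a b).coeff 1 = b ∧ (TT n a b).coeff 0 = -a := by
  obtain ⟨s, rfl⟩ : ∃ s, n = s + 2 := ⟨n - 2, by omega⟩
  simp [TT, coeff_X, coeff_X_pow, coeff_natCast_ite]

theorem natDegree_TT_le : (TT n a b).natDegree ≤ n + 1 := by
  unfold TT
  compute_degree!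

theorem Num.natDegree_TT (F : Num n a b ε) : (TT n a b).natDegree = n + 1 := by
  refine natDegree_eq_of_le_of_coeff_ne_zero natDegree_TT_le ?_
  rw [(coeff_TT F.hn).1]
  exact_mod_cast F.a_pos.ne'

theorem Num.leadingCoeff_TT (F : Num n a b ε) : (TT n a b).leadingCoeff = a := by
  rw [leadingCoeff, F.natDegree_TT, (coeff_TT F.hn).1]

theorem monic_tau (ε : ℕ) : ((X - 1) ^ 3 * (X + 1) ^ ε : ℤ[X]).Monic :=
  ((monic_X_sub_C 1).pow 3).mul ((monic_X_add_C 1).pow ε)

theorem natDegree_tau (ε : ℕ) : ((X - 1) ^ 3 * (X + 1) ^ ε : ℤ[X]).natDegree = 3 + ε := by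
  have h1 : (X - 1 : ℤ[X]).natDegree = 1 := natDegree_X_sub_C (x := 1)
  have h2 : (X + 1 : ℤ[X]).natDegree = 1 := natDegree_X_add_C 1
  have m1 : (X - 1 : ℤ[X]).Monic := monic_X_sub_C 1
  have m2 : (X + 1 : ℤ[X]).Monic := monic_X_add_C 1
  rw [(m1.pow 3).natDegree_mul (m2.pow ε), natDegree_pow, natDegree_pow, h1, h2]
  ring

theorem Fac.g_ne (F : Fac n a b ε g h) : g ≠ 0 := by
  rintro rfl
  simpa using F.hd

theorem Fac.h_ne (F : Fac n a b ε g h) : h ≠ 0 := F.symm.g_ne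

theorem Fac.deg (F : Fac n a b ε g h) : 3 + ε + g.natDegree + h.natDegree = n + 1 := by
  rw [← F.natDegree_TT, ← F.fac, natDegree_mul (mul_ne_zero (monic_tau ε).ne_zero F.g_ne) F.h_ne,
    natDegree_mul (monic_tau ε).ne_zero F.g_ne, natDegree_tau]

theorem Fac.lc (F : Fac n a b ε g h) : g.leadingCoeff * h.leadingCoeff = a := by
  rw [← F.leadingCoeff_TT, ← F.fac, leadingCoeff_mul, leadingCoeff_mul, (monic_tau ε).leadingCoeff,
    one_mul]

theorem Fac.exists_not_dvd (F : Fac n a b ε g h) {p : ℕ} (hp : p.Prime) :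
    ∃ j, ¬ (p : ℤ) ∣ g.coeff j := by
  by_contra hcon
  push Not at hcon
  have h1 : C (p : ℤ) ∣ TT n a b := by
    rw [← F.fac]
    exact (((C_dvd_iff_dvd_coeff _ _).2 hcon).mul_left _).mul_right _
  have h2 := (C_dvd_iff_dvd_coeff _ _).1 h1
  have h3 := h2 (n + 1)
  have h4 := h2 1
  rw [(coeff_TT F.hn).1] at h3
  rw [(coeff_TT F.hn).2.2.1] at h4
  exact F.not_dvd_ab hp (by exact_mod_cast h3) (by exact_mod_cast h4)

theorem Fac.not_dvd_lc (F : Fac n a b ε g h) {p : ℕ} (hp : p.Prime) :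
    ¬ ((p : ℤ) ∣ g.leadingCoeff ∧ (p : ℤ) ∣ h.leadingCoeff) := by
  rintro ⟨h1, h2⟩
  have ha : p ∣ a := by
    have := h1.mul_right h.leadingCoeff
    rw [F.lc] at this
    exact_mod_cast this
  let φ := Int.castRingHom (ZMod p)
  have h3 : (g.map φ).natDegree < g.natDegree :=
    natDegree_map_lt' ((ZMod.intCast_zmod_eq_zero_iff_dvd _ _).2 h1) F.hd
  have h4 : (h.map φ).natDegree < h.natDegree :=
    natDegree_map_lt' ((ZMod.intCast_zmod_eq_zero_iff_dvd _ _).2 h2) F.he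
  have h5 : ((TT n a b).map φ).natDegree < n := by
    rw [← F.fac, Polynomial.map_mul, Polynomial.map_mul]
    have e1 := natDegree_mul_le (p := ((X - 1) ^ 3 * (X + 1) ^ ε : ℤ[X]).map φ * g.map φ)
      (q := h.map φ)
    have e2 := natDegree_mul_le (p := ((X - 1) ^ 3 * (X + 1) ^ ε : ℤ[X]).map φ) (q := g.map φ)
    have e3 := natDegree_map_le (p := ((X - 1) ^ 3 * (X + 1) ^ ε : ℤ[X])) (f := φ)
    rw [natDegree_tau] at e3
    have := F.deg
    omega
  have h6 := coeff_eq_zero_of_natDegree_lt h5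
  rw [coeff_map, (coeff_TT F.hn).2.1] at h6
  have h7 := (ZMod.intCast_zmod_eq_zero_iff_dvd _ _).1 h6
  exact F.not_dvd_ab hp ha (by exact_mod_cast (dvd_neg.1 h7))

theorem Fac.not_dvd_coeff_zero (F : Fac n a b ε g h) {p : ℕ} (hp : p.Prime) :
    ¬ ((p : ℤ) ∣ g.coeff 0 ∧ (p : ℤ) ∣ h.coeff 0) := by
  rintro ⟨h1, h2⟩
  let φ := Int.castRingHom (ZMod p)
  have h3 : X ∣ g.map φ := X_dvd_iff.2 (by
    rw [coeff_map]; exact (ZMod.intCast_zmod_eq_zero_iff_dvd _ _).2 h1)
  have h4 : X ∣ h.map φ := X_dvd_iff.2 (by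
    rw [coeff_map]; exact (ZMod.intCast_zmod_eq_zero_iff_dvd _ _).2 h2)
  have h5 : X ^ 2 ∣ (TT n a b).map φ := by
    rw [← F.fac, Polynomial.map_mul, Polynomial.map_mul, mul_assoc, sq]
    exact (mul_dvd_mul h3 h4).mul_left _
  have h6 := X_pow_dvd_iff.1 h5 0 (by omega)
  have h7 := X_pow_dvd_iff.1 h5 1 (by omega)
  rw [coeff_map, (coeff_TT F.hn).2.2.2] at h6
  rw [coeff_map, (coeff_TT F.hn).2.2.1] at h7
  have h8 := (ZMod.intCast_zmod_eq_zero_iff_dvd _ _).1 h6
  have h9 := (ZMod.intCast_zmod_eq_zero_iff_dvd _ _).1 h7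
  exact F.not_dvd_ab hp (by exact_mod_cast (dvd_neg.1 h8)) (by exact_mod_cast h9)

theorem Fac.eval_one (F : Fac n a b ε g h) : 6 * (g.eval 1 * h.eval 1) = n * a * b := by
  have h1 := congrArg (fun q : ℤ[X] => (derivative (derivative (derivative q))).eval 1) F.fac
  obtain ⟨s, rfl⟩ : ∃ s, n = s + 3 := ⟨n - 3, by have := F.hn; omega⟩
  have h2 : ∀ q : ℤ[X], (derivative (derivative (derivative ((X - 1) ^ 3 * q)))).eval 1 =
      6 * q.eval 1 := fun q => by
    simp [pow_succ]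
  simp only [mul_assoc, h2] at h1
  have h3 : (derivative (derivative (derivative (TT (s + 3) a b)))).eval 1 =
      a * ((s + 4) * (s + 3) * (s + 2)) - b * ((s + 3) * (s + 2) * (s + 1)) := by
    simp [TT]; ring
  rw [h3] at h1
  simp only [eval_mul, eval_pow, eval_add, eval_X, eval_one] at h1
  rcases F.cases with ⟨rfl, e1, e2, -⟩ | ⟨rfl, e1, e2⟩
  · obtain rfl : a = s + 2 := by omega
    subst e2
    push_cast at h1 ⊢
    linear_combination h1
  · obtain rfl : s = 2 * a - 2 := by omega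
    obtain rfl : b = a + 1 := by omega
    obtain ⟨t, rfl⟩ : ∃ t, a = t + 1 := ⟨a - 1, by omega⟩
    rw [show 2 * (t + 1) - 2 = 2 * t by omega] at h1 ⊢
    push_cast at h1 ⊢
    linarith

theorem Fac.aeval_fac (F : Fac n a b ε g h) {R : Type*} [CommRing R] (x : R) :
    (x - 1) ^ 3 * (x + 1) ^ ε * aeval x g * aeval x h =
      a * x ^ (n + 1) - b * x ^ n + b * x - a := by
  rw [← aeval_TT, ← F.fac]
  simp

theorem Fac.eval_neg_one (F : Fac n a b ε g h) :
    2 * (g.eval (-1) * h.eval (-1)) ∣ n * a * b := by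
  rcases F.cases with ⟨rfl, e1, e2, e3⟩ | ⟨rfl, e1, e2⟩
  · have h1 := F.aeval_fac (-1 : ℤ)
    have h2 : Even n := Nat.even_iff.2 e3
    rw [pow_succ (-1 : ℤ) n, h2.neg_one_pow, coe_aeval_eq_eval] at h1
    have h3 : 2 * (g.eval (-1) * h.eval (-1)) = n := by
      have : (a : ℤ) + b = 2 * n := by omega
      linarith
    rw [h3, mul_assoc]
    exact Dvd.intro _ rfl
  · have h2 : Odd n := ⟨a, by omega⟩
    have h1 := F.root_id (x := (-1 : ℤ)) (by rw [← F.fac]; simp)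
    rw [← F.fac] at h1
    have h3 : aeval (-1 : ℤ) (derivative ((X - 1) ^ 3 * (X + 1) ^ 1 * g * h)) =
        -8 * (g.eval (-1) * h.eval (-1)) := by
      simp [coe_aeval_eq_eval]; ring
    rw [h3] at h1
    have h4 : (a : ℤ) + b = n := by omega
    have h5 : (n : ℤ) ≠ 0 := by omega
    have h6 : 2 * (g.eval (-1) * h.eval (-1)) = a * b := by
      refine mul_left_cancel₀ h5 ?_
      have : (-1 : ℤ) * (a * -1 - b) = n := by linarith
      rw [this] at h1
      linarith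
    rw [h6, mul_assoc]
    exact Dvd.intro_left _ rfl

theorem Fac.root_id' (F : Fac n a b ε g h) {K : Type*} [Field K] [CharZero K] {x : K}
    (hx : aeval x g = 0) :
    (x - 1) * (x + 1) ^ ε * (x * (a * x - b)) * (aeval x (derivative g) * aeval x h) =
      -(n * a * b) := by
  have h0 : x ≠ 1 := by
    rintro rfl
    have h1 := congrArg (Int.cast : ℤ → K) F.eval_one
    have h2 : aeval (1 : K) g = (g.eval 1 : ℤ) := by
      rw [← map_one (algebraMap ℤ K), aeval_algebraMap_apply_eq_algebraMap_eval]; simp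
    push_cast at h1
    rw [← h2, hx, zero_mul, mul_zero] at h1
    have h3 : ((n * a * b : ℕ) : K) ≠ 0 := by exact_mod_cast F.M_pos.ne'
    push_cast at h3
    exact h3 h1.symm
  have h1 := F.root_id (x := x) (by rw [← F.fac]; simp [hx])
  have h2 : aeval x (derivative (TT n a b)) =
      (x - 1) ^ 3 * (x + 1) ^ ε * aeval x (derivative g) * aeval x h := by
    rw [← F.fac, derivative_mul, derivative_mul]
    simp [hx]
  rw [h2] at h1
  refine mul_left_cancel₀ (pow_ne_zero 2 (sub_ne_zero.2 h0)) ?_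
  linear_combination h1

end Pool.Agent.MP_9c0351_nt

end

section

namespace Pool.Agent.MP_9c0351_nt

open Polynomial Finset

/-- Upper bound for the exponent of `p` in the resultant; `κ` is the exponent of `p` in `n a b`. -/
def cexp (n κ p d : ℕ) : ℕ :=
  if p = 2 then min 2 κ * min d ((n + 1) / 2 ^ (κ - 2)) +
    ∑ j ∈ range (κ - 2), min d ((n + 1) / 2 ^ (j + 1))
  else ∑ j ∈ range (κ - 1), min d ((n + 1) / p ^ (j + 1))

theorem exponent_le {n p k m i0 d w' : ℕ} (hp : 0 < p) (hN : p ^ k * m ≤ n + 1) (hi : i0 ≤ k) :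
    w' * min d (m * p ^ i0) + ∑ t ∈ Ico i0 k, min d (m * p ^ t) ≤
      w' * min d ((n + 1) / p ^ (k - i0)) +
        ∑ j ∈ range (k - i0), min d ((n + 1) / p ^ (j + 1)) := by
  have h1 : ∀ t j, t + j = k → min d (m * p ^ t) ≤ min d ((n + 1) / p ^ j) := by
    intro t j htj
    refine min_le_min_left _ ((Nat.le_div_iff_mul_le (by positivity)).2 ?_)
    rw [mul_assoc, ← pow_add, htj, mul_comm]
    exact hN
  refine add_le_add (Nat.mul_le_mul_left _ (h1 _ _ (by omega))) ?_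
  rw [sum_Ico_eq_sum_range, ← sum_range_reflect]
  exact sum_le_sum fun j hj => h1 _ _ (by have := mem_range.1 hj; omega)

variable {n a b ε : ℕ} {g h : ℤ[X]}
variable {K : Type} [NormedField K] [IsUltrametricDist K] [CharZero K] {p : ℕ}

omit [CharZero K] in
theorem norm_le_of_dvd {x y : ℤ} (hxy : x ∣ y) : ‖(y : K)‖ ≤ ‖(x : K)‖ := by
  obtain ⟨z, rfl⟩ := hxy
  push_cast
  rw [norm_mul]
  exact mul_le_of_le_one_right (norm_nonneg _) (IsUltrametricDist.norm_intCast_le_one K z)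

theorem Fac.norm_M_le (F : Fac n a b ε g h) {α : K} (hα : ‖α‖ ≤ 1) (h0 : aeval α g = 0) :
    ‖(n * a * b : K)‖ ≤ ‖aeval α g.derivative * aeval α h‖ := by
  rw [← norm_neg, ← F.root_id' h0, norm_mul]
  refine mul_le_of_le_one_left (norm_nonneg _) ?_
  have h1 : ‖(1 : K)‖ ≤ 1 := by simp
  have h2 : ‖(a : K) * α - b‖ ≤ 1 := norm_sub_le_of (by
    rw [norm_mul]
    exact mul_le_one₀ (IsUltrametricDist.norm_natCast_le_one K a) (norm_nonneg _) hα)
    (IsUltrametricDist.norm_natCast_le_one K b)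
  rw [norm_mul, norm_mul, norm_mul, norm_pow]
  exact mul_le_one₀ (mul_le_one₀ (norm_sub_le_of hα h1) (by positivity)
    (pow_le_one₀ (norm_nonneg _) (norm_add_le_of hα h1))) (by positivity)
    (mul_le_one₀ hα (norm_nonneg _) h2)

omit [IsUltrametricDist K] in
theorem Fac.no_common (F : Fac n a b ε g h) (α : K) (h0 : aeval α g = 0) : aeval α h ≠ 0 := by
  intro h1
  have h2 := F.root_id' h0
  rw [h1, mul_zero, mul_zero] at h2
  have h3 : ((n * a * b : ℕ) : K) ≠ 0 := by exact_mod_cast F.M_pos.ne'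
  push_cast at h3
  exact h3 (neg_eq_zero.1 h2.symm)

omit [IsUltrametricDist K] [CharZero K] in
theorem aeval_intCast (z : ℤ) (g : ℤ[X]) : aeval (z : K) g = (g.eval z : ℤ) := by
  have := aeval_algebraMap_apply_eq_algebraMap_eval (A := K) z g
  simpa using this

omit [CharZero K] in
theorem Fac.norm_M_le_unity (F : Fac n a b ε g h) (hp : p.Prime) (hπ : ‖(p : K)‖ < 1)
    (hp2 : p ≠ 2) {m : ℕ} (hm : ¬ p ∣ m) {ζ : K} (hζ : ζ ^ m = 1)
    (hN : ζ ^ (n + 1) = 1 ∨ ζ ^ n = ζ ∨ ζ ^ n = 1) :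
    ‖(n * a * b : K)‖ ≤ ‖aeval ζ g * aeval ζ h‖ := by
  have hm0 : m ≠ 0 := by rintro rfl; exact hm (dvd_zero p)
  have hζ1 := norm_eq_one_of_pow_eq_one hm0 hζ
  have hint : ∀ z : ℤ, g.eval z * h.eval z ∣ n * a * b →
      ‖(n * a * b : K)‖ ≤ ‖aeval (z : K) g * aeval (z : K) h‖ := fun z hz => by
    have := norm_le_of_dvd (K := K) hz
    rw [aeval_intCast, aeval_intCast]
    push_cast at this
    exact this
  by_cases h1 : ζ = 1
  · have := hint 1 (Dvd.intro_left _ F.eval_one)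
    rwa [Int.cast_one, ← h1] at this
  by_cases h2 : ζ = -1
  · have := hint (-1) ((Dvd.intro_left _ rfl).trans F.eval_neg_one)
    rwa [Int.cast_neg, Int.cast_one, ← h2] at this
  have h3 : 1 ≤ ‖ζ ^ 2 - 1‖ := not_lt.1 fun hlt => by
    have := eq_one_of_pow_eq_one hp hπ hm (by rw [← pow_mul, mul_comm, pow_mul, hζ, one_pow]) hlt
    rcases (mul_self_eq_one_iff (a := ζ)).1 (by rw [← sq]; exact this) with h4 | h4
    exacts [h1 h4, h2 h4]
  have e1 : ‖ζ - 1‖ ≤ 1 := norm_sub_le_of hζ1.le (by simp)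
  have e2 : ‖ζ + 1‖ ≤ 1 := norm_add_le_of hζ1.le (by simp)
  have h4 := F.aeval_fac ζ
  have h5 : ‖a * ζ ^ (n + 1) - b * ζ ^ n + b * ζ - a‖ ≤ ‖aeval ζ g * aeval ζ h‖ := by
    rw [← h4, mul_assoc, norm_mul]
    refine mul_le_of_le_one_left (norm_nonneg _) ?_
    rw [norm_mul, norm_pow, norm_pow]
    exact mul_le_one₀ (pow_le_one₀ (norm_nonneg _) e1) (by positivity)
      (pow_le_one₀ (norm_nonneg _) e2)
  refine le_trans ?_ h5
  have n1 := IsUltrametricDist.norm_natCast_le_one K n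
  have n2 := IsUltrametricDist.norm_natCast_le_one K a
  have n3 := IsUltrametricDist.norm_natCast_le_one K b
  have n4 := norm_nonneg (n : K)
  have n5 := norm_nonneg (a : K)
  have n6 := norm_nonneg (b : K)
  rw [norm_mul, norm_mul]
  rcases hN with hN | hN | hN
  · have : ζ * (a * ζ ^ (n + 1) - b * ζ ^ n + b * ζ - a) = b * (ζ ^ 2 - 1) := by
      linear_combination (a * ζ - b) * hN
    have h6 := congrArg norm this
    rw [norm_mul, norm_mul, hζ1, one_mul] at h6
    rw [h6]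
    exact (mul_le_of_le_one_left n6 (mul_le_one₀ n1 n5 n2)).trans (le_mul_of_one_le_right n6 h3)
  · have : a * ζ ^ (n + 1) - b * ζ ^ n + b * ζ - a = a * (ζ ^ 2 - 1) := by
      linear_combination (a * ζ - b) * hN
    rw [this, norm_mul]
    exact ((mul_le_of_le_one_right (by positivity) n3).trans (mul_le_of_le_one_left n5 n1)).trans
      (le_mul_of_one_le_right n5 h3)
  · have h6 : ((ε + 1 : ℕ) : K) * a + 1 = n := by exact_mod_cast congrArg (Nat.cast : ℕ → K) F.ha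
    have h7 : ((ε + 1 : ℕ) : K) * b = n + 1 := by exact_mod_cast congrArg (Nat.cast : ℕ → K) F.hb
    have : ((ε + 1 : ℕ) : K) * (ζ + 1) * (a * ζ ^ (n + 1) - b * ζ ^ n + b * ζ - a) =
        ((2 : ℕ) : K) * n * (ζ ^ 2 - 1) := by
      push_cast at h6 h7 ⊢
      linear_combination (ε + 1) * (ζ + 1) * (a * ζ - b) * hN + (ζ ^ 2 - 1) * h6 + (ζ ^ 2 - 1) * h7
    have h8 := congrArg norm this
    rw [norm_mul, norm_mul, norm_mul, norm_mul, norm_natCast_eq_one hp hπ (m := 2)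
      (fun h => hp2 ((Nat.prime_dvd_prime_iff_eq hp Nat.prime_two).1 h)), one_mul] at h8
    have h9 : ‖(n : K)‖ ≤ ‖a * ζ ^ (n + 1) - b * ζ ^ n + b * ζ - a‖ :=
      ((le_mul_of_one_le_right n4 h3).trans h8.symm.le).trans (mul_le_of_le_one_left
        (norm_nonneg _) (mul_le_one₀ (IsUltrametricDist.norm_natCast_le_one K _)
          (norm_nonneg _) e2))
    exact ((mul_le_of_le_one_right (by positivity) n3).trans (mul_le_of_le_one_right n4 n2)).trans h9

theorem Fac.case_bound [IsAlgClosed K] (F : Fac n a b ε g h) (hp : p.Prime) (hπ : ‖(p : K)‖ < 1)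
    {W : ℤ[X]} {c0 u0 N' : ℤ} {s η κ m δ : ℕ} (hκ : 1 ≤ κ) (hδ : p ≠ 2 → δ = 0)
    (hM : ‖(n * a * b : K)‖ = ‖(p : K)‖ ^ κ) (hm : ¬ p ∣ m) (hc0 : ¬ (p : ℤ) ∣ c0)
    (hu0 : ¬ (p : ℤ) ∣ u0) (hη : η ≤ 1) (hN' : (p : ℤ) ^ κ ∣ N')
    (hN : p ^ (κ + δ) * m = n + 1 ∨ p ^ (κ + δ) * m + 1 = n ∨ p ^ (κ + δ) * m = n)
    (H4 : C c0 * TT n a b =
      C u0 * X ^ s * (X + 1) ^ η * (X ^ (p ^ (κ + δ) * m) - 1) + C N' * W)
    (H5 : ∀ α : K, ‖α‖ = 1 → aeval α g = 0 → ‖α ^ (p ^ (κ + δ) * m) - 1‖ < 1) :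
    ‖(p : K)‖ ^ cexp n κ p g.natDegree ≤ ‖((resultant g h : ℤ) : K)‖ := by
  have hle : p ^ (κ + δ) * m ≤ n + 1 := by omega
  rw [← F.fac] at H4
  by_cases hp2 : p = 2
  · have h1 := local_bound (K := K) (k := κ + δ) (δ := δ) (w := min 2 κ) (w' := min 2 κ) hp hπ
      F.g_ne F.h_ne (F.exists_not_dvd hp) (F.symm.exists_not_dvd hp) (F.not_dvd_lc hp)
      (F.not_dvd_coeff_zero hp) hm hc0 hu0 hη (by rwa [Nat.add_sub_cancel]) (by omega) (by omega)
      (fun h => by rw [hp2]; omega) H4 H5 F.no_common (Or.inr fun α h1 h2 => by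
        rw [show κ + δ - (min 2 κ + δ) + min 2 κ = κ by omega, ← hM]
        exact F.norm_M_le h1.le h2)
    refine le_trans (pow_le_pow_of_le_one (norm_nonneg _) hπ.le ?_) h1
    refine (exponent_le hp.pos hle (by omega)).trans (le_of_eq ?_)
    rw [cexp, if_pos hp2, show κ + δ - (min 2 κ + δ) = κ - 2 by omega, hp2]
  · have hδ0 := hδ hp2
    subst hδ0
    have hp3 : 3 ≤ p := by have := hp.two_le; omega
    have h1 := local_bound (K := K) (k := κ + 0) (δ := 0) (w := 1) (w' := 0) hp hπ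
      F.g_ne F.h_ne (F.exists_not_dvd hp) (F.symm.exists_not_dvd hp) (F.not_dvd_lc hp)
      (F.not_dvd_coeff_zero hp) hm hc0 hu0 hη hN' le_rfl (by omega)
      (fun h => by omega) H4 H5 F.no_common (Or.inl fun ζ hζ => by
        rw [show κ + 0 - (1 + 0) + 1 = κ by omega, ← hM]
        have h2 : ζ ^ (p ^ (κ + 0) * m) = 1 := by rw [mul_comm, pow_mul, hζ, one_pow]
        refine F.norm_M_le_unity hp hπ hp2 hm hζ ?_
        rcases hN with hN | hN | hN
        · exact Or.inl (hN ▸ h2)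
        · exact Or.inr (Or.inl (by rw [← hN, pow_succ, h2, one_mul]))
        · exact Or.inr (Or.inr (hN ▸ h2)))
    refine le_trans (pow_le_pow_of_le_one (norm_nonneg _) hπ.le ?_) h1
    refine (exponent_le hp.pos hle (by omega)).trans (le_of_eq ?_)
    rw [cexp, if_neg hp2, zero_mul, zero_add]
    rfl

theorem exists_split {ε p κ m' : ℕ} (hε : ε ≤ 1) (hp : p.Prime) (hm' : ¬ p ∣ m') :
    ∃ δ m : ℕ, (p ≠ 2 → δ = 0) ∧ ¬ p ∣ m ∧ p ^ (κ + δ) * m = (ε + 1) * (p ^ κ * m') := by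
  rcases Nat.le_one_iff_eq_zero_or_eq_one.1 hε with rfl | rfl
  · exact ⟨0, m', fun _ => rfl, hm', by simp⟩
  · by_cases hp2 : p = 2
    · exact ⟨1, m', fun h => absurd hp2 h, hm', by rw [hp2]; ring⟩
    · refine ⟨0, 2 * m', fun _ => rfl, fun h => ?_, by ring⟩
      rcases (Nat.Prime.dvd_mul hp).1 h with h | h
      · exact hp2 ((Nat.prime_dvd_prime_iff_eq hp Nat.prime_two).1 h)
      · exact hm' h

theorem Fac.padic_bound [IsAlgClosed K] (F : Fac n a b ε g h) (hp : p.Prime) (hπ : ‖(p : K)‖ < 1)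
    {κ r : ℕ} (hr : ¬ p ∣ r) (hM : n * a * b = p ^ κ * r) :
    ‖(p : K)‖ ^ cexp n κ p g.natDegree ≤ ‖((resultant g h : ℤ) : K)‖ := by
  have hMn : ‖(n * a * b : K)‖ = ‖(p : K)‖ ^ κ := by
    have := congrArg (fun z : ℕ => ‖(z : K)‖) hM
    push_cast at this
    rw [this, norm_mul, norm_pow, norm_natCast_eq_one hp hπ hr, mul_one]
  have hunit : ∀ {z : ℕ}, ¬ p ∣ z → ‖(z : K)‖ = 1 := norm_natCast_eq_one hp hπ
  have hsmall : ∀ {z : ℕ}, p ∣ z → ‖(z : K)‖ < 1 := fun {z} hz => by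
    have := norm_le_of_dvd (K := K) (Int.natCast_dvd_natCast.2 hz)
    push_cast at this
    exact this.trans_lt hπ
  have hroot : ∀ α : K, aeval α g = 0 → a * α ^ (n + 1) - b * α ^ n + b * α - a = 0 :=
    fun α h0 => by rw [← F.aeval_fac, h0]; simp
  have hdecomp : ∀ {z y : ℕ}, z * y = p ^ κ * r → ¬ p ∣ y → ∃ m', ¬ p ∣ m' ∧ z = p ^ κ * m' := by
    intro z y hzy hy
    have h1 : p ^ κ ∣ z := (Nat.Coprime.pow_left κ ((Nat.Prime.coprime_iff_not_dvd hp).2 hy)).dvd_of_dvd_mul_right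
      (hzy ▸ Dvd.intro _ rfl)
    obtain ⟨m', rfl⟩ := h1
    refine ⟨m', fun h2 => hr ?_, rfl⟩
    rw [mul_assoc] at hzy
    have := Nat.eq_of_mul_eq_mul_left (pow_pos hp.pos κ) hzy
    exact this ▸ h2.mul_right y
  rcases Nat.eq_zero_or_pos κ with rfl | hκ
  · have h0 : cexp n 0 p g.natDegree = 0 := by simp [cexp]
    rw [h0, pow_zero]
    rw [pow_zero] at hMn
    rw [pow_zero, one_mul] at hM
    have hA : ¬ (p : ℤ) ∣ g.leadingCoeff := fun h => hr (by
      have := h.mul_right (leadingCoeff ‹ℤ[X]›)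
      rw [F.lc] at this
      rw [← hM]
      exact ((Int.natCast_dvd_natCast.1 this).mul_left _).mul_right _)
    obtain ⟨ι, _, α, -, hα⟩ := exists_int_family (K := K) g
    rw [resultant_eq_family g h F.g_ne α hα, norm_mul, norm_pow, norm_intCast_eq_one hp hπ hA,
      one_pow, one_mul, norm_prod]
    refine Finset.one_le_prod fun i _ => ?_
    have h1 := aeval_family_root hα i
    have h2 : ‖α i‖ ≤ 1 := not_lt.1 fun h2 => hA (dvd_leadingCoeff_of_big_root hp hπ h1 h2)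
    have h3 := F.norm_M_le h2 h1
    rw [hMn, norm_mul] at h3
    exact h3.trans (mul_le_of_le_one_left (norm_nonneg _) (norm_aeval_le_one h2 _))
  have hpM : p ∣ n * a * b := hM ▸ (dvd_pow_self p hκ.ne').mul_right r
  have hone : ¬ (p : ℤ) ∣ 1 := fun h => hp.one_lt.ne' (Nat.dvd_one.1 (by exact_mod_cast h))
  have hle1 : ∀ {α : K} (j : ℕ), ‖α‖ = 1 → ‖α ^ j‖ ≤ 1 := fun j h => by
    rw [norm_pow, h, one_pow]
  rcases (Nat.Prime.dvd_mul hp).1 hpM with h1 | h1
  · rcases (Nat.Prime.dvd_mul hp).1 h1 with h1 | h1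
    · -- p divides n
      obtain ⟨m, hm, e⟩ := hdecomp (z := n) (y := a * b) (by rw [← hM]; ring) fun h => by
        rcases (Nat.Prime.dvd_mul hp).1 h with h | h
        exacts [F.not_dvd_na hp h1 h, F.not_dvd_nb hp h1 h]
      have hc : ¬ p ∣ ε + 1 := fun h => by
        have h2 := h1
        rw [← F.ha] at h2
        exact hp.one_lt.ne' (Nat.dvd_one.1 ((Nat.dvd_add_right (h.mul_right a)).1 h2))
      have h6 : ∀ (R : Type) [CommRing R], ((ε + 1 : ℕ) : R) * a + 1 = n := fun R _ => by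
        exact_mod_cast congrArg (Nat.cast : ℕ → R) F.ha
      have h7 : ∀ (R : Type) [CommRing R], ((ε + 1 : ℕ) : R) * b = n + 1 := fun R _ => by
        exact_mod_cast congrArg (Nat.cast : ℕ → R) F.hb
      refine F.case_bound hp hπ (W := (X - 1) * (X ^ n + 1)) (c0 := (ε + 1 : ℕ)) (u0 := -1)
        (N' := n) (s := 0) (η := 1) (m := m) (δ := 0) hκ (fun _ => rfl) hMn hm
        (by exact_mod_cast hc) (by rwa [dvd_neg]) le_rfl
        (by rw [e]; push_cast; exact Dvd.intro _ rfl) (Or.inr (Or.inr e.symm)) ?_ ?_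
      · rw [add_zero, ← e]
        simp only [TT, map_natCast, map_neg, map_one]
        linear_combination (X ^ (n + 1) - 1) * h6 ℤ[X] - (X ^ n - X) * h7 ℤ[X]
      · intro α hα h0
        rw [add_zero, ← e]
        have h2 : (α + 1) * (α ^ n - 1) = n * ((α - 1) * (α ^ n + 1)) := by
          linear_combination (-((ε + 1 : ℕ) : K)) * hroot α h0 + (α ^ (n + 1) - 1) * h6 K -
            (α ^ n - α) * h7 K
        have e1 : ‖α - 1‖ ≤ 1 := norm_sub_le_of hα.le (by simp)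
        have e2 : ‖α + 1‖ ≤ 1 := norm_add_le_of hα.le (by simp)
        have e3 : ‖α ^ n + 1‖ ≤ 1 := norm_add_le_of (hle1 n hα) (by simp)
        rcases e2.eq_or_lt with h3 | h3
        · have h4 := congrArg norm h2
          rw [norm_mul, h3, one_mul, norm_mul, norm_mul] at h4
          rw [h4]
          exact mul_lt_one_of_nonneg_of_lt_one_left (norm_nonneg _) (hsmall h1)
            (mul_le_one₀ e1 (norm_nonneg _) e3)
        · obtain ⟨V, hV⟩ := exists_binom n
          have h4 := hV K (-(α + 1))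
          have h5 : ‖(n : K) + -(α + 1) * aeval (-(α + 1)) V‖ < 1 := by
            refine norm_add_lt_of (hsmall h1) ?_
            rw [norm_mul, norm_neg]
            exact mul_lt_one_of_nonneg_of_lt_one_left (norm_nonneg _) h3
              (norm_aeval_le_one (by rwa [norm_neg]) V)
          rw [show -(α + 1) + 1 = -α by ring] at h4
          rcases F.cases with ⟨-, -, -, h8⟩ | ⟨h8, h9, -⟩
          · rw [(Nat.even_iff.2 h8).neg_pow] at h4
            rw [h4, show (n : K) * -(α + 1) + (-(α + 1)) ^ 2 * aeval (-(α + 1)) V =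
              -(α + 1) * (n + -(α + 1) * aeval (-(α + 1)) V) by ring, norm_mul, norm_neg]
            exact mul_lt_one_of_nonneg_of_lt_one_left (norm_nonneg _) h3 h5.le
          · rw [Odd.neg_pow ⟨a, by omega⟩] at h4
            have h10 : α + 1 ≠ 0 := fun h10 => by
              have h11 := F.root_id' h0
              have h12 : ((n * a * b : ℕ) : K) ≠ 0 := by exact_mod_cast F.M_pos.ne'
              push_cast at h12
              rw [h10, h8] at h11
              exact h12 (by linear_combination h11)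
            have h13 : α ^ n - 1 = n * ((α - 1) * (n + -(α + 1) * aeval (-(α + 1)) V)) := by
              refine mul_left_cancel₀ h10 ?_
              linear_combination h2 - n * (α - 1) * h4
            rw [h13, norm_mul, norm_mul]
            exact mul_lt_one_of_nonneg_of_lt_one_left (norm_nonneg _) (hsmall h1)
              (mul_le_one₀ e1 (norm_nonneg _) h5.le)
    · -- p divides a
      have hb : ¬ p ∣ b := F.not_dvd_ab hp h1
      obtain ⟨m', hm', e⟩ := hdecomp (z := a) (y := n * b) (by rw [← hM]; ring) fun h => by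
        rcases (Nat.Prime.dvd_mul hp).1 h with h | h
        exacts [F.not_dvd_na hp h h1, hb h]
      obtain ⟨δ, m, hδ, hm, e'⟩ := exists_split (κ := κ) F.hε hp hm'
      have hN : p ^ (κ + δ) * m + 1 = n := by rw [e', ← e, F.ha]
      refine F.case_bound hp hπ (W := X ^ (n + 1) - 1) (c0 := 1) (u0 := -b)
        (N' := a) (s := 1) (η := 0) (m := m) (δ := δ) hκ hδ hMn hm hone
        (by rw [dvd_neg]; exact_mod_cast hb) zero_le_one
        (by rw [e]; push_cast; exact Dvd.intro _ rfl) (Or.inr (Or.inl hN)) ?_ ?_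
      · generalize p ^ (κ + δ) * m = N at hN
        subst hN
        simp only [TT, C_neg, C_1]
        ring
      · intro α hα h0
        have h2 := hroot α h0
        have hpa : ‖(a : K)‖ < 1 := hsmall h1
        generalize p ^ (κ + δ) * m = N at hN
        subst hN
        have h3 : b * α * (α ^ N - 1) = a * (α ^ (N + 1 + 1) - 1) := by linear_combination -h2
        have h4 := congrArg norm h3
        rw [norm_mul, norm_mul, hunit hb, hα, one_mul, one_mul, norm_mul] at h4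
        rw [h4]
        exact mul_lt_one_of_nonneg_of_lt_one_left (norm_nonneg _) hpa
          (norm_sub_le_of (hle1 _ hα) (by simp))
  · -- p divides b
    have ha : ¬ p ∣ a := fun h => F.not_dvd_ab hp h h1
    obtain ⟨m', hm', e⟩ := hdecomp (z := b) (y := n * a) (by rw [← hM]; ring) fun h => by
      rcases (Nat.Prime.dvd_mul hp).1 h with h | h
      exacts [F.not_dvd_nb hp h h1, ha h]
    obtain ⟨δ, m, hδ, hm, e'⟩ := exists_split (κ := κ) F.hε hp hm'
    have hN : p ^ (κ + δ) * m = n + 1 := by rw [e', ← e, F.hb]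
    refine F.case_bound hp hπ (W := X - X ^ n) (c0 := 1) (u0 := a)
      (N' := b) (s := 0) (η := 0) (m := m) (δ := δ) hκ hδ hMn hm hone
      (by exact_mod_cast ha) zero_le_one
      (by rw [e]; push_cast; exact Dvd.intro _ rfl) (Or.inl hN) ?_ ?_
    · rw [hN]
      simp only [TT, C_1]
      ring
    · intro α hα h0
      rw [hN]
      have h3 : a * (α ^ (n + 1) - 1) = b * (α ^ n - α) := by linear_combination hroot α h0
      have h4 := congrArg norm h3
      rw [norm_mul, hunit ha, one_mul, norm_mul] at h4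
      rw [h4]
      exact mul_lt_one_of_nonneg_of_lt_one_left (norm_nonneg _) (hsmall h1)
        (norm_sub_le_of (hle1 _ hα) hα.le)

theorem Fac.resultant_dvd (F : Fac n a b ε g h) :
    (resultant g h).natAbs ∣ ∏ p ∈ (n * a * b).primeFactors,
      p ^ cexp n ((n * a * b).factorization p) p g.natDegree := by
  rw [Nat.dvd_iff_prime_pow_dvd_dvd]
  intro p k hp hk
  have := Fact.mk hp
  have hπ : ‖(p : PadicAlgCl p)‖ < 1 := by
    have h1 := PadicAlgCl.norm_extends (p := p) (p : ℚ_[p])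
    rw [map_natCast] at h1
    rw [h1]
    exact Padic.norm_p_lt_one
  have hM0 := F.M_pos.ne'
  have h1 := F.padic_bound (K := PadicAlgCl p) hp hπ (κ := (n * a * b).factorization p)
    (Nat.not_dvd_ordCompl hp hM0) (Nat.ordProj_mul_ordCompl_eq_self _ p).symm
  have h2 := norm_intCast_le_of_dvd (K := PadicAlgCl p) (p := p) (j := k) (z := resultant g h)
    (by rw [← Int.dvd_natAbs]; exact_mod_cast hk)
  have hπ0 : 0 < ‖(p : PadicAlgCl p)‖ := norm_pos_iff.2 (by exact_mod_cast hp.ne_zero)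
  have h3 := (pow_le_pow_iff_right_of_lt_one₀ hπ0 hπ).1 (h1.trans h2)
  by_cases h4 : p ∈ (n * a * b).primeFactors
  · exact (pow_dvd_pow p h3).trans (dvd_prod_of_mem _ h4)
  · have h5 : (n * a * b).factorization p = 0 := by
      rwa [← Nat.support_factorization, Finsupp.notMem_support_iff] at h4
    rw [h5] at h3
    have : k = 0 := by simpa [cexp] using h3
    rw [this, pow_zero]
    exact one_dvd _

end Pool.Agent.MP_9c0351_nt

end

section

namespace Pool.Agent.MP_9c0351_nt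

open Finset

/-- The bound for the resultant. -/
def RB (n M d : ℕ) : ℕ := ∏ p ∈ M.primeFactors, p ^ cexp n (M.factorization p) p d

/-- Partial sums of the normalised cluster sizes. -/
def SS (Y : ℚ) (p t : ℕ) : ℚ := ∑ j ∈ range t, min 1 (Y / p ^ (j + 1))

/-- Normalised version of `cexp`. -/
def gain (Y : ℚ) (κ p : ℕ) : ℚ :=
  if p = 2 then (min 2 κ : ℕ) * min 1 (Y / 2 ^ (κ - 2)) + SS Y 2 (κ - 2) else SS Y p (κ - 1)

theorem min_le_aux {N d q : ℕ} {Y : ℚ} (h : (N : ℚ) ≤ Y * d) :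
    ((min d (N / q) : ℕ) : ℚ) ≤ d * min 1 (Y / q) := by
  rw [mul_min_of_nonneg _ _ (Nat.cast_nonneg d), Nat.cast_min, mul_one]
  refine min_le_min_left _ (Nat.cast_div_le.trans ?_)
  rw [← mul_div_assoc, mul_comm]
  exact div_le_div_of_nonneg_right h (Nat.cast_nonneg q)

theorem cexp_le_gain {n κ p d : ℕ} {Y : ℚ} (h : ((n + 1 : ℕ) : ℚ) ≤ Y * d) :
    (cexp n κ p d : ℚ) ≤ d * gain Y κ p := by
  have h1 : ∀ p t : ℕ,
      ((∑ j ∈ range t, min d ((n + 1) / p ^ (j + 1)) : ℕ) : ℚ) ≤ d * SS Y p t := fun p t => by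
    rw [SS, mul_sum, Nat.cast_sum]
    refine sum_le_sum fun j _ => ?_
    simpa using min_le_aux (q := p ^ (j + 1)) h
  unfold cexp gain
  split_ifs with h2
  · rw [Nat.cast_add, mul_add, Nat.cast_mul, mul_left_comm]
    refine add_le_add (mul_le_mul_of_nonneg_left ?_ (Nat.cast_nonneg _)) (h1 2 _)
    simpa using min_le_aux (q := 2 ^ (κ - 2)) h
  · exact h1 p _

theorem SS_succ (Y : ℚ) (p t : ℕ) : SS Y p (t + 1) = SS Y p t + min 1 (Y / p ^ (t + 1)) :=
  sum_range_succ _ _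

theorem div_pow_le {Y : ℚ} (hY : 0 ≤ Y) {p q i j : ℕ} (hq : 0 < q) (hp : q ≤ p) (hij : i ≤ j) :
    Y / p ^ j ≤ Y / q ^ i := by
  have h1 : (1 : ℚ) ≤ q := by exact_mod_cast hq
  have h2 : (q : ℚ) ≤ p := by exact_mod_cast hp
  exact div_le_div_of_nonneg_left hY (by positivity)
    ((pow_le_pow_right₀ h1 hij).trans (pow_le_pow_left₀ (by positivity) h2 j))

theorem gain_succ {Y : ℚ} (hY : 0 ≤ Y) {κ p : ℕ} (hκ : 2 ≤ κ) (hp : 2 ≤ p) :
    gain Y (κ + 1) p ≤ gain Y κ p + Y / (2 : ℕ) ^ (κ - 1) := by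
  obtain ⟨t, rfl⟩ : ∃ t, κ = t + 2 := ⟨κ - 2, by omega⟩
  unfold gain
  split_ifs with h2
  · rw [show t + 2 + 1 - 2 = t + 1 by omega, Nat.add_sub_cancel, SS_succ,
      show min 2 (t + 2 + 1) = 2 by omega, show min 2 (t + 2) = 2 by omega,
      show t + 2 - 1 = t + 1 by omega]
    have h3 := min_le_right 1 (Y / (2 : ℕ) ^ (t + 1))
    have h4 := min_le_min_left 1 (div_pow_le hY two_pos le_rfl (Nat.le_succ t))
    push_cast at h3 h4 ⊢
    linarith
  · rw [show t + 2 + 1 - 1 = t + 1 + 1 by omega, show t + 2 - 1 = t + 1 by omega, SS_succ]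
    exact add_le_add_right ((min_le_right _ _).trans
      (div_pow_le hY two_pos hp (Nat.le_succ _))) _

theorem gain_le_of_check {Y α E : ℚ} (hY : 0 ≤ Y) {p : ℕ} (hp : 2 ≤ p) (hK : Y / 2 ^ 9 ≤ α)
    (h : ∀ κ ≤ 10, gain Y κ p ≤ α * κ + E) (κ : ℕ) : gain Y κ p ≤ α * κ + E := by
  rcases le_total κ 10 with h1 | h1
  · exact h κ h1
  · induction κ, h1 using Nat.le_induction with
    | base => exact h 10 le_rfl
    | succ k hk ih =>
      have h2 := gain_succ hY (κ := k) (by omega) hp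
      have h3 := div_pow_le hY two_pos le_rfl (show 9 ≤ k - 1 by omega)
      push_cast at h2 h3 ⊢
      linarith

theorem gain_large {Y α : ℚ} (hY : 0 ≤ Y) {p q : ℕ} (hq : 3 ≤ q) (hp : q ≤ p)
    (h1 : min 1 (Y / q) ≤ 2 * α) (h2 : Y / q ^ 2 ≤ α) (κ : ℕ) : gain Y κ p ≤ α * κ := by
  have hα : 0 ≤ α := le_trans (by positivity) h2
  rw [gain, if_neg (by omega)]
  rcases le_or_gt κ 1 with h3 | h3
  · rw [show κ - 1 = 0 by omega, SS, sum_range_zero]
    positivity
  · induction κ, h3 using Nat.le_induction with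
    | base =>
      have h4 := min_le_min_left 1 (div_pow_le hY (by omega) hp (le_refl 1))
      rw [pow_one (q : ℚ)] at h4
      rw [show Nat.succ 1 - 1 = 0 + 1 from rfl, SS_succ, SS, sum_range_zero]
      push_cast
      linarith
    | succ k hk ih =>
      obtain ⟨t, rfl⟩ : ∃ t, k = t + 1 := ⟨k - 1, by omega⟩
      rw [Nat.add_sub_cancel] at ih ⊢
      have h4 := (min_le_right 1 _).trans
        (div_pow_le hY (by omega) hp (show 2 ≤ t + 1 by omega))
      rw [SS_succ]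
      push_cast at ih ⊢
      linarith

theorem SS_tail {Y : ℚ} (hY : 0 ≤ Y) {p J : ℕ} (hp : 0 < p) (hJ : Y / p ^ (J + 1) ≤ 1 / 2)
    (t : ℕ) : SS Y p t ≤ t / 2 + J / 2 := by
  have h1 : ∀ t, SS Y p t ≤ t := fun t => by
    simpa [SS] using sum_le_card_nsmul (range t) (fun j => min 1 (Y / p ^ (j + 1))) 1
      fun j _ => min_le_left _ _
  rcases le_total t J with h2 | h2
  · have : (t : ℚ) ≤ J := by exact_mod_cast h2
    linarith [h1 t]
  · induction t, h2 using Nat.le_induction with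
    | base => linarith [h1 J]
    | succ k hk ih =>
      have h4 := (min_le_right 1 _).trans
        (div_pow_le hY hp le_rfl (show J + 1 ≤ k + 1 by omega))
      rw [SS_succ]
      push_cast
      linarith

theorem gain_tail {Y : ℚ} (hY : 0 ≤ Y) {p J : ℕ} (hp : 0 < p) (hJ : Y / p ^ (J + 1) ≤ 1 / 2)
    (κ : ℕ) : gain Y κ p ≤ 1 / 2 * κ + (J / 2 + if p = 2 then 1 else 0) := by
  unfold gain
  split_ifs with h2
  · subst h2
    have h3 := SS_tail hY hp hJ (κ - 2)
    have h4 : ((min 2 κ : ℕ) : ℚ) * min 1 (Y / 2 ^ (κ - 2)) ≤ (min 2 κ : ℕ) :=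
      mul_le_of_le_one_right (Nat.cast_nonneg _) (min_le_left _ _)
    have h5 : (2 : ℚ) * (min 2 κ : ℕ) + (κ - 2 : ℕ) ≤ κ + 2 := by
      exact_mod_cast (by omega : 2 * min 2 κ + (κ - 2) ≤ κ + 2)
    linarith
  · have h3 := SS_tail hY hp hJ (κ - 1)
    have h5 : ((κ - 1 : ℕ) : ℚ) ≤ κ := by exact_mod_cast Nat.sub_le κ 1
    linarith

theorem log_RB_le {n M d : ℕ} {Y α : ℚ} (h : ((n + 1 : ℕ) : ℚ) ≤ Y * d)
    (S : Finset ℕ) (E : ℕ → ℚ) (hE : ∀ p, 0 ≤ E p)
    (h1 : ∀ p, p.Prime → p ∈ S → ∀ κ, gain Y κ p ≤ α * κ + E p)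
    (h2 : ∀ p, p.Prime → p ∉ S → ∀ κ, gain Y κ p ≤ α * κ) :
    Real.log (RB n M d) ≤ d * (α * Real.log M + ∑ p ∈ S, E p * Real.log p) := by
  have h3 : ∑ p ∈ M.primeFactors, (if p ∈ S then (E p : ℝ) * Real.log p else 0) ≤
      ∑ p ∈ S, E p * Real.log p := by
    rw [← sum_filter]
    refine sum_le_sum_of_subset_of_nonneg (fun p hp => (mem_filter.1 hp).2) fun p _ _ => ?_
    exact mul_nonneg (by exact_mod_cast hE p) (Real.log_natCast_nonneg p)
  refine le_trans ?_ (mul_le_mul_of_nonneg_left (add_le_add_right h3 _) (Nat.cast_nonneg d))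
  rw [RB, Nat.cast_prod, Real.log_prod fun p hp => by
    exact_mod_cast (pow_pos (Nat.prime_of_mem_primeFactors hp).pos _).ne',
    Real.log_nat_eq_sum_factorization, Finsupp.sum, Nat.support_factorization, mul_sum,
    ← sum_add_distrib, mul_sum]
  refine sum_le_sum fun p hp => ?_
  have hp' := Nat.prime_of_mem_primeFactors hp
  have h4 := cexp_le_gain (κ := M.factorization p) (p := p) h
  have h5 : (cexp n (M.factorization p) p d : ℚ) ≤
      d * (α * M.factorization p + if p ∈ S then E p else 0) := by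
    refine h4.trans (mul_le_mul_of_nonneg_left ?_ (Nat.cast_nonneg d))
    split_ifs with h6
    · exact h1 p hp' h6 _
    · rw [add_zero]; exact h2 p hp' h6 _
  have h6 : (cexp n (M.factorization p) p d : ℝ) ≤
      d * (α * M.factorization p + if p ∈ S then (E p : ℝ) else 0) := by
    split_ifs at h5 ⊢ <;> exact_mod_cast h5
  rw [Nat.cast_pow, Real.log_pow]
  refine (mul_le_mul_of_nonneg_right h6 (Real.log_natCast_nonneg p)).trans (le_of_eq ?_)
  split_ifs <;> ring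

/-- The excess for a prime `p`. -/
def exc (Y α : ℚ) (p : ℕ) : ℚ :=
  (List.range 11).foldr (fun κ acc => max (gain Y κ p - α * κ) acc) 0

theorem le_foldr_max (f : ℕ → ℚ) (l : List ℕ) :
    0 ≤ l.foldr (fun κ acc => max (f κ) acc) 0 ∧
      ∀ κ ∈ l, f κ ≤ l.foldr (fun κ acc => max (f κ) acc) 0 := by
  induction l with
  | nil => simp
  | cons x l ih =>
    refine ⟨ih.1.trans (le_max_right _ _), fun κ hκ => ?_⟩
    rcases List.mem_cons.1 hκ with rfl | h
    · exact le_max_left _ _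
    · exact (ih.2 κ h).trans (le_max_right _ _)

/-- The constant term, in units of `log 2`. -/
def beta (Y α : ℚ) : ℚ :=
  ∑ p ∈ ({2, 3, 5, 7, 11, 13, 17, 19} : Finset ℕ), exc Y α p * (Nat.clog 2 (p ^ 64) / 64)

theorem log_RB_le_beta {n M d : ℕ} {Y α : ℚ} (h : ((n + 1 : ℕ) : ℚ) ≤ Y * d)
    (hY : 0 ≤ Y) (hK : Y / 2 ^ 9 ≤ α) (h1 : min 1 (Y / 23) ≤ 2 * α) (h2 : Y / 23 ^ 2 ≤ α) :
    Real.log (RB n M d) ≤ d * (α * Real.log M + beta Y α * Real.log 2) := by
  have hE : ∀ p, 0 ≤ exc Y α p := fun p => (le_foldr_max _ _).1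
  refine (log_RB_le (α := α) h {2, 3, 5, 7, 11, 13, 17, 19} (exc Y α) hE (fun p hp _ => ?_)
    (fun p hp hS => ?_)).trans ?_
  · refine gain_le_of_check hY hp.two_le hK fun κ hκ => ?_
    have := (le_foldr_max (fun κ => gain Y κ p - α * κ) (List.range 11)).2 κ
      (List.mem_range.2 (by omega))
    rw [exc]
    linarith
  · refine gain_large (q := 23) hY (by norm_num) (not_lt.1 fun h3 => hS ?_) h1 h2
    interval_cases p <;> first | decide | exact absurd hp (by decide)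
  · refine mul_le_mul_of_nonneg_left (add_le_add_right ?_ _) (Nat.cast_nonneg d)
    rw [beta, Rat.cast_sum, sum_mul]
    refine sum_le_sum fun p hp => ?_
    rw [Rat.cast_mul, mul_assoc]
    refine mul_le_mul_of_nonneg_left ?_ (by exact_mod_cast hE p)
    have hp0 : 0 < p := by
      rcases Nat.eq_zero_or_pos p with rfl | h0
      · exact absurd hp (by decide)
      · exact h0
    have h3 : ((p : ℝ) ^ 64) ≤ 2 ^ Nat.clog 2 (p ^ 64) := by
      exact_mod_cast Nat.le_pow_clog one_lt_two (p ^ 64)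
    have h4 := Real.log_le_log (by positivity) h3
    rw [Real.log_pow, Real.log_pow] at h4
    push_cast at h4 ⊢
    linarith

theorem log_RB_le_tail {n M d : ℕ} {Y : ℚ} (h : ((n + 1 : ℕ) : ℚ) ≤ Y * d)
    (hY : 256 ≤ Y) : Real.log (RB n M d) ≤
      d * (1 / 2 * Real.log M + (Real.log 2 + √(2 * Y) * Real.log √(2 * Y))) := by
  have hY0 : 0 ≤ Y := by linarith
  set N := ⌊2 * Y⌋₊ with hN
  have hN1 : (N : ℚ) ≤ 2 * Y := Nat.floor_le (by linarith)
  have hN2 : 2 * Y < N + 1 := Nat.lt_floor_add_one _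
  have hN3 : 512 ≤ N := Nat.le_floor (by push_cast; linarith)
  have hs : 4 ≤ N.sqrt := Nat.le_sqrt.2 (by omega)
  have key : ∀ q : ℕ, N < q → Y / q ≤ 1 / 2 := fun q hq => by
    have h1 : (N + 1 : ℚ) ≤ q := by exact_mod_cast hq
    rw [div_le_iff₀ (by linarith)]
    linarith
  have h0 := log_RB_le (M := M) (α := 1 / 2) h (Ico 2 (N.sqrt + 1))
    (fun p => (Nat.log p N : ℚ) / 2 + if p = 2 then 1 else 0)
    (fun p => by split_ifs <;> positivity)
    (fun p hp _ => gain_tail hY0 hp.pos (by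
      simpa using key _ (Nat.lt_pow_succ_log_self hp.one_lt N)))
    (fun p hp hS => gain_large (q := N.sqrt + 1) hY0 (by omega) (by
      have := hp.two_le
      rw [mem_Ico] at hS
      omega) (by simp) (by simpa using key _ (Nat.lt_succ_sqrt' N)))
  refine h0.trans (mul_le_mul_of_nonneg_left (add_le_add (by simp) ?_) (Nat.cast_nonneg d))
  have hYR : (0 : ℝ) < 2 * Y := by exact_mod_cast (by linarith : (0 : ℚ) < 2 * Y)
  have hNR : (N : ℝ) ≤ 2 * Y := by exact_mod_cast hN1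
  have h1 : ∀ p ∈ Ico 2 (N.sqrt + 1),
      (((Nat.log p N : ℚ) / 2 + if p = 2 then 1 else 0 : ℚ) : ℝ) * Real.log p ≤
        Real.log √(2 * Y) + if p = 2 then Real.log 2 else 0 := fun p hp => by
    have hp0 : (0 : ℝ) < p := by exact_mod_cast (by have := mem_Ico.1 hp; omega : 0 < p)
    have h2 : (p : ℝ) ^ Nat.log p N ≤ N := by
      exact_mod_cast Nat.pow_log_le_self p (by omega : N ≠ 0)
    have h3 := Real.log_le_log (by positivity) (h2.trans hNR)
    rw [Real.log_pow] at h3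
    rw [Real.log_sqrt hYR.le]
    split_ifs with h4
    · subst h4
      push_cast at h3 ⊢
      linarith
    · push_cast
      linarith
  refine (sum_le_sum h1).trans ?_
  rw [sum_add_distrib, sum_ite_eq', if_pos (mem_Ico.2 (by omega)), sum_const, Nat.card_Ico,
    nsmul_eq_mul, add_comm]
  refine add_le_add_right (mul_le_mul_of_nonneg_right ?_ (Real.log_nonneg ?_)) _
  · refine Real.le_sqrt_of_sq_le (le_trans ?_ hNR)
    exact_mod_cast (Nat.pow_le_pow_left (by omega : N.sqrt + 1 - 2 ≤ N.sqrt) 2).trans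
      (Nat.sqrt_le' N)
  · refine Real.le_sqrt_of_sq_le (le_trans ?_ hNR)
    exact_mod_cast (by omega : 1 ^ 2 ≤ N)

end Pool.Agent.MP_9c0351_nt

end

section

namespace Pool.Agent.MP_9c0351_nt

open Polynomial Finset

theorem eq_one_of_sum_sq_le {n : ℕ} (hn : 2 ≤ n) {r : ℝ}
    (h : n * ∑ j ∈ range n, (r ^ j) ^ 2 ≤ (∑ j ∈ range n, r ^ j) ^ 2) : r = 1 := by
  set s := ∑ j ∈ range n, r ^ j with hs
  have hn0 : (0 : ℝ) < n := by exact_mod_cast (by omega : 0 < n)
  have h1 : ∑ j ∈ range n, (n * r ^ j - s) ^ 2 =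
      n * (n * ∑ j ∈ range n, (r ^ j) ^ 2 - s ^ 2) := by
    have : ∀ j, (n * r ^ j - s) ^ 2 = n ^ 2 * (r ^ j) ^ 2 - 2 * n * s * r ^ j + s ^ 2 := fun j => by
      ring
    simp only [this, sum_add_distrib, sum_sub_distrib, ← mul_sum, ← hs, sum_const, card_range,
      nsmul_eq_mul]
    ring
  have h2 : ∑ j ∈ range n, (n * r ^ j - s) ^ 2 = 0 :=
    le_antisymm (by rw [h1]; exact mul_nonpos_of_nonneg_of_nonpos hn0.le (by linarith))
      (sum_nonneg fun j _ => sq_nonneg _)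
  rw [sum_eq_zero_iff_of_nonneg fun j _ => sq_nonneg _] at h2
  have h3 := pow_eq_zero_iff (two_ne_zero) |>.1 (h2 0 (mem_range.2 (by omega)))
  have h4 := pow_eq_zero_iff (two_ne_zero) |>.1 (h2 1 (mem_range.2 (by omega)))
  rw [pow_zero] at h3
  rw [pow_one] at h4
  exact mul_left_cancel₀ hn0.ne' (by linarith)

theorem re_aux (u : ℂ) : ((u + 1) * (starRingEnd ℂ) (u - 1)).re = ‖u‖ ^ 2 - 1 := by
  rw [Complex.sq_norm, Complex.normSq_apply]
  simp
  ring

variable {n a b ε : ℕ} {g h : ℤ[X]}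

theorem Num.norm_root (F : Num n a b ε) {x : ℂ}
    (hx : a * x ^ (n + 1) - b * x ^ n + b * x - a = 0) : ‖x‖ = 1 := by
  by_cases h1 : x = 1
  · simp [h1]
  have h6 : ((ε + 1 : ℕ) : ℂ) * a + 1 = n := by exact_mod_cast congrArg (Nat.cast : ℕ → ℂ) F.ha
  have h7 : ((ε + 1 : ℕ) : ℂ) * b = n + 1 := by exact_mod_cast congrArg (Nat.cast : ℕ → ℂ) F.hb
  set P := ∑ j ∈ range n, x ^ j with hP
  have h2 : P * (x - 1) = x ^ n - 1 := geom_sum_mul x n
  have h3 : n * (x ^ n + 1) = (x + 1) * P := by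
    refine mul_left_cancel₀ (sub_ne_zero.2 h1) ?_
    linear_combination ((ε + 1 : ℕ) : ℂ) * hx - (x ^ (n + 1) - 1) * h6 + (x ^ n - x) * h7 -
      (x + 1) * h2
  have h4 : (n : ℂ) * ((x ^ n + 1) * (starRingEnd ℂ) (x ^ n - 1)) =
      ((‖P‖ ^ 2 : ℝ) : ℂ) * ((x + 1) * (starRingEnd ℂ) (x - 1)) := by
    rw [← mul_assoc, h3, ← h2, map_mul]
    push_cast
    rw [← Complex.mul_conj']
    ring
  have h5 := congrArg Complex.re h4
  rw [← Complex.ofReal_natCast, Complex.re_ofReal_mul, Complex.re_ofReal_mul, re_aux, re_aux,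
    norm_pow] at h5
  by_contra hr
  have h8 : ‖x‖ ^ 2 - 1 ≠ 0 := fun h => hr (by
    have := norm_nonneg x
    nlinarith)
  have h9 := geom_sum_mul (‖x‖ ^ 2) n
  have h10 : n * ∑ j ∈ range n, (‖x‖ ^ j) ^ 2 = ‖P‖ ^ 2 := by
    refine mul_right_cancel₀ h8 ?_
    rw [← h5, mul_assoc, ← pow_mul, mul_comm n 2, pow_mul, ← h9]
    simp only [← pow_mul, mul_comm 2]
  refine hr (eq_one_of_sum_sq_le (n := n) (by have := F.hn; omega) ?_)
  rw [h10]
  refine pow_le_pow_left₀ (norm_nonneg _) ((norm_sum_le _ _).trans (le_of_eq ?_)) 2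
  simp only [norm_pow]

theorem Fac.norm_root (F : Fac n a b ε g h) {x : ℂ} (hx : aeval x g = 0) : ‖x‖ = 1 :=
  F.toNum.norm_root (by rw [← F.aeval_fac, hx]; simp)

open ComplexOrder in
theorem hadamard_fin {d : ℕ} (α : Fin d → ℂ) (hα : ∀ i, ‖α i‖ = 1) :
    ∏ i, ∏ j ∈ {i}ᶜ, ‖α i - α j‖ ≤ (d : ℝ) ^ d := by
  rcases Nat.eq_zero_or_pos d with rfl | hd
  · simp
  have hd0 : (0 : ℝ) < d := by exact_mod_cast hd
  set V := Matrix.vandermonde α with hV
  have hG := Matrix.posSemidef_self_mul_conjTranspose V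
  obtain ⟨l, hl, h1, h2⟩ : ∃ l : Fin d → ℝ, (∀ i, 0 ≤ l i) ∧
      (V * V.conjTranspose).det = ∏ i, (l i : ℂ) ∧ (V * V.conjTranspose).trace = ∑ i, (l i : ℂ) :=
    ⟨hG.1.eigenvalues, hG.eigenvalues_nonneg, hG.1.det_eq_prod_eigenvalues,
      hG.1.trace_eq_sum_eigenvalues⟩
  have h3 : (V * V.conjTranspose).trace = ((d * d : ℝ) : ℂ) := by
    have : ∀ i j, V i j * (starRingEnd ℂ) (V i j) = 1 := fun i j => by
      rw [Complex.mul_conj', hV, Matrix.vandermonde_apply, norm_pow, hα]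
      simp
    simp [Matrix.trace, Matrix.mul_apply, this]
  have h4 : ∑ i, l i = d * d := by
    rw [h3] at h2
    exact_mod_cast h2.symm
  have h5 : ∏ i, l i = ‖V.det‖ ^ 2 := by
    rw [Matrix.det_mul, Matrix.det_conjTranspose, Complex.star_def, Complex.mul_conj'] at h1
    exact_mod_cast h1.symm
  have h6 : ‖V.det‖ ^ 2 = ∏ i, ∏ j ∈ {i}ᶜ, ‖α i - α j‖ := by
    rw [← prod_prod_Ioi_mul_eq_prod_prod_off_diag (fun j i => ‖α i - α j‖), hV,
      Matrix.det_vandermonde, norm_prod, ← prod_pow]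
    refine prod_congr rfl fun i _ => ?_
    rw [norm_prod, ← prod_pow]
    refine prod_congr rfl fun j _ => ?_
    rw [sq, norm_sub_rev (α i)]
  rw [← h6, ← h5]
  calc ∏ i, l i ≤ ∏ i, d * Real.exp (l i / d - 1) := by
        refine prod_le_prod (fun i _ => hl i) fun i _ => ?_
        have := Real.add_one_le_exp (l i / d - 1)
        rw [sub_add_cancel, div_le_iff₀ hd0] at this
        linarith
    _ = (d : ℝ) ^ d := by
        rw [prod_mul_distrib, ← Real.exp_sum, sum_sub_distrib, ← sum_div, h4]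
        simp [hd0.ne']

theorem hadamard {ι : Type} [Fintype ι] [DecidableEq ι] (α : ι → ℂ) (hα : ∀ i, ‖α i‖ = 1) :
    ∏ i, ∏ j ∈ univ.erase i, ‖α i - α j‖ ≤ (Fintype.card ι : ℝ) ^ Fintype.card ι := by
  have e := (Fintype.equivFin ι).symm
  refine le_of_eq_of_le ?_ (hadamard_fin (α ∘ e) fun i => hα _)
  refine (Fintype.prod_equiv e _ _ fun i => ?_).symm
  refine prod_equiv e (fun j => by simp) fun j _ => rfl

theorem aeval_derivative_family {K : Type} [Field K] {g : ℤ[X]} {c : K} {ι : Type} [Fintype ι]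
    [DecidableEq ι] {α : ι → K} (hg : g.map (Int.castRingHom K) = C c * ∏ i, (X - C (α i)))
    (i : ι) : aeval (α i) (derivative g) = c * ∏ j ∈ univ.erase i, (α i - α j) := by
  have h := congrArg (fun q => eval (α i) (derivative q)) hg
  simp only [derivative_map, eval_map, derivative_C_mul, derivative_prod_finset, eval_mul, eval_C,
    eval_finsetSum, eval_prod, eval_sub, eval_X, derivative_X_sub_C, mul_one] at h
  refine h.trans ?_
  congr 1
  refine sum_eq_single i (fun j _ hj => ?_) (by simp)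
  exact prod_eq_zero (mem_erase.2 ⟨hj.symm, mem_univ i⟩) (sub_self _)

end Pool.Agent.MP_9c0351_nt

end

section

namespace Pool.Agent.MP_9c0351_nt

open Polynomial Finset

/-- The integer `a ^ deg g * g (b / a)`. -/
def EE (g : ℤ[X]) (a b : ℕ) : ℤ :=
  ∑ i ∈ range (g.natDegree + 1), g.coeff i * b ^ i * a ^ (g.natDegree - i)

/-- The constant `n / 2` for even `n` and `1` for odd `n`. -/
def cz (n ε : ℕ) : ℕ := if ε = 0 then n / 2 else 1

theorem EE_cast (g : ℤ[X]) {a : ℕ} (ha : 0 < a) (b : ℕ) :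
    (EE g a b : ℂ) = a ^ g.natDegree * aeval ((b : ℂ) / a) g := by
  have ha' : (a : ℂ) ≠ 0 := by exact_mod_cast ha.ne'
  rw [aeval_eq_sum_range, mul_sum, EE]
  push_cast
  refine sum_congr rfl fun i hi => ?_
  obtain ⟨k, hk⟩ := Nat.exists_eq_add_of_le (Nat.lt_succ_iff.1 (mem_range.1 hi))
  rw [hk, Nat.add_sub_cancel_left, zsmul_eq_mul, div_pow, pow_add]
  field_simp

theorem EE_mod (g : ℤ[X]) (a b : ℕ) : (a : ℤ) ∣ EE g a b - g.leadingCoeff * b ^ g.natDegree := by
  rw [EE, sum_range_succ, Nat.sub_self, pow_zero, mul_one, coeff_natDegree, add_sub_cancel_right]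
  refine dvd_sum fun i hi => Dvd.dvd.mul_left (dvd_pow_self _ ?_) _
  have := mem_range.1 hi
  omega

variable {n a b ε : ℕ} {g h : ℤ[X]}

theorem Fac.EE_mul (F : Fac n a b ε g h) : EE g a b * EE h a b = cz n ε * a ^ n := by
  have ha' : (a : ℂ) ≠ 0 := by exact_mod_cast F.a_pos.ne'
  have h1 := F.aeval_fac ((b : ℂ) / a)
  have h2 : ((b : ℂ) - a) ^ 3 * ((b : ℂ) + a) ^ ε * (EE g a b * EE h a b) =
      a ^ n * (b ^ 2 - a ^ 2) := by
    have h3 : (a : ℂ) ^ (n + 1) = a ^ 3 * a ^ ε * a ^ g.natDegree * a ^ h.natDegree := by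
      rw [← F.deg, pow_add, pow_add, pow_add]
    have h4 : (a : ℂ) ^ (n + 1) * (a * (b / a) ^ (n + 1) - b * (b / a) ^ n + b * (b / a) - a) =
        a ^ n * (b ^ 2 - a ^ 2) := by
      rw [div_pow, div_pow]
      field_simp
      ring
    rw [← h4, ← h1, h3, EE_cast g F.a_pos, EE_cast h F.a_pos,
      show (b : ℂ) - a = a * (b / a - 1) by field_simp,
      show (b : ℂ) + a = a * (b / a + 1) by field_simp, mul_pow, mul_pow]
    ring
  have h5 : ((b : ℤ) - a) ^ 3 * ((b : ℤ) + a) ^ ε * (EE g a b * EE h a b) =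
      a ^ n * (b ^ 2 - a ^ 2) := by exact_mod_cast h2
  have hn := F.hn
  rcases F.cases with ⟨rfl, e1, e2, e3⟩ | ⟨rfl, e1, e2⟩
  · obtain ⟨k, hk⟩ : ∃ k, n = 2 * k := ⟨n / 2, by omega⟩
    have e4 : cz n 0 = k := by rw [cz, if_pos rfl]; omega
    have e5 : (b : ℤ) = a + 2 := by omega
    have e6 : (a : ℤ) + 1 = 2 * k := by omega
    rw [e4]
    rw [e5] at h5
    refine mul_left_cancel₀ (a := (8 : ℤ)) (by norm_num) ?_
    linear_combination h5 + 4 * (a : ℤ) ^ n * e6
  · have e4 : cz n 1 = 1 := by rw [cz, if_neg one_ne_zero]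
    have e5 : (b : ℤ) = a + 1 := by omega
    rw [e4]
    rw [e5] at h5
    refine mul_left_cancel₀ (a := (2 * a + 1 : ℤ)) (by omega) ?_
    push_cast
    linear_combination h5

theorem Fac.lc_nat (F : Fac n a b ε g h) :
    g.leadingCoeff.natAbs * h.leadingCoeff.natAbs = a := by
  rw [← Int.natAbs_mul, F.lc, Int.natAbs_natCast]

theorem Fac.lc_coprime (F : Fac n a b ε g h) :
    Nat.Coprime g.leadingCoeff.natAbs h.leadingCoeff.natAbs :=
  Nat.coprime_of_dvd fun _ hp h1 h2 =>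
    F.not_dvd_lc hp ⟨Int.natCast_dvd.2 h1, Int.natCast_dvd.2 h2⟩

theorem Num.cz_pos (F : Num n a b ε) : 0 < cz n ε := by
  have := F.hn
  unfold cz
  split_ifs <;> omega

theorem Fac.lc_pos (F : Fac n a b ε g h) : 0 < g.leadingCoeff.natAbs :=
  Int.natAbs_pos.2 (leadingCoeff_ne_zero.2 F.g_ne)

theorem Fac.EE_le (F : Fac n a b ε g h) :
    (EE g a b).natAbs ≤ cz n ε * g.leadingCoeff.natAbs ^ n := by
  have h1 : Nat.Coprime (EE g a b).natAbs h.leadingCoeff.natAbs := by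
    refine Nat.coprime_of_dvd fun p hp h1 h2 => ?_
    have h3 : p ∣ a := F.lc_nat ▸ h2.mul_left _
    have h4 := (Int.natCast_dvd_natCast.2 h3).trans (EE_mod g a b)
    have h5 := (dvd_sub_right (Int.natCast_dvd.2 h1)).1 h4
    rcases (Nat.prime_iff_prime_int.1 hp).dvd_or_dvd h5 with h6 | h6
    · exact F.not_dvd_lc hp ⟨h6, Int.natCast_dvd.2 h2⟩
    · exact F.not_dvd_ab hp h3
        (Int.natCast_dvd_natCast.1 ((Nat.prime_iff_prime_int.1 hp).dvd_of_dvd_pow h6))
  have h2 := congrArg Int.natAbs F.EE_mul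
  rw [Int.natAbs_mul, Int.natAbs_mul, Int.natAbs_pow, Int.natAbs_natCast, Int.natAbs_natCast] at h2
  have h3 : (EE g a b).natAbs ∣
      cz n ε * g.leadingCoeff.natAbs ^ n * h.leadingCoeff.natAbs ^ n := by
    rw [mul_assoc, ← mul_pow, F.lc_nat, ← h2]
    exact Dvd.intro _ rfl
  exact Nat.le_of_dvd (Nat.mul_pos F.cz_pos (pow_pos F.lc_pos n))
    ((h1.pow_right n).dvd_of_dvd_mul_right h3)

theorem norm_intCast' (z : ℤ) : ‖(z : ℂ)‖ = z.natAbs := by
  rw [Complex.norm_intCast, Nat.cast_natAbs, Int.cast_abs]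

theorem Fac.EE_family (F : Fac n a b ε g h) {ι : Type} [Fintype ι] {α : ι → ℂ}
    (hι : Fintype.card ι = g.natDegree)
    (hg : g.map (Int.castRingHom ℂ) = C (g.leadingCoeff : ℂ) * ∏ i, (X - C (α i))) :
    g.leadingCoeff.natAbs * ∏ i, ‖a * α i - b‖ ≤ (cz n ε : ℝ) * g.leadingCoeff.natAbs ^ n := by
  have ha' : (a : ℂ) ≠ 0 := by exact_mod_cast F.a_pos.ne'
  have h1 : (EE g a b : ℂ) = g.leadingCoeff * ∏ i, (b - a * α i) := by
    rw [EE_cast g F.a_pos, aeval_eq_family hg, mul_left_comm, ← hι, ← card_univ, ← prod_const,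
      ← prod_mul_distrib]
    congr 1
    refine prod_congr rfl fun i _ => ?_
    field_simp
  have h2 := congrArg norm h1
  rw [norm_mul, norm_intCast', norm_intCast', norm_prod] at h2
  simp only [norm_sub_rev (b : ℂ)] at h2
  rw [← h2]
  exact_mod_cast F.EE_le

theorem norm_sq_lin {x : ℂ} (hx : ‖x‖ = 1) (a b : ℕ) :
    a * b * ‖1 - x‖ ^ 2 ≤ ‖a * x - b‖ ^ 2 := by
  have h1 : x.re * x.re + x.im * x.im = 1 := by
    rw [← Complex.normSq_apply, Complex.normSq_eq_norm_sq, hx, one_pow]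
  rw [Complex.sq_norm, Complex.sq_norm, Complex.normSq_apply, Complex.normSq_apply]
  simp
  linear_combination sq_nonneg ((a : ℝ) - b) - ((a : ℝ) ^ 2 - a * b) * h1

theorem Fac.size_one (F : Fac n a b ε g h) :
    (a * b) ^ g.natDegree ≤ (cz n ε * g.leadingCoeff.natAbs ^ n) ^ 2 := by
  obtain ⟨ι, _, α, hι, hg⟩ := exists_int_family (K := ℂ) g
  have h1 := F.EE_family hι hg
  have h2 : (1 : ℝ) ≤ g.leadingCoeff.natAbs * ∏ i, ‖1 - α i‖ := by
    have h3 := aeval_eq_family hg 1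
    have h4 : aeval (1 : ℂ) g = (g.eval 1 : ℤ) := by
      rw [← map_one (algebraMap ℤ ℂ), aeval_algebraMap_apply_eq_algebraMap_eval]; simp
    have h5 : g.eval 1 ≠ 0 := fun h5 => by
      have h6 := F.eval_one
      rw [h5, zero_mul, mul_zero] at h6
      exact F.M_pos.ne (by exact_mod_cast h6)
    have h6 := congrArg norm h3
    rw [h4, norm_mul, norm_intCast', norm_intCast', norm_prod] at h6
    rw [← h6]
    exact_mod_cast Int.natAbs_pos.2 h5
  have h3 : ((a * b : ℕ) : ℝ) ^ g.natDegree ≤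
      ((cz n ε : ℝ) * g.leadingCoeff.natAbs ^ n) ^ 2 := by
    refine le_trans ?_ (pow_le_pow_left₀ (by positivity) h1 2)
    refine (le_mul_of_one_le_right (by positivity) (one_le_pow₀ (n := 2) h2)).trans ?_
    rw [mul_pow, mul_pow, mul_left_comm, ← prod_pow, ← prod_pow, ← hι, ← card_univ, ← prod_const,
      ← prod_mul_distrib]
    refine mul_le_mul_of_nonneg_left (prod_le_prod (fun i _ => by positivity) fun i _ => ?_)
      (by positivity)
    push_cast
    exact norm_sq_lin (F.norm_root (aeval_family_root hg i)) a b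
  exact_mod_cast h3

theorem Fac.size_three (F : Fac n a b ε g h) :
    (n * a * b) ^ g.natDegree ≤ (resultant g h).natAbs *
      (2 * g.natDegree * g.leadingCoeff.natAbs ^ 2) ^ g.natDegree *
        (cz n ε * g.leadingCoeff.natAbs ^ (ε + 1)) := by
  classical
  obtain ⟨ι, _, α, hι, hg⟩ := exists_int_family (K := ℂ) g
  have h1 := F.EE_family hι hg
  have hα : ∀ i, ‖α i‖ = 1 := fun i => F.norm_root (aeval_family_root hg i)
  have h2 := hadamard α hα
  have h3 := congrArg norm (resultant_eq_family g h F.g_ne α hg)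
  rw [norm_mul, norm_pow, norm_intCast', norm_intCast', norm_prod] at h3
  have hA : (0 : ℝ) < g.leadingCoeff.natAbs := by exact_mod_cast F.lc_pos
  set A : ℝ := (g.leadingCoeff.natAbs : ℝ) with hAdef
  have h4 : ∀ i, ((n * a * b : ℕ) : ℝ) ≤
      2 * ‖a * α i - b‖ * (A * (∏ j ∈ univ.erase i, ‖α i - α j‖) * ‖aeval (α i) h‖) := by
    intro i
    have h5 := congrArg norm (F.root_id' (aeval_family_root hg i))
    rw [norm_neg, aeval_derivative_family hg, norm_mul, norm_mul, norm_mul (α i), hα, one_mul,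
      norm_mul (_ * _), norm_mul (g.leadingCoeff : ℂ), norm_intCast', norm_prod] at h5
    have h6 : ‖(n * a * b : ℂ)‖ = ((n * a * b : ℕ) : ℝ) := by
      rw [← Complex.norm_natCast]; push_cast; rfl
    rw [← h6, ← h5]
    refine mul_le_mul_of_nonneg_right (mul_le_mul_of_nonneg_right ?_ (norm_nonneg _))
      (by positivity)
    rcases Nat.le_one_iff_eq_zero_or_eq_one.1 F.hε with rfl | rfl
    · rw [pow_zero, mul_one]
      exact (norm_sub_le _ _).trans (by rw [hα]; norm_num)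
    · rw [pow_one, show (α i - 1) * (α i + 1) = α i ^ 2 - 1 by ring]
      exact (norm_sub_le _ _).trans (by rw [norm_pow, hα]; norm_num)
  have h5 := prod_le_prod (s := univ) (fun i _ => by positivity) fun i _ => h4 i
  simp only [prod_mul_distrib, prod_const, card_univ] at h5
  rw [hι] at h5 h2
  have hdeg := F.deg
  have h6 : ((n * a * b : ℕ) : ℝ) ^ g.natDegree ≤ (resultant g h).natAbs *
      (2 * g.natDegree * A ^ 2) ^ g.natDegree * (cz n ε * A ^ (ε + 1)) := by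
    refine h5.trans (le_of_mul_le_mul_left ?_ (pow_pos hA (h.natDegree + 1)))
    have h7 : A ^ (h.natDegree + 1) * ((resultant g h).natAbs *
        (2 * g.natDegree * A ^ 2) ^ g.natDegree * (cz n ε * A ^ (ε + 1))) =
        (2 ^ g.natDegree * A ^ g.natDegree * (resultant g h).natAbs) * ((cz n ε * A ^ n) *
          (g.natDegree : ℝ) ^ g.natDegree) := by
      rw [show n = h.natDegree + 1 + g.natDegree + (ε + 1) by omega]
      ring
    rw [h7, h3]
    refine le_of_eq_of_le ?_ (mul_le_mul_of_nonneg_left (mul_le_mul h1 h2 (by positivity)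
      (by positivity)) (by positivity))
    ring
  rw [hAdef] at h6
  exact_mod_cast h6

end Pool.Agent.MP_9c0351_nt

end
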