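import Mathlib
import Pool.Agent.Mg.F9c0351p.G55b87f

section

namespace Pool.Agent.MP_9c0351_nt

open Finset

/-- The numerical constraints satisfied by a nontrivial factorisation. -/
structure Bad (n a b ε A B d e : ℕ) : Prop extends Num n a b ε where
  hAB : A * B = a
  cop : Nat.Coprime A B
  hd : 1 ≤ d
  hde : d ≤ e
  deg : 3 + ε + d + e = n + 1
  c1 : (a * b) ^ d ≤ (cz n ε * A ^ n) ^ 2
  c2 : (a * b) ^ e ≤ (cz n ε * B ^ n) ^ 2
  c3 : (n * a * b) ^ d ≤ RB n (n * a * b) d * (2 * d * A ^ 2) ^ d * (cz n ε * A ^ (ε + 1))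

variable {n a b ε A B d e : ℕ}

theorem Num.sq_eq (F : Num n a b ε) : (ε + 1) ^ 2 * (a * b) + 1 = n ^ 2 := by
  have h1 := F.ha
  have h2 := F.hb
  have : (ε + 1) ^ 2 * (a * b) = ((ε + 1) * a) * ((ε + 1) * b) := by ring
  rw [this, h2, ← h1]
  ring

theorem Num.cz_sq (F : Num n a b ε) : cz n ε ^ 2 * (a * b) ^ ε ≤ a * b ∧ cz n ε ^ 2 < a * b := by
  have h1 := F.sq_eq
  have hn := F.hn
  rcases F.cases with ⟨rfl, -, -, e3⟩ | ⟨rfl, e1, e2⟩
  · obtain ⟨k, rfl⟩ : ∃ k, n = 2 * k := ⟨n / 2, by omega⟩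
    have e4 : cz (2 * k) 0 = k := by rw [cz, if_pos rfl]; omega
    rw [e4]
    constructor <;> nlinarith
  · have e4 : cz n 1 = 1 := by rw [cz, if_neg one_ne_zero]
    rw [e4]
    constructor <;> nlinarith

theorem Bad.two_le (F : Bad n a b ε A B d e) : 2 ≤ A := by
  by_contra hA
  have h1 : A ^ n ≤ 1 := pow_le_one₀ (Nat.zero_le _) (by omega)
  have h2 := F.c1.trans (Nat.pow_le_pow_left (Nat.mul_le_mul_left _ h1) 2)
  have h3 : a * b ≤ (a * b) ^ d := Nat.le_self_pow (by have := F.hd; omega) _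
  have h4 := F.cz_sq.2
  rw [mul_one] at h2
  omega

theorem final_ineq {N D L l lA lc lN1 ld lN β α y lM lR ε : ℝ} (hN : 1025 ≤ N) (hD : 1 ≤ D)
    (hl : 0.693 ≤ l) (hL : 0 ≤ L) (hε1 : ε ≤ 1) (hα : 0 ≤ α) (hα1 : α ≤ 1)
    (hy : y * D = N + 1) (hy2 : 2 ≤ y) (hlA : l ≤ lA)
    (h1 : N * lA ≤ (D + 3) * L) (h2 : L ≤ 10 / 1024 * l * N) (h3 : L ^ 2 ≤ 100 / 1024 * l ^ 2 * N)
    (h4 : lc ≤ L) (h5 : L + ε * l ≤ lN) (h6 : lM = lN + 2 * L)
    (h7 : lN1 ≤ L + ε * l + 1 / 1024)
    (h8 : D * lM ≤ lR + D * (ld + 2 * lA) + lc + (ε + 1) * lA) (h9 : lR ≤ D * (α * lM + β)) :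
    (2 - 3 * α - 2 / y) * L ≤ β + (α + 1 / 5) * l + (ld - lN1) ∧ 24 / 25 * y * l ≤ L := by
  have hl0 : 0 < l := by linarith
  have hD0 : 0 < D := by linarith
  have hN0 : 0 < N := by linarith
  have a1 : N * l ≤ (D + 3) * L := (mul_le_mul_of_nonneg_left hlA hN0.le).trans h1
  have a2 : (N * l) ^ 2 ≤ (D + 3) ^ 2 * (100 / 1024 * l ^ 2 * N) := by
    refine (pow_le_pow_left₀ (by positivity) a1 2).trans ?_
    rw [mul_pow]
    exact mul_le_mul_of_nonneg_left h3 (by positivity)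
  have a3 : N ≤ (D + 3) ^ 2 * (100 / 1024) := by
    refine le_of_mul_le_mul_right ?_ (show 0 < l ^ 2 * N by positivity)
    linarith
  have a4 : 99 ≤ D := by nlinarith
  have a5 : L * (N * l) ≤ (D + 3) * (100 / 1024 * l ^ 2 * N) := by
    refine (mul_le_mul_of_nonneg_left a1 hL).trans ?_
    rw [mul_left_comm, ← sq]
    exact mul_le_mul_of_nonneg_left h3 (by positivity)
  have a6 : L ≤ (D + 3) * (100 / 1024 * l) := by
    refine le_of_mul_le_mul_right ?_ (show 0 < N * l by positivity)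
    linarith
  have a7 : L ≤ D * (0.101 * l) := by nlinarith
  have a8 : 2 / y = 2 * D / (N + 1) := by
    rw [← hy]
    field_simp
  have hlA0 : 0 ≤ lA := by linarith
  have a9 : (2 * D + 2) * lA ≤ D * (2 / y * L + 0.09 * l) := by
    refine le_of_mul_le_mul_left ?_ hN0
    have b1 : N * ((2 * D + 2) * lA) ≤ (2 * D + 2) * ((D + 3) * L) := by
      rw [mul_left_comm]
      exact mul_le_mul_of_nonneg_left h1 (by positivity)
    have b2 : 2 * D - 1 ≤ N * (2 / y) := by
      have b3 : 2 / y ≤ 1 := by rw [div_le_one (by linarith)]; exact hy2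
      have b4 : (N + 1) * (2 / y) = 2 * D := by rw [a8]; field_simp
      linarith
    have b5 : D * L * (2 * D - 1) ≤ D * L * (N * (2 / y)) :=
      mul_le_mul_of_nonneg_left b2 (by positivity)
    have b6 : (9 * D + 6) * L ≤ (9.1 * D) * (10 / 1024 * l * N) :=
      mul_le_mul (by linarith) h2 hL (by positivity)
    have b7 : 0 ≤ D * l * N := by positivity
    nlinarith
  constructor
  · refine le_of_mul_le_mul_left ?_ hD0
    have b1 : (ε + 1) * lA ≤ 2 * lA := mul_le_mul_of_nonneg_right (by linarith) hlA0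
    have b2 : (1 - α) * (3 * L + ε * l) ≤ (1 - α) * lM :=
      mul_le_mul_of_nonneg_left (by linarith) (by linarith)
    have b3 : α * (ε * l) ≤ α * l :=
      mul_le_mul_of_nonneg_left (mul_le_of_le_one_left hl0.le hε1) hα
    have b4 : (2 - 3 * α) * L + lN1 - α * l - 0.009 * l ≤ (1 - α) * lM := by linarith
    have b5 := mul_le_mul_of_nonneg_left b4 hD0.le
    linarith
  · refine le_of_mul_le_mul_left ?_ hD0
    have b1 : D * (24 / 25 * y * l) = 24 / 25 * (N + 1) * l := by rw [← hy]; ring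
    have b2 : 0 ≤ (D - 99) * L := mul_nonneg (by linarith) hL
    have b3 : 0 ≤ (N - 1025) * l := mul_nonneg (by linarith) hl0.le
    rw [b1]
    linarith

theorem log_le_aux {N : ℝ} (hN : 1024 ≤ N) : Real.log N ≤ 10 / 1024 * Real.log 2 * N ∧
    Real.log N ^ 2 ≤ 100 / 1024 * Real.log 2 ^ 2 * N := by
  have hl := Real.log_two_gt_d9
  set t := √(N / 1024) with ht
  have h1 : t ^ 2 = N / 1024 := Real.sq_sqrt (by positivity)
  have h2 : 1 ≤ t := Real.le_sqrt_of_sq_le (by linarith)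
  have h3 : Real.log N = 10 * Real.log 2 + 2 * Real.log t := by
    have : N = 2 ^ 10 * t ^ 2 := by linarith
    rw [this, Real.log_mul (by positivity) (by positivity), Real.log_pow, Real.log_pow]
    push_cast
    ring
  have h4 := Real.log_le_sub_one_of_pos (show 0 < t by linarith)
  have h5 : Real.log N ≤ 10 * Real.log 2 * t := by nlinarith
  have h6 : 0 ≤ Real.log N := Real.log_nonneg (by linarith)
  constructor
  · have : 10 * Real.log 2 * t ≤ 10 * Real.log 2 * t ^ 2 :=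
      mul_le_mul_of_nonneg_left (by nlinarith) (by positivity)
    rw [h1] at this
    linarith
  · refine (pow_le_pow_left₀ h6 h5 2).trans (le_of_eq ?_)
    rw [mul_pow, h1]
    ring

theorem Bad.main (F : Bad n a b ε A B d e) (hn : 1024 < n) {α β : ℝ} (hα : 0 ≤ α) (hα1 : α ≤ 1)
    (hR : Real.log (RB n (n * a * b) d) ≤ d * (α * Real.log (n * a * b : ℕ) + β)) :
    ∃ L : ℝ, 9 * Real.log 2 ≤ L ∧ 24 / 25 * ((n + 1) / d) * Real.log 2 ≤ L ∧
      (2 - 3 * α - 2 / ((n + 1) / d)) * L ≤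
        β + (α + 1 / 5) * Real.log 2 - Real.log ((n + 1) / d / 2) := by
  have ha : (0 : ℝ) < a := by exact_mod_cast F.a_pos
  have hab : (a : ℝ) < b := by exact_mod_cast F.a_lt_b
  have hb : (0 : ℝ) < b := ha.trans hab
  have hN : (1025 : ℝ) ≤ n := by exact_mod_cast hn
  have hD : (1 : ℝ) ≤ d := by exact_mod_cast F.hd
  have hA : (2 : ℝ) ≤ A := by exact_mod_cast F.two_le
  have hAB : (A : ℝ) * B = a := by exact_mod_cast F.hAB
  have hB : (0 : ℝ) < B := (pos_iff_pos_of_mul_pos (hAB ▸ ha)).1 (by linarith)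
  have hc : (0 : ℝ) < cz n ε := by exact_mod_cast F.cz_pos
  have hR0 : (0 : ℝ) < RB n (n * a * b) d := by
    exact_mod_cast prod_pos fun p hp => pow_pos (Nat.prime_of_mem_primeFactors hp).pos _
  have hdeg : (3 : ℝ) + ε + d + e = n + 1 := by exact_mod_cast F.deg
  have hde : (d : ℝ) ≤ e := by exact_mod_cast F.hde
  have hε : (ε : ℝ) ≤ 1 := by exact_mod_cast F.hε
  have hε0 : (0 : ℝ) ≤ ε := Nat.cast_nonneg ε
  have hsq : ((ε : ℝ) + 1) ^ 2 * (a * b) + 1 = n ^ 2 := by exact_mod_cast F.sq_eq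
  have hl := Real.log_two_gt_d9
  set L := Real.log (a * b) / 2 with hL
  have hlε : Real.log (ε + 1) = ε * Real.log 2 := by
    rcases Nat.le_one_iff_eq_zero_or_eq_one.1 F.hε with rfl | rfl <;> norm_num
  have h9 : 9 * Real.log 2 ≤ L := by
    have h1 : (2 : ℝ) ^ 18 ≤ a * b := by
      have : ((ε : ℝ) + 1) ^ 2 * (a * b) ≤ 4 * (a * b) :=
        mul_le_mul_of_nonneg_right (by nlinarith) (by positivity)
      nlinarith
    have h2 := Real.log_le_log (by positivity) h1
    rw [Real.log_pow] at h2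
    push_cast at h2
    linarith
  have hL0 : 0 ≤ L := by linarith
  have h5 : L + ε * Real.log 2 ≤ Real.log n := by
    have h2 := Real.log_le_log (x := ((ε : ℝ) + 1) ^ 2 * (a * b)) (y := n ^ 2) (by positivity)
      (by linarith)
    rw [Real.log_mul (by positivity) (by positivity), Real.log_pow, Real.log_pow, hlε] at h2
    push_cast at h2
    linarith
  have h7 : Real.log (n + 1) ≤ L + ε * Real.log 2 + 1 / 1024 := by
    have h2 := Real.log_le_log (x := ((n : ℝ) + 1) ^ 2)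
      (y := ((ε : ℝ) + 1) ^ 2 * (a * b) * (1 + 2 / 1024)) (by positivity) (by nlinarith)
    have h3 := Real.log_le_sub_one_of_pos (show (0 : ℝ) < 1 + 2 / 1024 by norm_num)
    rw [Real.log_mul (by positivity) (by positivity), Real.log_mul (by positivity) (by positivity),
      Real.log_pow, Real.log_pow, hlε] at h2
    push_cast at h2
    linarith
  have h4 : Real.log (cz n ε) + ε * L ≤ L := by
    have h1 : (cz n ε : ℝ) ^ 2 * (a * b) ^ ε ≤ a * b := by exact_mod_cast F.cz_sq.1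
    have h2 := Real.log_le_log (by positivity) h1
    rw [Real.log_mul (by positivity) (by positivity), Real.log_pow, Real.log_pow] at h2
    push_cast at h2
    rw [hL]
    linarith
  have h1 : n * Real.log A ≤ (d + 3) * L := by
    have e1 : ((a : ℝ) * b) ^ e ≤ (cz n ε * B ^ n) ^ 2 := by exact_mod_cast F.c2
    have e2 := Real.log_le_log (by positivity) e1
    rw [Real.log_pow, Real.log_pow, Real.log_mul hc.ne' (by positivity), Real.log_pow] at e2
    have e3 : Real.log A + Real.log B ≤ L := by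
      have e4 := Real.log_le_log (x := (A * B : ℝ) ^ 2) (y := a * b) (by positivity)
        (by rw [hAB]; nlinarith)
      rw [Real.log_pow, Real.log_mul (by positivity) hB.ne'] at e4
      push_cast at e4
      linarith
    have e4 := mul_le_mul_of_nonneg_left e3 (Nat.cast_nonneg n)
    have e5 : Real.log (a * b) = 2 * L := by rw [hL]; ring
    have e6 : (e : ℝ) = n - 2 - ε - d := by linarith
    rw [e5, e6] at e2
    push_cast at e2
    linarith
  have h6 : Real.log (n * a * b : ℕ) = Real.log n + 2 * L := by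
    push_cast
    rw [mul_assoc, Real.log_mul (by positivity) (by positivity), hL]
    ring
  have h8 : d * Real.log (n * a * b : ℕ) ≤ Real.log (RB n (n * a * b) d) +
      d * (Real.log (2 * d) + 2 * Real.log A) + Real.log (cz n ε) + (ε + 1) * Real.log A := by
    have e1 : ((n * a * b : ℕ) : ℝ) ^ d ≤ RB n (n * a * b) d * (2 * d * A ^ 2) ^ d *
        (cz n ε * A ^ (ε + 1)) := by exact_mod_cast F.c3
    have e2 := Real.log_le_log (by exact_mod_cast pow_pos F.M_pos d) e1
    rw [Real.log_pow, Real.log_mul (by positivity) (by positivity),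
      Real.log_mul (by positivity) (by positivity), Real.log_pow,
      Real.log_mul (x := 2 * d) (by positivity) (by positivity), Real.log_pow,
      Real.log_mul hc.ne' (by positivity), Real.log_pow] at e2
    push_cast at e2 ⊢
    linarith
  obtain ⟨l1, l2⟩ := log_le_aux (N := n) (by linarith)
  have l3 : L ≤ Real.log n := by nlinarith
  obtain ⟨r1, r2⟩ := final_ineq (y := (n + 1) / d) hN hD (by linarith) hL0 hε hα hα1
    (by field_simp) (by rw [le_div_iff₀ (by linarith)]; linarith)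
    (Real.log_le_log two_pos hA) h1 (l3.trans l1) ((pow_le_pow_left₀ hL0 l3 2).trans l2)
    (by nlinarith) h5 h6 h7 h8 hR
  refine ⟨L, h9, r2, r1.trans (le_of_eq ?_)⟩
  rw [div_div, mul_comm (d : ℝ), Real.log_div (by positivity) (by positivity)]
  ring

/-- The test for an interval of values of `(n + 1) / d`. -/
def okInt (Y1 Y2 α : ℚ) (u : ℕ) : Prop :=
  0 < Y1 ∧ 0 ≤ Y2 ∧ α ≤ 1 ∧ Y2 / 2 ^ 9 ≤ α ∧ min 1 (Y2 / 23) ≤ 2 * α ∧ Y2 / 23 ^ 2 ≤ α ∧
    2 ^ u ≤ (Y1 / 2) ^ 16 ∧ 0 ≤ 2 - 3 * α - 2 / Y1 ∧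
    beta Y2 α + α + 1 / 5 - u / 16 < (2 - 3 * α - 2 / Y1) * max 9 (24 / 25 * Y1)

instance (Y1 Y2 α : ℚ) (u : ℕ) : Decidable (okInt Y1 Y2 α u) := by
  unfold okInt
  infer_instance

theorem Bad.interval (F : Bad n a b ε A B d e) (hn : 1024 < n) {Y1 Y2 α : ℚ} {u : ℕ}
    (H : okInt Y1 Y2 α u) (h1 : Y1 * d ≤ (n + 1 : ℕ)) (h2 : ((n + 1 : ℕ) : ℚ) ≤ Y2 * d) :
    False := by
  obtain ⟨k1, k2, k3, k4, k5, k6, k7, k8, k9⟩ := H
  have hα : 0 ≤ α := le_trans (by positivity) k6
  obtain ⟨L, l1, l2, l3⟩ := F.main hn (by exact_mod_cast hα) (by exact_mod_cast k3)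
    (log_RB_le_beta h2 k2 k4 k5 k6)
  have hD : (0 : ℝ) < d := by exact_mod_cast F.hd
  have hY : (0 : ℝ) < Y1 := by exact_mod_cast k1
  have hy : (Y1 : ℝ) ≤ (n + 1) / d := by
    rw [le_div_iff₀ hD]
    exact_mod_cast h1
  have hl := Real.log_pos one_lt_two
  generalize ((n : ℝ) + 1) / d = y at l2 l3 hy
  have e1 : (u : ℝ) / 16 * Real.log 2 ≤ Real.log (y / 2) := by
    have e2 : (2 : ℝ) ^ u ≤ (Y1 / 2) ^ 16 := by exact_mod_cast k7
    have e3 := Real.log_le_log (by positivity)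
      (e2.trans (pow_le_pow_left₀ (by positivity) (show (Y1 : ℝ) / 2 ≤ y / 2 by linarith) 16))
    rw [Real.log_pow, Real.log_pow] at e3
    push_cast at e3
    linarith
  have e2 : ((max 9 (24 / 25 * Y1) : ℚ) : ℝ) * Real.log 2 ≤ L := by
    push_cast
    rw [max_mul_of_nonneg _ _ hl.le]
    refine max_le l1 (le_trans ?_ l2)
    exact mul_le_mul_of_nonneg_right (by linarith) hl.le
  have e3 : (0 : ℝ) ≤ 2 - 3 * α - 2 / Y1 := by exact_mod_cast k8
  have e4 : (beta Y2 α : ℝ) + α + 1 / 5 - u / 16 <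
      (2 - 3 * α - 2 / Y1) * (max 9 (24 / 25 * Y1) : ℚ) := by
    have := (Rat.cast_lt (K := ℝ)).2 k9
    push_cast at this ⊢
    exact this
  have e5 := mul_lt_mul_of_pos_right e4 hl
  have e6 := mul_le_mul_of_nonneg_left e2 e3
  have e7 : 2 / y * L ≤ 2 / Y1 * L :=
    mul_le_mul_of_nonneg_right (div_le_div_of_nonneg_left (by norm_num) hY hy) (by linarith)
  linarith

theorem Bad.tail (F : Bad n a b ε A B d e) (hn : 1024 < n) (h1 : (256 : ℚ) * d ≤ (n + 1 : ℕ)) :
    False := by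
  have hD : (0 : ℚ) < d := by exact_mod_cast F.hd
  have hY : (256 : ℚ) ≤ (n + 1 : ℕ) / d := by rwa [le_div_iff₀ hD]
  have h0 := log_RB_le_tail (M := n * a * b) (div_mul_cancel₀ _ hD.ne').ge hY
  obtain ⟨L, l1, l2, l3⟩ := F.main hn (by norm_num) (by norm_num) h0
  have hy : (256 : ℝ) ≤ (n + 1) / d := by
    have := (Rat.cast_le (K := ℝ)).2 hY
    push_cast at this
    exact this
  push_cast at l3
  generalize ((n : ℝ) + 1) / d = y at l2 l3 hy
  have hl := Real.log_two_gt_d9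
  have hl' := Real.log_two_lt_d9
  set t := √(2 * y) with ht
  have t1 : t ^ 2 = 2 * y := Real.sq_sqrt (by positivity)
  have t2 : 22.6 ≤ t := Real.le_sqrt_of_sq_le (by linarith)
  have t3 : Real.log t ≤ 5 * Real.log 2 + t / 32 - 1 := by
    have e1 := Real.log_le_sub_one_of_pos (show 0 < t / 2 ^ 5 by positivity)
    rw [Real.log_div (by positivity) (by positivity), Real.log_pow] at e1
    push_cast at e1
    linarith
  have t4 := mul_le_mul_of_nonneg_left t3 (show 0 ≤ t by linarith)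
  have t5 : 0 ≤ Real.log (y / 2) := Real.log_nonneg (by linarith)
  have t6 : 2 / y ≤ 1 / 128 := by rw [div_le_iff₀ (by linarith)]; linarith
  have t7 := mul_le_mul_of_nonneg_right t6 (show 0 ≤ L by linarith)
  have t8 : y * 0.693 ≤ y * Real.log 2 := mul_le_mul_of_nonneg_left (by linarith) (by linarith)
  have t9 : t * Real.log 2 ≤ t * 0.694 := mul_le_mul_of_nonneg_left (by linarith) (by linarith)
  nlinarith

theorem Bad.large (F : Bad n a b ε A B d e) (hn : 1024 < n) : False := by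
  have h0 : (2 : ℚ) * d ≤ (n + 1 : ℕ) := by
    have := F.deg
    have := F.hde
    exact_mod_cast (by omega : 2 * d ≤ n + 1)
  have hD : (0 : ℚ) ≤ d := Nat.cast_nonneg d
  rcases le_total ((n + 1 : ℕ) : ℚ) (5 / 2 * d) with h1 | h1
  · exact F.interval hn (α := 1 / 9) (u := 0) (by decide +kernel) h0 h1
  rcases le_total ((n + 1 : ℕ) : ℚ) (7 / 2 * d) with h2 | h2
  · exact F.interval hn (α := 1 / 6) (u := 5) (by decide +kernel) h1 h2
  rcases le_total ((n + 1 : ℕ) : ℚ) (4 * d) with h3 | h3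
  · exact F.interval hn (Y1 := 3) (α := 1 / 5) (u := 9) (by decide +kernel) (by linarith) h3
  rcases le_total ((n + 1 : ℕ) : ℚ) (6 * d) with h4 | h4
  · exact F.interval hn (α := 1 / 4) (u := 16) (by decide +kernel) h3 h4
  rcases le_total ((n + 1 : ℕ) : ℚ) (8 * d) with h5 | h5
  · exact F.interval hn (α := 1 / 3) (u := 25) (by decide +kernel) h4 h5
  rcases le_total ((n + 1 : ℕ) : ℚ) (12 * d) with h6 | h6
  · exact F.interval hn (α := 1 / 2) (u := 32) (by decide +kernel) h5 h6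
  rcases le_total ((n + 1 : ℕ) : ℚ) (16 * d) with h7 | h7
  · exact F.interval hn (α := 1 / 2) (u := 41) (by decide +kernel) h6 h7
  rcases le_total ((n + 1 : ℕ) : ℚ) (32 * d) with h8 | h8
  · exact F.interval hn (α := 1 / 2) (u := 48) (by decide +kernel) h7 h8
  rcases le_total ((n + 1 : ℕ) : ℚ) (128 * d) with h9 | h9
  · exact F.interval hn (α := 1 / 2) (u := 64) (by decide +kernel) h8 h9
  rcases le_total ((n + 1 : ℕ) : ℚ) (256 * d) with h10 | h10
  · exact F.interval hn (Y1 := 64) (α := 1 / 2) (u := 80) (by decide +kernel) (by linarith) h10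
  exact F.tail hn h10

end Pool.Agent.MP_9c0351_nt

end

section

namespace Pool.Agent.MP_9c0351_nt

open Finset

/-- The exponent of `p` in `M`, for small `M`. -/
def vv (p M : ℕ) : ℕ := ((Ico 1 32).filter fun i => p ^ i ∣ M).card

/-- Computable form of the bound `RB`. -/
def RB' (n M d : ℕ) : ℕ :=
  ([2, 3, 5, 7, 11, 13, 17, 19, 23, 29, 31].map fun p => p ^ cexp n (vv p M) p d).prod

/-- The test for given `n` and leading coefficient `A`. -/
def chkA (n a b ε A : ℕ) : Bool :=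
  (List.range' (n - 2 - ε - Nat.log (a * b) ((cz n ε * (a / A) ^ n) ^ 2))
    (Nat.log (a * b) ((cz n ε * A ^ n) ^ 2) + 1 -
      (n - 2 - ε - Nat.log (a * b) ((cz n ε * (a / A) ^ n) ^ 2)))).all fun d =>
    decide (d = 0) || decide (n - 2 - ε < 2 * d) ||
      decide (RB' n (n * a * b) d * (2 * d * A ^ 2) ^ d * (cz n ε * A ^ (ε + 1)) < (n * a * b) ^ d)

/-- The test for given `n`. -/
def chkN (n : ℕ) : Bool :=
  (List.range ((n - 1) / (n % 2 + 1) + 1)).all fun A =>
    (n - 1) / (n % 2 + 1) % A != 0 || Nat.gcd A ((n - 1) / (n % 2 + 1) / A) != 1 ||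
      chkA n ((n - 1) / (n % 2 + 1)) ((n + 1) / (n % 2 + 1)) (n % 2) A

variable {n a b ε A B d e : ℕ}

theorem Num.sq_dvd (F : Num n a b ε) {p : ℕ} (hp : p.Prime) (h : p ^ 2 ∣ n * a * b) :
    p ^ 2 ≤ n + 1 := by
  have hc : ∀ {z : ℕ}, ¬ p ∣ z → Nat.Coprime (p ^ 2) z := fun hz =>
    Nat.Coprime.pow_left 2 ((Nat.Prime.coprime_iff_not_dvd hp).2 hz)
  have h1 := F.a_pos
  have h2 := F.a_lt_b
  have h3 := F.hn
  have h4 : b ≤ n + 1 := by rcases F.cases with h | h <;> omega
  by_cases hb : p ∣ b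
  · rw [mul_comm, ← mul_assoc] at h
    have h5 := (hc fun ha => F.not_dvd_ab hp ha hb).dvd_of_dvd_mul_right h
    have h6 := (hc fun hn => F.not_dvd_nb hp hn hb).dvd_of_dvd_mul_right h5
    exact (Nat.le_of_dvd (by omega) h6).trans h4
  · have h5 := (hc hb).dvd_of_dvd_mul_right h
    by_cases ha : p ∣ a
    · have h6 := (hc fun hn => F.not_dvd_na hp hn ha).dvd_of_dvd_mul_left h5
      exact (Nat.le_of_dvd h1 h6).trans (by omega)
    · have h6 := (hc ha).dvd_of_dvd_mul_right h5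
      exact (Nat.le_of_dvd (by omega) h6).trans (by omega)

theorem Num.RB_le (F : Num n a b ε) (hn : n ≤ 1024) :
    RB n (n * a * b) d ≤ RB' n (n * a * b) d := by
  have hM := F.M_pos
  have h1 : n * a * b < 2 ^ 32 := by
    have h2 := F.a_lt_b
    have h4 : b ≤ n + 1 := by rcases F.cases with h | h <;> omega
    calc n * a * b ≤ 1024 * 1025 * 1025 :=
          Nat.mul_le_mul (Nat.mul_le_mul hn (by omega)) (by omega)
      _ < 2 ^ 32 := by norm_num
  rw [RB', ← List.prod_toFinset _ (by decide), RB]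
  set L := [2, 3, 5, 7, 11, 13, 17, 19, 23, 29, 31].toFinset with hL
  have hLp : ∀ p ∈ L, p.Prime := by decide
  rw [← prod_filter_mul_prod_filter_not _ (· ∈ L), prod_eq_one (s := filter (fun p => ¬ p ∈ L) _),
    mul_one]
  · refine le_trans (le_of_eq (prod_congr rfl fun p hp => ?_))
      (prod_le_prod_of_subset_of_one_le' (fun p hp => (mem_filter.1 hp).2) fun p hp _ =>
        Nat.one_le_pow _ _ (hLp p hp).pos)
    have hp' := hLp p (mem_filter.1 hp).2
    rw [vv, Nat.factorization_eq_card_pow_dvd_of_lt hp' hM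
      (h1.trans_le (Nat.pow_le_pow_left hp'.two_le 32))]
  · intro p hp
    obtain ⟨h2, h3⟩ := mem_filter.1 hp
    have hp' := Nat.prime_of_mem_primeFactors h2
    have h4 : 33 ≤ p := not_lt.1 fun h4 => h3 (by
      interval_cases p <;> first | decide | exact absurd hp' (by decide))
    have h5 : (n * a * b).factorization p ≤ 1 := not_lt.1 fun h5 => by
      have h6 := F.sq_dvd hp' ((hp'.pow_dvd_iff_le_factorization hM.ne').2 h5)
      nlinarith
    rw [cexp, if_neg (by omega), show (n * a * b).factorization p - 1 = 0 by omega, sum_range_zero,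
      pow_zero]

theorem Bad.small (F : Bad n a b ε A B d e) (hn : n ≤ 1024) (h : chkN n = true) : False := by
  have h1 : n % 2 = ε ∧ (n - 1) / (ε + 1) = a ∧ (n + 1) / (ε + 1) = b := by
    rcases F.cases with ⟨rfl, h⟩ | ⟨rfl, h⟩ <;> omega
  have hA := F.two_le
  have ha := F.a_pos
  have hab := F.a_lt_b
  have hB : a / A = B := by rw [← F.hAB, Nat.mul_div_cancel_left _ (by omega)]
  have h2 : A ∣ a := Dvd.intro _ F.hAB
  rw [chkN, h1.1, h1.2.1, h1.2.2, List.all_eq_true] at h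
  have h3 := h A (List.mem_range.2 (Nat.lt_succ_of_le (Nat.le_of_dvd ha h2)))
  rw [Nat.mod_eq_zero_of_dvd h2, hB, F.cop] at h3
  simp only [bne_self_eq_false, Bool.false_or] at h3
  rw [chkA, hB, List.all_eq_true] at h3
  have h4 : 1 < a * b := by nlinarith
  have h5 := Nat.le_log_of_pow_le h4 F.c1
  have h6 := Nat.le_log_of_pow_le h4 F.c2
  have h7 := F.deg
  have h8 := F.hd
  have h9 := F.hde
  have h10 := h3 d (List.mem_range'_1.2 (by omega))
  simp only [Bool.or_eq_true, decide_eq_true_eq] at h10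
  rcases h10 with (h10 | h10) | h10
  · omega
  · omega
  · exact h10.not_ge (F.c3.trans (Nat.mul_le_mul_right _ (Nat.mul_le_mul_right _ (F.RB_le hn))))

/-- The test succeeds on an interval. -/
def Ok (lo hi : ℕ) : Prop := ∀ n, lo ≤ n → n < hi → chkN n = true

theorem Ok.of (lo len hi : ℕ) (h : (List.range' lo len).all chkN = true) (e : lo + len = hi) :
    Ok lo hi :=
  fun n h1 h2 => List.all_eq_true.1 h n (List.mem_range'_1.2 ⟨h1, e ▸ h2⟩)

theorem Ok.trans {x y z : ℕ} (h1 : Ok x y) (h2 : Ok y z) : Ok x z := fun n h3 h4 =>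
  (lt_or_ge n y).elim (h1 n h3) fun h5 => h2 n h5 h4

end Pool.Agent.MP_9c0351_nt

end
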