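import Mathlib
import Pool.Agent.Mg.F9c0351p.Gd7a854

namespace Pool.Agent.MP_9c0351_nt

theorem ok651 : Ok 651 659 := Ok.of 651 8 659 (by decide +kernel) rfl

theorem ok659 : Ok 659 667 := Ok.of 659 8 667 (by decide +kernel) rfl

theorem ok667 : Ok 667 675 := Ok.of 667 8 675 (by decide +kernel) rfl

theorem ok675 : Ok 675 683 := Ok.of 675 8 683 (by decide +kernel) rfl

theorem ok683 : Ok 683 691 := Ok.of 683 8 691 (by decide +kernel) rfl

theorem ok691 : Ok 691 699 := Ok.of 691 8 699 (by decide +kernel) rfl

theorem ok699 : Ok 699 707 := Ok.of 699 8 707 (by decide +kernel) rfl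

theorem ok707 : Ok 707 715 := Ok.of 707 8 715 (by decide +kernel) rfl

theorem ok715 : Ok 715 723 := Ok.of 715 8 723 (by decide +kernel) rfl

theorem ok723 : Ok 723 731 := Ok.of 723 8 731 (by decide +kernel) rfl

theorem ok731 : Ok 731 739 := Ok.of 731 8 739 (by decide +kernel) rfl

theorem ok739 : Ok 739 747 := Ok.of 739 8 747 (by decide +kernel) rfl

theorem ok747 : Ok 747 755 := Ok.of 747 8 755 (by decide +kernel) rfl

theorem ok755 : Ok 755 763 := Ok.of 755 8 763 (by decide +kernel) rfl

theorem ok763 : Ok 763 771 := Ok.of 763 8 771 (by decide +kernel) rfl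

theorem ok771 : Ok 771 779 := Ok.of 771 8 779 (by decide +kernel) rfl

theorem ok779 : Ok 779 787 := Ok.of 779 8 787 (by decide +kernel) rfl

theorem ok787 : Ok 787 795 := Ok.of 787 8 795 (by decide +kernel) rfl

theorem ok795 : Ok 795 803 := Ok.of 795 8 803 (by decide +kernel) rfl

theorem ok803 : Ok 803 811 := Ok.of 803 8 811 (by decide +kernel) rfl

theorem ok811 : Ok 811 819 := Ok.of 811 8 819 (by decide +kernel) rfl

theorem ok819 : Ok 819 827 := Ok.of 819 8 827 (by decide +kernel) rfl

theorem ok827 : Ok 827 835 := Ok.of 827 8 835 (by decide +kernel) rfl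

theorem ok835 : Ok 835 843 := Ok.of 835 8 843 (by decide +kernel) rfl

theorem ok843 : Ok 843 851 := Ok.of 843 8 851 (by decide +kernel) rfl

theorem chk3 : Ok 651 851 :=
  ((((((((((((((((((((((((ok651.trans ok659).trans ok667).trans ok675).trans ok683).trans
  ok691).trans ok699).trans ok707).trans ok715).trans ok723).trans ok731).trans ok739).trans
  ok747).trans ok755).trans ok763).trans ok771).trans ok779).trans ok787).trans ok795).trans
  ok803).trans ok811).trans ok819).trans ok827).trans ok835).trans ok843)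

end Pool.Agent.MP_9c0351_nt
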