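import Mathlib
import Pool.Agent.Mg.F9c0351p.Gd7a854

namespace Pool.Agent.MP_9c0351_nt

theorem ok4 : Ok 4 44 := Ok.of 4 40 44 (by decide +kernel) rfl

theorem ok44 : Ok 44 84 := Ok.of 44 40 84 (by decide +kernel) rfl

theorem ok84 : Ok 84 124 := Ok.of 84 40 124 (by decide +kernel) rfl

theorem ok124 : Ok 124 158 := Ok.of 124 34 158 (by decide +kernel) rfl

theorem ok158 : Ok 158 186 := Ok.of 158 28 186 (by decide +kernel) rfl

theorem ok186 : Ok 186 211 := Ok.of 186 25 211 (by decide +kernel) rfl

theorem ok211 : Ok 211 233 := Ok.of 211 22 233 (by decide +kernel) rfl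

theorem ok233 : Ok 233 254 := Ok.of 233 21 254 (by decide +kernel) rfl

theorem ok254 : Ok 254 273 := Ok.of 254 19 273 (by decide +kernel) rfl

theorem ok273 : Ok 273 291 := Ok.of 273 18 291 (by decide +kernel) rfl

theorem ok291 : Ok 291 308 := Ok.of 291 17 308 (by decide +kernel) rfl

theorem ok308 : Ok 308 324 := Ok.of 308 16 324 (by decide +kernel) rfl

theorem ok324 : Ok 324 340 := Ok.of 324 16 340 (by decide +kernel) rfl

theorem ok340 : Ok 340 355 := Ok.of 340 15 355 (by decide +kernel) rfl

theorem ok355 : Ok 355 369 := Ok.of 355 14 369 (by decide +kernel) rfl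

theorem ok369 : Ok 369 383 := Ok.of 369 14 383 (by decide +kernel) rfl

theorem ok383 : Ok 383 396 := Ok.of 383 13 396 (by decide +kernel) rfl

theorem ok396 : Ok 396 401 := Ok.of 396 5 401 (by decide +kernel) rfl

theorem chk1 : Ok 4 401 :=
  (((((((((((((((((ok4.trans ok44).trans ok84).trans ok124).trans ok158).trans ok186).trans
  ok211).trans ok233).trans ok254).trans ok273).trans ok291).trans ok308).trans ok324).trans
  ok340).trans ok355).trans ok369).trans ok383).trans ok396)

end Pool.Agent.MP_9c0351_nt
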