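import Mathlib
import Pool.Agent.Mg.F9c0351p.Gd7a854

namespace Pool.Agent.MP_9c0351_nt

theorem ok401 : Ok 401 414 := Ok.of 401 13 414 (by decide +kernel) rfl

theorem ok414 : Ok 414 426 := Ok.of 414 12 426 (by decide +kernel) rfl

theorem ok426 : Ok 426 438 := Ok.of 426 12 438 (by decide +kernel) rfl

theorem ok438 : Ok 438 450 := Ok.of 438 12 450 (by decide +kernel) rfl

theorem ok450 : Ok 450 462 := Ok.of 450 12 462 (by decide +kernel) rfl

theorem ok462 : Ok 462 473 := Ok.of 462 11 473 (by decide +kernel) rfl

theorem ok473 : Ok 473 484 := Ok.of 473 11 484 (by decide +kernel) rfl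

theorem ok484 : Ok 484 495 := Ok.of 484 11 495 (by decide +kernel) rfl

theorem ok495 : Ok 495 506 := Ok.of 495 11 506 (by decide +kernel) rfl

theorem ok506 : Ok 506 516 := Ok.of 506 10 516 (by decide +kernel) rfl

theorem ok516 : Ok 516 526 := Ok.of 516 10 526 (by decide +kernel) rfl

theorem ok526 : Ok 526 536 := Ok.of 526 10 536 (by decide +kernel) rfl

theorem ok536 : Ok 536 546 := Ok.of 536 10 546 (by decide +kernel) rfl

theorem ok546 : Ok 546 556 := Ok.of 546 10 556 (by decide +kernel) rfl

theorem ok556 : Ok 556 565 := Ok.of 556 9 565 (by decide +kernel) rfl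

theorem ok565 : Ok 565 574 := Ok.of 565 9 574 (by decide +kernel) rfl

theorem ok574 : Ok 574 583 := Ok.of 574 9 583 (by decide +kernel) rfl

theorem ok583 : Ok 583 592 := Ok.of 583 9 592 (by decide +kernel) rfl

theorem ok592 : Ok 592 601 := Ok.of 592 9 601 (by decide +kernel) rfl

theorem ok601 : Ok 601 610 := Ok.of 601 9 610 (by decide +kernel) rfl

theorem ok610 : Ok 610 619 := Ok.of 610 9 619 (by decide +kernel) rfl

theorem ok619 : Ok 619 627 := Ok.of 619 8 627 (by decide +kernel) rfl

theorem ok627 : Ok 627 635 := Ok.of 627 8 635 (by decide +kernel) rfl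

theorem ok635 : Ok 635 643 := Ok.of 635 8 643 (by decide +kernel) rfl

theorem ok643 : Ok 643 651 := Ok.of 643 8 651 (by decide +kernel) rfl

theorem chk2 : Ok 401 651 :=
  ((((((((((((((((((((((((ok401.trans ok414).trans ok426).trans ok438).trans ok450).trans
  ok462).trans ok473).trans ok484).trans ok495).trans ok506).trans ok516).trans ok526).trans
  ok536).trans ok546).trans ok556).trans ok565).trans ok574).trans ok583).trans ok592).trans
  ok601).trans ok610).trans ok619).trans ok627).trans ok635).trans ok643)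

end Pool.Agent.MP_9c0351_nt
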