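import Mathlib
import Pool.Agent.Mg.F9c0351p.Gd7a854

namespace Pool.Agent.MP_9c0351_nt

theorem ok851 : Ok 851 859 := Ok.of 851 8 859 (by decide +kernel) rfl

theorem ok859 : Ok 859 867 := Ok.of 859 8 867 (by decide +kernel) rfl

theorem ok867 : Ok 867 875 := Ok.of 867 8 875 (by decide +kernel) rfl

theorem ok875 : Ok 875 883 := Ok.of 875 8 883 (by decide +kernel) rfl

theorem ok883 : Ok 883 891 := Ok.of 883 8 891 (by decide +kernel) rfl

theorem ok891 : Ok 891 899 := Ok.of 891 8 899 (by decide +kernel) rfl

theorem ok899 : Ok 899 907 := Ok.of 899 8 907 (by decide +kernel) rfl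

theorem ok907 : Ok 907 915 := Ok.of 907 8 915 (by decide +kernel) rfl

theorem ok915 : Ok 915 923 := Ok.of 915 8 923 (by decide +kernel) rfl

theorem ok923 : Ok 923 931 := Ok.of 923 8 931 (by decide +kernel) rfl

theorem ok931 : Ok 931 939 := Ok.of 931 8 939 (by decide +kernel) rfl

theorem ok939 : Ok 939 947 := Ok.of 939 8 947 (by decide +kernel) rfl

theorem ok947 : Ok 947 955 := Ok.of 947 8 955 (by decide +kernel) rfl

theorem ok955 : Ok 955 963 := Ok.of 955 8 963 (by decide +kernel) rfl

theorem ok963 : Ok 963 971 := Ok.of 963 8 971 (by decide +kernel) rfl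

theorem ok971 : Ok 971 979 := Ok.of 971 8 979 (by decide +kernel) rfl

theorem ok979 : Ok 979 987 := Ok.of 979 8 987 (by decide +kernel) rfl

theorem ok987 : Ok 987 995 := Ok.of 987 8 995 (by decide +kernel) rfl

theorem ok995 : Ok 995 1003 := Ok.of 995 8 1003 (by decide +kernel) rfl

theorem ok1003 : Ok 1003 1011 := Ok.of 1003 8 1011 (by decide +kernel) rfl

theorem ok1011 : Ok 1011 1019 := Ok.of 1011 8 1019 (by decide +kernel) rfl

theorem ok1019 : Ok 1019 1025 := Ok.of 1019 6 1025 (by decide +kernel) rfl

theorem chk4 : Ok 851 1025 :=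
  (((((((((((((((((((((ok851.trans ok859).trans ok867).trans ok875).trans ok883).trans
  ok891).trans ok899).trans ok907).trans ok915).trans ok923).trans ok931).trans ok939).trans
  ok947).trans ok955).trans ok963).trans ok971).trans ok979).trans ok987).trans ok995).trans
  ok1003).trans ok1011).trans ok1019)

end Pool.Agent.MP_9c0351_nt
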