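import Mathlib
import Pool.Agent.Mg.F9c0351p.G42807b
import Pool.Agent.Mg.F9c0351p.G6334e7
import Pool.Agent.Mg.F9c0351p.G336f71
import Pool.Agent.Mg.F9c0351p.G98e846

namespace Pool.Agent.MP_9c0351_nt

open Polynomial Finset

variable {n a b ε A B d e : ℕ} {g h : ℤ[X]}

theorem Bad.false (F : Bad n a b ε A B d e) : False := by
  rcases lt_or_ge 1024 n with hn | hn
  · exact F.large hn
  exact F.small hn ((((chk1.trans chk2).trans chk3).trans chk4) n F.hn (by omega))

theorem Fac.false_of_le (F : Fac n a b ε g h) (hle : g.natDegree ≤ h.natDegree) : False := by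
  refine Bad.false (A := g.leadingCoeff.natAbs) (B := h.leadingCoeff.natAbs)
    { F.toNum with
      hAB := F.lc_nat, cop := F.lc_coprime, hd := F.hd, hde := hle, deg := F.deg,
      c1 := F.size_one, c2 := F.symm.size_one, c3 := F.size_three.trans ?_ }
  refine Nat.mul_le_mul_right _ (Nat.mul_le_mul_right _ (Nat.le_of_dvd ?_ F.resultant_dvd))
  exact prod_pos fun p hp => pow_pos (Nat.prime_of_mem_primeFactors hp).pos _

theorem Fac.false (F : Fac n a b ε g h) : False := by
  rcases le_total g.natDegree h.natDegree with hle | hle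
  exacts [F.false_of_le hle, F.symm.false_of_le hle]

theorem Num.TT_ne (F : Num n a b ε) : TT n a b ≠ 0 := fun h => by
  have := F.natDegree_TT
  rw [h] at this
  simp at this

theorem Num.exists_quot (F : Num n a b ε) :
    ∃ f : ℤ[X], (X - 1) ^ 3 * (X + 1) ^ ε * f = TT n a b := by
  have h1 : 2 < (TT n a b).rootMultiplicity 1 := by
    rw [lt_rootMultiplicity_iff_isRoot_iterate_derivative F.TT_ne]
    obtain ⟨s, rfl⟩ : ∃ s, n = s + 2 := ⟨n - 2, by have := F.hn; omega⟩
    have h2 : ((ε : ℤ) + 1) * a + 1 = s + 2 := by exact_mod_cast F.ha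
    have h3 : ((ε : ℤ) + 1) * b = s + 2 + 1 := by exact_mod_cast F.hb
    have h4 : (a : ℤ) * (s + 3) = b * (s + 1) := by
      refine mul_left_cancel₀ (a := (ε : ℤ) + 1) (by positivity) ?_
      linear_combination (s + 3) * h2 - (s + 1) * h3
    intro m hm
    interval_cases m
    · simp [TT]
    · simp [TT]
      linear_combination h4
    · simp [TT]
      linear_combination (s + 2) * h4
  obtain ⟨q, hq⟩ := (pow_dvd_pow _ h1).trans (pow_rootMultiplicity_dvd (TT n a b) 1)
  rcases F.cases with ⟨rfl, -⟩ | ⟨rfl, e1, e2⟩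
  · exact ⟨q, by rw [hq]; simp⟩
  · have h2 : q.IsRoot (-1) := by
      have h3 := congrArg (aeval (-1 : ℤ)) hq
      have h4 : Odd n := ⟨a, by omega⟩
      rw [aeval_TT, pow_succ (-1 : ℤ) n, h4.neg_one_pow] at h3
      simp [coe_aeval_eq_eval] at h3
      exact h3
    obtain ⟨f, hf⟩ := dvd_iff_isRoot.2 h2
    exact ⟨f, by rw [hq, hf]; simp [mul_assoc]⟩

theorem Num.isPrimitive_TT (F : Num n a b ε) : (TT n a b).IsPrimitive := by
  intro r hr
  have h2 := (C_dvd_iff_dvd_coeff _ _).1 hr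
  have h3 := h2 (n + 1)
  have h4 := h2 1
  rw [(coeff_TT F.hn).1] at h3
  rw [(coeff_TT F.hn).2.2.1] at h4
  rw [Int.isUnit_iff_natAbs_eq]
  by_contra h5
  obtain ⟨p, hp, h6⟩ := Nat.exists_prime_and_dvd h5
  have h7 := Int.natCast_dvd.2 h6
  exact F.not_dvd_ab hp (by exact_mod_cast h7.trans h3) (by exact_mod_cast h7.trans h4)

theorem Num.irreducible_quot (F : Num n a b ε) {f : ℤ[X]}
    (hf : (X - 1) ^ 3 * (X + 1) ^ ε * f = TT n a b) :
    Irreducible (f.map (Int.castRingHom ℚ)) := by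
  have hprim : f.IsPrimitive := isPrimitive_of_dvd F.isPrimitive_TT (Dvd.intro_left _ hf)
  have hf0 : f ≠ 0 := hprim.ne_zero
  rw [← IsPrimitive.Int.irreducible_iff_irreducible_map_cast hprim]
  have hunit : ∀ {g : ℤ[X]}, g ∣ f → g.natDegree = 0 → IsUnit g := fun {g} h1 h2 => by
    rw [eq_C_of_natDegree_eq_zero h2] at h1 ⊢
    exact isUnit_C.2 (hprim _ h1)
  refine ⟨fun h1 => ?_, fun g h hgh => ?_⟩
  · have h2 := F.natDegree_TT
    rw [← hf, natDegree_mul (monic_tau ε).ne_zero hf0, natDegree_tau,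
      natDegree_eq_zero_of_isUnit h1] at h2
    have := F.hn
    rcases F.cases with h | h <;> omega
  · by_contra hcon
    push Not at hcon
    exact Fac.false (g := g) (h := h)
      { F with
        fac := by rw [← hf, hgh, mul_assoc]
        hd := Nat.pos_of_ne_zero fun h1 => hcon.1 (hunit (Dvd.intro _ hgh.symm) h1)
        he := Nat.pos_of_ne_zero fun h1 => hcon.2 (hunit (Dvd.intro_left _ hgh.symm) h1) }

theorem irreducible_reduced (n : ℕ) (hn : 4 ≤ n) : ∃ f : ℚ[X],
    C ((n : ℚ) - 1) * (X ^ (n + 1) - 1) - C ((n : ℚ) + 1) * (X ^ n - X) =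
      (if Odd n then (X - 1) ^ 3 * (X + 1) else (X - 1) ^ 3) * f ∧ Irreducible f := by
  obtain ⟨a, b, ε, F, hτ⟩ : ∃ a b ε, Num n a b ε ∧ (if Odd n then (X - 1) ^ 3 * (X + 1)
      else (X - 1) ^ 3 : ℚ[X]) = (X - 1) ^ 3 * (X + 1) ^ ε := by
    rcases Nat.even_or_odd n with h | h
    · exact ⟨n - 1, n + 1, 0, ⟨hn, by omega, by omega, by omega, fun _ => h⟩, by
        simp [Nat.not_odd_iff_even.2 h]⟩
    · obtain ⟨k, hk⟩ := id h
      exact ⟨k, k + 1, 1, ⟨hn, by omega, by omega, by omega, by omega⟩, by simp [h]⟩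
  obtain ⟨f, hf⟩ := F.exists_quot
  refine ⟨C ((ε : ℚ) + 1) * f.map (Int.castRingHom ℚ), ?_, ?_⟩
  · have h1 := congrArg (Polynomial.map (Int.castRingHom ℚ)) hf
    have h2 : (n : ℚ) - 1 = (ε + 1) * a := by
      have : ((ε : ℚ) + 1) * a + 1 = n := by exact_mod_cast F.ha
      linarith
    have h3 : (n : ℚ) + 1 = (ε + 1) * b := by exact_mod_cast F.hb.symm
    simp only [TT, Polynomial.map_mul, Polynomial.map_sub, Polynomial.map_add, Polynomial.map_pow,
      map_X, Polynomial.map_one, map_natCast, Polynomial.map_natCast] at h1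
    rw [hτ, h2, h3, map_mul, map_mul, map_natCast, map_natCast]
    linear_combination (-C ((ε : ℚ) + 1)) * h1
  · exact (irreducible_isUnit_mul (isUnit_C.2 (IsUnit.mk0 _ (by positivity)))).2
      (F.irreducible_quot hf)

end Pool.Agent.MP_9c0351_nt
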